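import Pool.Agent.Mg.F5cfbf6.G9830bc

section

/-!
Definitions and statements of the steps of the ball theorem.
-/

set_option autoImplicit false

namespace Pool.Agent.MP_616ade_gt.Ball

open Set Function MeasureTheory Pool.Agent.MP_616ade_gt
open scoped BoundedContinuousFunction

universe u

/-- The obstruction with general constants. -/
def SObs : Prop :=
  ∀ (d : ℕ) (X : Type) [MetricSpace X] (A : Set (Fin (d + 1) → ℝ)), MeasurableSet A →
    volume A ≠ 0 → ∀ (q : (Fin (d + 1) → ℝ) → X) (c L : ℝ), 0 < c →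
    (∀ a ∈ A, ∀ b ∈ A, c * dist a b ≤ dist (q a) (q b) ∧ dist (q a) (q b) ≤ L * dist a b) →
    ¬ IsInverseLimitOfMinkowskiPolyhedra.{u} d X

/-- The covering dimension of the cube. -/
def SDim : Prop :=
  ∀ (d : ℕ) (X : Type) [TopologicalSpace X], (X ≃ₜ Icc (0 : Fin d → ℝ) 1) → HasCoveringDim X d

/-- A concave modulus of continuity. -/
structure Md (ω : ℝ → ℝ) : Prop where
  zero : ω 0 = 0
  mono : MonotoneOn ω (Ici 0)
  conc : ConcaveOn ℝ (Ici 0) ω
  small : ∀ η > 0, ∃ h > 0, ω h ≤ η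

/-- Increments of `F` between two points that are `t` away from `Z`. -/
def KP {E : Type} [PseudoMetricSpace E] (Z : Set E) (ω : ℝ → ℝ) (F : E → ℕ →ᵇ ℝ) : Prop :=
  ∀ (x x' : E) (t : ℝ), 0 ≤ t → (∀ p ∈ Z, t ≤ dist x p) → (∀ p ∈ Z, t ≤ dist x' p) →
    dist (F x) (F x') ≤ ω (t + dist x x') - ω t

/-- The second entry of a member of `G` depends uniformly continuously on the first. -/
def UC {E : Type} [PseudoMetricSpace E] (G : Set (E × (ℕ → ℝ))) : Prop :=
  ∀ η > 0, ∃ δ > 0, ∀ g ∈ G, ∀ g' ∈ G, dist g.1 g'.1 < δ → ∀ k, |g.2 k - g'.2 k| ≤ η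

/-- Extension with a concave modulus. -/
def SExt : Prop :=
  ∀ (E : Type) [PseudoMetricSpace E] (G : Set (E × (ℕ → ℝ))), G.Nonempty →
    (∀ g ∈ G, ∀ k, g.2 k ∈ Icc (0 : ℝ) 1) → UC G →
    ∃ (ω : ℝ → ℝ) (F : E → ℕ →ᵇ ℝ), Md ω ∧ KP (Prod.fst '' G) ω F ∧
      ∀ g ∈ G, ∀ k, F g.1 k = g.2 k

/-- The graph of `F` over the cube. -/
def Gr {d : ℕ} (F : (Fin d → ℝ) → ℕ →ᵇ ℝ) : Set ((Fin d → ℝ) × (ℕ →ᵇ ℝ)) :=
  {y | y.1 ∈ Icc (0 : Fin d → ℝ) 1 ∧ y.2 = F y.1}

open Classical in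
/-- The point of the graph over `x`. -/
noncomputable def P {d : ℕ} (F : (Fin d → ℝ) → ℕ →ᵇ ℝ) (x : Fin d → ℝ) : Gr F :=
  if h : x ∈ Icc (0 : Fin d → ℝ) 1 then ⟨(x, F x), h, rfl⟩
  else ⟨(0, F 0), ⟨le_rfl, zero_le_one⟩, rfl⟩

theorem dist_P {d : ℕ} (F : (Fin d → ℝ) → ℕ →ᵇ ℝ) {x y : Fin d → ℝ}
    (hx : x ∈ Icc (0 : Fin d → ℝ) 1) (hy : y ∈ Icc (0 : Fin d → ℝ) 1) :
    dist (P F x) (P F y) = max (dist x y) (dist (F x) (F y)) := by
  simp only [P, dif_pos hx, dif_pos hy, Subtype.dist_eq, Prod.dist_eq]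

/-- Close points of `S` are joined by short chains in the graph. -/
def Near {d : ℕ} (F : (Fin d → ℝ) → ℕ →ᵇ ℝ) (S : Set (Fin d → ℝ)) : Prop :=
  ∀ η > 0, ∃ δ > 0, ∀ x ∈ S, ∀ y ∈ S, dist x y < δ → CLe (P F x) (P F y) η

/-- Cost of a segment that moves away from `Z` at a linear rate. -/
def SEsc : Prop :=
  ∀ (d : ℕ) (Z : Set (Fin d → ℝ)) (ω : ℝ → ℝ) (F : (Fin d → ℝ) → ℕ →ᵇ ℝ), Md ω → KP Z ω F →
    ∀ (z v : Fin d → ℝ) (T κ : ℝ), ‖v‖ ≤ 1 → 0 ≤ T → 0 < κ → κ ≤ 1 →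
    (∀ s ∈ Icc (0 : ℝ) T, z + s • v ∈ Icc (0 : Fin d → ℝ) 1 ∧
      ∀ p ∈ Z, κ * s ≤ dist (z + s • v) p) →
    CLe (P F z) (P F (z + T • v)) (T + ω (κ * T) / κ)

/-- Cost of a short segment far from `Z`. -/
def SAcr : Prop :=
  ∀ (d : ℕ) (Z : Set (Fin d → ℝ)) (ω : ℝ → ℝ) (F : (Fin d → ℝ) → ℕ →ᵇ ℝ), Md ω → KP Z ω F →
    ∀ x ∈ Icc (0 : Fin d → ℝ) 1, ∀ y ∈ Icc (0 : Fin d → ℝ) 1, ∀ t : ℝ, 0 < t → dist x y ≤ t →
    (∀ p ∈ Z, 2 * t ≤ dist x p) → CLe (P F x) (P F y) (t + ω t)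

/-- From `z` one can leave `Z` in the direction `v`. -/
def Esc {d : ℕ} (Z : Set (Fin d → ℝ)) (v z : Fin d → ℝ) : Prop :=
  ∀ s ∈ Icc (0 : ℝ) (1 / 4), z + s • v ∈ Icc (0 : Fin d → ℝ) 1 ∧
    ∀ p ∈ Z, s / 4 ≤ dist (z + s • v) p

def SUp : Prop :=
  ∀ (d : ℕ) (Z : Set (Fin d → ℝ)) (ω : ℝ → ℝ) (F : (Fin d → ℝ) → ℕ →ᵇ ℝ), Md ω → KP Z ω F →
    ∀ v : Fin d → ℝ, ‖v‖ ≤ 1 → Near F {z | Esc Z v z}

def SAll : Prop :=
  ∀ (d : ℕ) (Z : Set (Fin d → ℝ)) (ω : ℝ → ℝ) (F : (Fin d → ℝ) → ℕ →ᵇ ℝ), Md ω → KP Z ω F →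
    Z.Nonempty → Z ⊆ Icc (0 : Fin d → ℝ) 1 → Near F Z → Near F (Icc (0 : Fin d → ℝ) 1)

/-- The graph with its chain metric. -/
def SSp : Prop :=
  ∀ (d : ℕ) (Z : Set (Fin d → ℝ)) (ω : ℝ → ℝ) (F : (Fin d → ℝ) → ℕ →ᵇ ℝ), Md ω → KP Z ω F →
    Near F (Icc (0 : Fin d → ℝ) 1) →
    ∃ (X : Type) (_ : MetricSpace X) (j : (Fin d → ℝ) → X), CompactSpace X ∧
      Nonempty (X ≃ₜ Icc (0 : Fin d → ℝ) 1) ∧ IsLengthSpace X ∧
      ∀ (x y : Fin d → ℝ) (L : ℝ), dist (j x) (j y) ≤ L ↔ CLe (P F x) (P F y) L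

/-- weights of the coordinates -/
noncomputable def w (k : ℕ) : ℝ := 1 / (k + 1)

theorem w_pos (k : ℕ) : 0 < w k := by unfold w; positivity

theorem w_le (k : ℕ) : w k ≤ 1 := by
  unfold w
  rw [div_le_one (by positivity)]
  linarith [(Nat.cast_nonneg k : (0 : ℝ) ≤ k)]

/-- sequences in the fat Cantor set -/
def AA : Set (ℕ → ℝ) := {a | ∀ k, IsC (a k)}

open Classical in
/-- the sum of the weights `c n` over the `n` with `f n` -/
noncomputable def sm (c : ℕ → ℝ) (f : ℕ → Prop) : ℝ := ∑' n, if f n then c n else 0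

def SSum : Prop :=
  ∀ c : ℕ → ℝ, (∀ n, 0 < c n) → (∀ n, 3 * c (n + 1) ≤ c n) →
    (∀ f, 0 ≤ sm c f ∧ sm c f ≤ 3 / 2 * c 0) ∧
    (∀ f g n, (∀ k < n, f k ↔ g k) → |sm c f - sm c g| ≤ 3 / 2 * c n ∧
      (¬ (f n ↔ g n) → c n / 2 ≤ |sm c f - sm c g|)) ∧
    ∀ f g f' g' : ℕ → Prop,
      (∀ k, ((f k ↔ g k) ∧ (f' k ↔ g' k)) ∨ ((f k ↔ f' k) ∧ (g k ↔ g' k))) →
      sm c f - sm c g = sm c f' - sm c g'

def SNet : Prop :=
  IsClosed {x | IsC x} ∧ ∃ (I : ℕ → ℕ) (q : ℕ → ℝ), ∀ η > 0, ∃ N : ℕ, ∀ (i : ℕ) (s t : ℝ),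
    0 ≤ s → t ≤ 1 → η < w i * (t - s) → ∃ n < N, I n = i ∧ ¬ IsC (q n) ∧ s < q n ∧ q n < t

/-- The code of the sequences and the list of the gaps. -/
structure Dat where
  S : Set ℕ
  I : ℕ → ℕ
  l : ℕ → ℝ
  h : ℕ → ℝ
  lam : ℕ → ℝ
  c : ℕ → ℝ
  u : (ℕ → ℝ) → ℝ
  pos : ∀ n, 0 < c n
  dec : ∀ n, 3 * c (n + 1) ≤ c n
  c0 : c 0 ≤ 1 / 4
  u01 : ∀ a, u a ∈ Icc (0 : ℝ) 1
  inv : ∀ η > 0, ∃ δ > 0, ∀ a ∈ AA, ∀ b ∈ AA, |u a - u b| < δ → ∀ k, w k * |a k - b k| ≤ η
  lip : ∀ a ∈ AA, ∀ i t, IsC t → |u (update a i t) - u a| ≤ 2 * |t - a i|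
  fam : ∀ i s t, IsC s → IsC t → s < t → (∀ x, IsC x → x ≤ s ∨ t ≤ x) →
    ∃ n ∈ S, I n = i ∧ l n = s ∧ h n = t
  gap : ∀ n ∈ S, IsC (l n) ∧ IsC (h n) ∧ l n < h n
  lam1 : ∀ n ∈ S, c n / 2 ≤ |lam n| ∧ |lam n| ≤ 3 / 2 * c n
  lam2 : ∀ n ∈ S, ∀ a, a (I n) = l n → u (update a (I n) (h n)) = u a + lam n
  cle : ∀ n ∈ S, c n ≤ w (I n) * (h n - l n)
  small : ∀ η > 0, ∃ N, ∀ n ∈ S, N ≤ n → w (I n) * (h n - l n) ≤ η

def SCode : Prop := Nonempty Dat

/-- a point with three given coordinates, the others being zero -/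
def pt {e : ℕ} (x y z : ℝ) : Fin (e + 3) → ℝ := Fin.cons x (Fin.cons y (Fin.cons z 0))

theorem cons_two {e : ℕ} (x y z : ℝ) :
    (Fin.cons x (Fin.cons y (Fin.cons z 0)) : Fin (e + 3) → ℝ) 2 = z := rfl

theorem pt_mem {e : ℕ} {x y z : ℝ} (hx : x ∈ Icc (0 : ℝ) 1) (hy : y ∈ Icc (0 : ℝ) 1)
    (hz : z ∈ Icc (0 : ℝ) 1) : pt x y z ∈ Icc (0 : Fin (e + 3) → ℝ) 1 := by
  constructor <;> intro i <;>
    refine Fin.cases ?_ (fun i => Fin.cases ?_ (fun i => Fin.cases ?_ (fun i => ?_) i) i) i <;>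
    simp [pt, cons_two, hx.1, hx.2, hy.1, hy.2, hz.1, hz.2]

theorem dist_pt {e : ℕ} (x y z x' y' z' : ℝ) :
    dist (pt x y z : Fin (e + 3) → ℝ) (pt x' y' z') = max |x - x'| (max |y - y'| |z - z'|) := by
  apply le_antisymm
  · refine (dist_pi_le_iff (by positivity)).2 fun i => ?_
    refine Fin.cases ?_ (fun i => Fin.cases ?_ (fun i => Fin.cases ?_ (fun i => ?_) i) i) i <;>
      simp [pt, cons_two, Real.dist_eq]
  · exact max_le (dist_le_pi_dist (pt x y z : Fin (e + 3) → ℝ) (pt x' y' z') 0)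
      (max_le (dist_le_pi_dist (pt x y z : Fin (e + 3) → ℝ) (pt x' y' z') (Fin.succ 0))
        (dist_le_pi_dist (pt x y z : Fin (e + 3) → ℝ) (pt x' y' z') (Fin.succ (Fin.succ 0))))

theorem pt_add {e : ℕ} (x y z s r : ℝ) :
    (pt x y z : Fin (e + 3) → ℝ) + s • pt 0 0 r = pt x y (z + s * r) := by
  funext i
  refine Fin.cases ?_ (fun i => Fin.cases ?_ (fun i => Fin.cases ?_ (fun i => ?_) i) i) i <;>
    simp [pt, cons_two]

theorem norm_pt {e : ℕ} {r : ℝ} (hr : |r| ≤ 1) : ‖(pt 0 0 r : Fin (e + 3) → ℝ)‖ ≤ 1 := by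
  refine (pi_norm_le_iff_of_nonneg zero_le_one).2 fun i => ?_
  refine Fin.cases ?_ (fun i => Fin.cases ?_ (fun i => Fin.cases ?_ (fun i => ?_) i) i) i <;>
    simp [pt, cons_two, hr]

namespace Dat

variable (D : Dat)

theorem sep {n n' : ℕ} (h : n < n') : 3 * D.c n' ≤ D.c n := by
  induction n', h using Nat.le_induction with
  | base => exact D.dec n
  | succ k _ ih => linarith [D.dec k, D.pos (k + 1), D.pos k]

theorem anti {n n' : ℕ} (h : n ≤ n') : D.c n' ≤ D.c n := by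
  rcases h.eq_or_lt with rfl | h
  · exact le_rfl
  · linarith [D.sep h, D.pos n']

theorem c_le (n : ℕ) : D.c n ≤ 1 / 4 := (D.anti n.zero_le).trans D.c0

/-- a low point of a wire is close to a foot of the wire -/
theorem foot {η : ℝ} (hη : 0 < η) : ∃ δ > 0, ∀ n ∈ D.S, ∀ s ∈ Icc (0 : ℝ) 1,
    D.c n ^ 2 * min s (1 - s) ≤ δ → min s (1 - s) * (w (D.I n) * (D.h n - D.l n)) ≤ η := by
  obtain ⟨N, hN⟩ := D.small η hη
  have hc := D.pos N
  refine ⟨D.c N ^ 2 * η, by positivity, fun n hn s hs h => ?_⟩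
  have h0 : 0 ≤ min s (1 - s) := le_min hs.1 (by linarith [hs.2])
  have h1 : min s (1 - s) ≤ 1 := (min_le_left _ _).trans hs.2
  obtain ⟨g1, g2, g3⟩ := D.gap n hn
  have h2 : 0 ≤ w (D.I n) * (D.h n - D.l n) := mul_nonneg (w_pos _).le (by linarith)
  rcases le_total N n with h3 | h3
  · nlinarith [hN n hn h3]
  · have h4 : w (D.I n) * (D.h n - D.l n) ≤ 1 := by
      nlinarith [w_le (D.I n), w_pos (D.I n), g1.1.1, g2.1.2]
    have h5 : D.c N ^ 2 ≤ D.c n ^ 2 := pow_le_pow_left₀ hc.le (D.anti h3) 2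
    have h6 : D.c N ^ 2 * min s (1 - s) ≤ D.c N ^ 2 * η :=
      (mul_le_mul_of_nonneg_right h5 h0).trans h
    have h7 := le_of_mul_le_mul_left h6 (by positivity)
    nlinarith

/-- a point of the column of `a` -/
noncomputable def base {e : ℕ} (a : ℕ → ℝ) (y : ℝ) : Fin (e + 3) → ℝ := pt (D.u a) y (1 / 2)

/-- a point of the wire of the family `n` that starts on the column of `a` -/
noncomputable def wire {e : ℕ} (n : ℕ) (a : ℕ → ℝ) (s : ℝ) : Fin (e + 3) → ℝ :=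
  pt (D.u a + s * D.lam n) (D.c n * (2 + D.u a)) (1 / 2 + D.c n ^ 2 * min s (1 - s))

/-- the value on a wire -/
noncomputable def val (n : ℕ) (a : ℕ → ℝ) (s : ℝ) : ℕ → ℝ :=
  fun k => w k * update a (D.I n) (D.l n + s * (D.h n - D.l n)) k

/-- the points of the columns and of the wires with their values -/
def G (e : ℕ) : Set ((Fin (e + 3) → ℝ) × (ℕ → ℝ)) :=
  {g | (∃ a ∈ AA, ∃ y ∈ Icc (0 : ℝ) 1, g = (D.base a y, fun k => w k * a k)) ∨
    ∃ n ∈ D.S, ∃ a ∈ AA, a (D.I n) = D.l n ∧ ∃ s ∈ Icc (0 : ℝ) 1, g = (D.wire n a s, D.val n a s)}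

end Dat

def SUC : Prop := ∀ (D : Dat) (e : ℕ), UC (D.G e)

/-- Position of the columns and of the wires. -/
def SGeo : Prop :=
  ∀ (D : Dat) (e : ℕ), (D.G e).Nonempty ∧ (∀ g ∈ D.G e, ∀ k, g.2 k ∈ Icc (0 : ℝ) 1) ∧
    Prod.fst '' D.G e ⊆ Icc (0 : Fin (e + 3) → ℝ) 1 ∧
    (∀ a ∈ AA, ∀ y ∈ Icc (0 : ℝ) 1, Esc (Prod.fst '' D.G e) (pt 0 0 (-1)) (D.base a y)) ∧
    ∀ n ∈ D.S, ∀ a ∈ AA, a (D.I n) = D.l n → ∀ s ∈ Icc (0 : ℝ) 1,
      Esc (Prod.fst '' D.G e) (pt 0 0 1) (D.wire n a s)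

end Pool.Agent.MP_616ade_gt.Ball

end

section

set_option autoImplicit false

namespace Pool.Agent.MP_616ade_gt.Ball

open Set Function MeasureTheory Pool.Agent.MP_616ade_gt Filter Topology
open scoped BoundedContinuousFunction NNReal ENNReal

universe u

theorem obstruct_Ob {m : ℕ} {K : ℝ≥0} (hK : 1 ≤ (K : ℝ)) {θ : ℝ} (hθ : 0 < θ) (hθ1 : θ ≤ 1)
    {A : Set (Fin m → ℝ)} (hA : MeasurableSet A) (hpos : volume A ≠ 0)
    {M : ℕ → Type*} [∀ n, MetricSpace (M n)] (p : ∀ n, (Fin m → ℝ) → M n)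
    (hp : ∀ n, LipschitzOnWith K (p n) A)
    (bond : ∀ n N, n ≤ N → ∃ g : M N → M n, LipschitzWith 1 g ∧ ∀ x, g (p N x) = p n x)
    (hdim : ∀ n, dimH (univ : Set (M n)) < m) :
    ∃ a ∈ A, ∃ b ∈ A, a ≠ b ∧ ∀ n, dist (p n a) (p n b) ≤ dist a b * (3 * θ / 4) := by
  classical
  have hη : θ / (8 * K) ≤ 1 / 8 := by
    rw [div_le_div_iff₀ (by positivity) (by norm_num)]
    linarith
  have hne : A.Nonempty := nonempty_of_measure_ne_zero hpos
  haveI := hne.to_subtype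
  set D : ℕ → Fin m → ℝ := fun k => (TopologicalSpace.denseSeq A k : A) with hD
  have h1 : ∀ i : ℕ × ℕ, ∃ φ : (Fin m → ℝ) → ℝ, LipschitzWith K φ ∧
      EqOn (fun x => dist (p i.1 x) (p i.1 (D i.2))) φ A := fun i => by
    refine LipschitzOnWith.extend_real ?_
    have := (LipschitzWith.dist_left (p i.1 (D i.2))).comp_lipschitzOnWith (hp i.1)
    rw [one_mul] at this
    exact this
  choose φ hφ hφA using h1
  have h2 : ∀ τ : Fin m → ℕ × ℕ, volume {x | x ∈ A ∧ (∀ i, DifferentiableAt ℝ (φ i) x) ∧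
      (ContinuousLinearMap.pi fun k => fderiv ℝ (φ (τ k)) x).det ≠ 0} = 0 := fun τ => by
    refine null_of_image_null (f := fun x k => φ (τ k) x) (fun x hx => (hasFDerivAt_pi.2
      fun k => (hx.2.1 (τ k)).hasFDerivAt).hasFDerivWithinAt) (fun x hx => hx.2.2) ?_
    set N := Finset.univ.sup fun k => (τ k).1
    choose g hg hg' using fun k => bond (τ k).1 N
      (Finset.le_sup (f := fun k => (τ k).1) (Finset.mem_univ k))
    have hΨ : LipschitzWith 1 fun (y : M N) k => dist (g k y) (p (τ k).1 (D (τ k).2)) :=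
      LipschitzWith.of_dist_le_mul fun y y' => (dist_pi_le_iff (by positivity)).2 fun k =>
        (by simpa using ((LipschitzWith.dist_left _).comp (hg k)).dist_le_mul y y')
    refine measure_mono_null (t := range fun (y : M N) k => dist (g k y) (p (τ k).1 (D (τ k).2)))
      ?_ ?_
    · rintro _ ⟨x, hx, rfl⟩
      refine ⟨p N x, funext fun k => ?_⟩
      show dist (g k (p N x)) _ = _
      rw [hg']
      exact hφA (τ k) hx.1
    · rw [← hausdorffMeasure_pi_real, Fintype.card_fin]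
      exact_mod_cast hausdorffMeasure_of_dimH_lt (d := m)
        (hΨ.dimH_range_le.trans_lt (by exact_mod_cast hdim N))
  set v : ℕ → Fin m → ℝ := TopologicalSpace.denseSeq _ with hv
  set P : ℕ → Set (Fin m → ℝ) := fun j => {x | x ∈ A ∧ 1 / 2 ≤ ‖v j‖ ∧
    ∀ i, DifferentiableAt ℝ (φ i) x ∧ |fderiv ℝ (φ i) x (v j)| ≤ θ / 8} with hP
  have hPm : ∀ j, MeasurableSet (P j) := fun j => by
    refine hA.inter ((MeasurableSet.const _).inter ?_)
    show MeasurableSet {x | ∀ i, DifferentiableAt ℝ (φ i) x ∧ |fderiv ℝ (φ i) x (v j)| ≤ θ / 8}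
    rw [setOf_forall]
    refine MeasurableSet.iInter fun i => ?_
    have h6 : MeasurableSet {x | |fderiv ℝ (φ i) x (v j)| ≤ θ / 8} :=
      measurableSet_le (measurable_fderiv_apply_const ℝ (φ i) (v j)).abs measurable_const
    exact (measurableSet_of_differentiableAt ℝ (φ i)).inter h6
  obtain ⟨j, hj⟩ : ∃ j, volume (P j) ≠ 0 := by
    by_contra h
    push Not at h
    have h3 : ∀ᵐ x : Fin m → ℝ, ∀ i, DifferentiableAt ℝ (φ i) x :=
      ae_all_iff.2 fun i => (hφ i).ae_differentiableAt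
    have h4 := ae_all_iff.2 fun τ => measure_eq_zero_iff_ae_notMem.1 (h2 τ)
    have h5 := ae_all_iff.2 fun j => measure_eq_zero_iff_ae_notMem.1 (h j)
    refine hpos (measure_eq_zero_iff_ae_notMem.2 ?_)
    filter_upwards [h3, h4, h5] with x e3 e4 e5 hx
    obtain ⟨w, hw0, hw⟩ : ∃ w, w ≠ 0 ∧ ∀ i, fderiv ℝ (φ i) x w = 0 := by
      by_contra h6
      push Not at h6
      obtain ⟨τ, hτ⟩ := exists_tuple (fun i => fderiv ℝ (φ i) x) h6
      exact e4 τ ⟨hx, e3, hτ⟩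
    have hw1 : 0 < ‖w‖ := norm_pos_iff.2 hw0
    obtain ⟨j, hj⟩ := (TopologicalSpace.denseRange_denseSeq (Fin m → ℝ)).exists_dist_lt
      (‖w‖⁻¹ • w) (show (0 : ℝ) < θ / (8 * K) by positivity)
    rw [dist_comm, dist_eq_norm] at hj
    have hu : ‖‖w‖⁻¹ • w‖ = 1 := by rw [norm_smul]; simp [hw1.ne']
    refine e5 j ⟨hx, ?_, fun i => ⟨e3 i, ?_⟩⟩
    · have := abs_le.1 ((abs_norm_sub_norm_le _ _).trans hj.le)
      linarith
    · have h6 : fderiv ℝ (φ i) x (v j) = fderiv ℝ (φ i) x (v j - ‖w‖⁻¹ • w) := by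
        rw [map_sub, map_smul, hw, smul_zero, sub_zero]
      have h7 := (fderiv ℝ (φ i) x).le_of_opNorm_le_of_le
        (norm_fderiv_le_of_lipschitz ℝ (hφ i)) hj.le
      rw [h6]
      exact h7.trans (le_of_eq (by field_simp))
  obtain ⟨x, hx⟩ := exists_line (hPm j) hj (v j)
  have hT : MeasurableSet {t : ℝ | x + t • v j ∈ P j} := (hPm j).preimage (by fun_prop)
  obtain ⟨a, ha, b, hb, hab, hvol⟩ := exists_dense_pair hT hx (η := θ / (8 * K))
    (by positivity) hη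
  have hv1 : 1 / 2 ≤ ‖v j‖ := ha.2.1
  have hd : dist (x + a • v j) (x + b • v j) = (b - a) * ‖v j‖ := by
    rw [dist_add_left, dist_comm, dist_eq_norm, ← sub_smul, norm_smul, Real.norm_eq_abs,
      abs_of_pos (by linarith)]
  refine ⟨_, ha.1, _, hb.1, fun h => ?_, fun n => ?_⟩
  · rw [h, dist_self] at hd
    nlinarith
  have h3 : ∀ i, |φ i (x + b • v j) - φ i (x + a • v j)| ≤ (b - a) * ‖v j‖ * (3 * θ / 4) := by
    intro i
    have hl : LipschitzWith ‖v j‖₊ fun t : ℝ => x + t • v j :=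
      LipschitzWith.of_dist_le_mul fun s t => by
        rw [dist_add_left, dist_eq_norm, ← sub_smul, norm_smul, mul_comm, dist_eq_norm]; rfl
    have h4 := slope_le ((hφ i).comp hl) hT (c := θ / 8) (by positivity) (fun t ht => by
      have h5 : HasDerivAt (fun t : ℝ => x + t • v j) (v j) t := by
        simpa using ((hasDerivAt_id t).smul_const (v j)).const_add x
      rw [((ht.2.2 i).1.hasFDerivAt.comp_hasDerivAt t h5).deriv]
      exact (ht.2.2 i).2) hab.le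
    refine h4.trans ?_
    push_cast
    have h8 := mul_le_mul_of_nonneg_left hvol (mul_nonneg K.2 (norm_nonneg (v j)))
    have h9 : (K : ℝ) * ‖v j‖ * (4 * (θ / (8 * K)) * (b - a)) = ‖v j‖ * (θ / 2 * (b - a)) := by
      field_simp
      ring
    have h10 : 0 ≤ θ * (b - a) * (‖v j‖ - 1 / 2) :=
      mul_nonneg (mul_nonneg hθ.le (by linarith)) (by linarith)
    have h11 : ((K : ℝ≥0).1 : ℝ) = K := rfl
    rw [h11, h9] at h8
    nlinarith
  rw [hd]
  refine le_of_forall_pos_le_add fun ε hε => ?_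
  obtain ⟨k, hk⟩ := (TopologicalSpace.denseRange_denseSeq A).exists_dist_lt ⟨_, ha.1⟩
    (show 0 < ε / (2 * K) by positivity)
  have h4 := (hp n).dist_le_mul _ ha.1 (D k) (TopologicalSpace.denseSeq A k).2
  have h5 : dist (x + a • v j) (D k) < ε / (2 * K) := hk
  have h5' : (K : ℝ) * dist (x + a • v j) (D k) ≤ ε / 2 :=
    (mul_le_mul_of_nonneg_left h5.le (by linarith)).trans (le_of_eq (by field_simp))
  have h6 := h3 (n, k)
  rw [← hφA (n, k) ha.1, ← hφA (n, k) hb.1, abs_le] at h6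
  have h7 := dist_triangle_right (p n (x + a • v j)) (p n (x + b • v j)) (p n (D k))
  simp only at h4 h6
  linarith [h6.2]

theorem s_ob : SObs.{u} := by
  rintro d X _ A hA hpos q c L hc hq ⟨M, _, f, hM, hf, π, hπ⟩
  have hle : ∀ n x y, dist ((π x).1 n) ((π y).1 n) ≤ dist x y := fun n x y =>
    Monotone.ge_of_tendsto (monotone_nat_of_le_succ fun n => by
      have := (hf n).dist_le_mul ((π x).1 (n + 1)) ((π y).1 (n + 1))
      rw [(π x).2 n, (π y).2 n] at this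
      simpa using this) (hπ x y) n
  obtain ⟨a, ha, b, hb, hab, h⟩ := obstruct_Ob (K := ⟨max L 1, by positivity⟩) (le_max_right _ _)
    (θ := min c 1) (by positivity) (min_le_right _ _) hA hpos (fun n x => (π (q x)).1 n)
    (fun n => LipschitzOnWith.of_dist_le_mul fun a ha b hb =>
      (hle n _ _).trans ((hq a ha b hb).2.trans
        (mul_le_mul_of_nonneg_right (le_max_left _ _) dist_nonneg)))
    (fun n N hN => by
      induction N, hN using Nat.le_induction with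
      | base => exact ⟨id, LipschitzWith.id, fun _ => rfl⟩
      | succ N _ ih =>
        obtain ⟨g, hg, hg'⟩ := ih
        refine ⟨g ∘ f N, by simpa using hg.comp (hf N), fun x => ?_⟩
        rw [Function.comp_apply, (π (q x)).2 N, hg'])
    fun n => (hM n).dimH_le.trans_lt (by exact_mod_cast d.lt_succ_self)
  have h1 := le_of_tendsto' (hπ (q a) (q b)) h
  nlinarith [(hq a ha b hb).1, dist_pos.2 hab, min_le_left c 1]

end Pool.Agent.MP_616ade_gt.Ball

end

section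

set_option autoImplicit false

namespace Pool.Agent.MP_616ade_gt.Ball

open Set Function MeasureTheory Pool.Agent.MP_616ade_gt
open scoped BoundedContinuousFunction

theorem geo_Net (c : ℕ → ℝ) (h3 : ∀ n, 3 * c (n + 1) ≤ c n) (n k : ℕ) :
    c (k + n) ≤ c n * (1 / 3) ^ k := by
  induction k with
  | zero => simp
  | succ k ih =>
    have := h3 (k + n)
    rw [show k + 1 + n = k + n + 1 by ring, pow_succ]
    linarith

theorem hs_Net (a : ℝ) : HasSum (fun k : ℕ => a * (1 / 3 : ℝ) ^ k) (3 / 2 * a) := by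
  have := (hasSum_geometric_of_lt_one (r := (1 / 3 : ℝ)) (by norm_num) (by norm_num)).mul_left a
  have e : a * (1 - 1 / 3 : ℝ)⁻¹ = 3 / 2 * a := by
    norm_num
    ring
  rwa [e] at this

theorem smb_Net (c d : ℕ → ℝ) (h3 : ∀ n, 3 * c (n + 1) ≤ c n) (hd : ∀ k, |d k| ≤ c k) :
    Summable d :=
  Summable.of_norm_bounded (hs_Net (c 0)).summable fun k =>
    (hd k).trans (by simpa using geo_Net c h3 0 k)

theorem tail_Net (c d : ℕ → ℝ) (h3 : ∀ n, 3 * c (n + 1) ≤ c n) (hd : ∀ k, |d k| ≤ c k) (n : ℕ) :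
    |∑' k, d (k + n)| ≤ 3 / 2 * c n :=
  tsum_of_norm_bounded (f := fun k => d (k + n)) (hs_Net (c n))
    fun k => (hd (k + n)).trans (geo_Net c h3 n k)

open Classical in
theorem s_sum : SSum := by
  intro c hc h3
  have ht : ∀ (f : ℕ → Prop) (k : ℕ), |if f k then c k else 0| ≤ c k := by
    intro f k
    split_ifs
    · exact (abs_of_pos (hc k)).le
    · simpa using (hc k).le
  have hsub : ∀ f g : ℕ → Prop, sm c f - sm c g
      = ∑' k, ((if f k then c k else 0) - (if g k then c k else 0)) := by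
    intro f g
    rw [sm, sm, Summable.tsum_sub (smb_Net c _ h3 (ht f)) (smb_Net c _ h3 (ht g))]
  have hd : ∀ (f g : ℕ → Prop) (k : ℕ),
      |(if f k then c k else 0) - (if g k then c k else 0)| ≤ c k := by
    intro f g k
    have := hc k
    split_ifs <;> simp [abs_of_pos this, this.le]
  refine ⟨fun f => ⟨?_, ?_⟩, fun f g n h => ?_, fun f g f' g' h => ?_⟩
  · refine tsum_nonneg fun k => ?_
    split_ifs
    · exact (hc k).le
    · exact le_rfl
  · have := tail_Net c _ h3 (ht f) 0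
    simp only [add_zero] at this
    exact (le_abs_self _).trans this
  · have hz : ∑ k ∈ Finset.range n, ((if f k then c k else 0) - (if g k then c k else 0)) = 0 := by
      refine Finset.sum_eq_zero fun k hk => ?_
      have := h k (Finset.mem_range.1 hk)
      simp [this]
    have hs := smb_Net c _ h3 (hd f g)
    refine ⟨?_, fun hn => ?_⟩
    · rw [hsub, ← hs.sum_add_tsum_nat_add n, hz, zero_add]
      exact tail_Net c _ h3 (hd f g) n
    · rw [hsub, ← hs.sum_add_tsum_nat_add (n + 1), Finset.sum_range_succ, hz, zero_add]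
      have e1 := abs_le.1 (tail_Net c _ h3 (hd f g) (n + 1))
      have e2 := h3 n
      by_cases hf : f n
      · have hg : ¬ g n := fun hg => hn (iff_of_true hf hg)
        rw [if_pos hf, if_neg hg]
        exact le_abs.2 (Or.inl (by linarith [e1.1]))
      · have hg : g n := by
          by_contra hg
          exact hn (iff_of_false hf hg)
        rw [if_neg hf, if_pos hg]
        exact le_abs.2 (Or.inr (by linarith [e1.2]))
  · rw [hsub, hsub]
    refine tsum_congr fun k => ?_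
    rcases h k with ⟨h1, h2⟩ | ⟨h1, h2⟩ <;> simp [h1, h2]

theorem pt_Net (a b : ℝ) : ∃ x, a < b → ¬ IsC x ∧ a < x ∧ x < b := by
  by_cases hab : a < b
  swap
  · exact ⟨0, fun h => absurd h hab⟩
  obtain ⟨n, hn⟩ := exists_NN ((b - a) / 2) (by linarith)
  have h1 := hn n le_rfl
  have hN := NN_posR n
  have hN' := NN_posR (n + 1)
  have hr := ra_geR n
  rw [div_le_iff₀ hN] at h1
  have h2 := Int.le_ceil ((NN n : ℝ) * a)
  have h3 := Int.ceil_lt_add_one ((NN n : ℝ) * a)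
  refine ⟨((ra n : ℝ) * ⌈(NN n : ℝ) * a⌉ + 3 / 2) / NN (n + 1), fun _ => ⟨fun h => ?_, ?_, ?_⟩⟩
  · refine h.2 n ⟨⌈(NN n : ℝ) * a⌉, ?_, ?_⟩ <;> rw [mul_div_cancel₀ _ hN'.ne'] <;> linarith
  · rw [lt_div_iff₀ hN', NN_succR]
    nlinarith
  · rw [div_lt_iff₀ hN', NN_succR]
    nlinarith

theorem s_net : SNet := by
  constructor
  · have : {x | IsC x} = Icc (0 : ℝ) 1 ∩ ⋂ n, (Hole n)ᶜ := by
      ext x
      simp [IsC]
    rw [this]
    exact isClosed_Icc.inter (isClosed_iInter fun n => (isOpen_Hole n).isClosed_compl)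
  choose p hp using pt_Net
  refine ⟨fun n => n.unpair.1, fun n => p ((n.unpair.2.unpair.2 : ℝ) / (n.unpair.2.unpair.1 + 1))
    (((n.unpair.2.unpair.2 : ℝ) + 1) / (n.unpair.2.unpair.1 + 1)), fun η hη => ?_⟩
  obtain ⟨M, hM⟩ := exists_nat_gt (2 / η)
  refine ⟨(Finset.range (M + 1) ×ˢ Finset.range (M + 2)).sup
    (fun x => Nat.pair x.1 (Nat.pair M x.2)) + 1, fun i s t hs ht h => ?_⟩
  have hm : (0 : ℝ) < M + 1 := by positivity
  have hw := w_pos i
  have hw1 := w_le i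
  have hst : 0 < t - s := by
    by_contra hc
    nlinarith
  rw [div_lt_iff₀ hη] at hM
  have h1 : η < t - s := by nlinarith
  have h2 : η < w i := by nlinarith
  have hi : i < M + 1 := by
    unfold w at h2
    rw [lt_div_iff₀ (by positivity)] at h2
    have : (i : ℝ) < M + 1 := by nlinarith
    exact_mod_cast this
  have j1 := Nat.le_ceil (s * (M + 1))
  have j2 := Nat.ceil_lt_add_one (mul_nonneg hs hm.le)
  have hj : ⌈s * (M + 1)⌉₊ < M + 2 := by
    have : (⌈s * (M + 1)⌉₊ : ℝ) < M + 2 := by nlinarith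
    exact_mod_cast this
  refine ⟨Nat.pair i (Nat.pair M ⌈s * (M + 1)⌉₊), Nat.lt_succ_of_le ?_, by simp, ?_⟩
  · exact Finset.le_sup (f := fun x : ℕ × ℕ => Nat.pair x.1 (Nat.pair M x.2))
      (b := (i, ⌈s * (M + 1)⌉₊))
      (Finset.mem_product.2 ⟨Finset.mem_range.2 hi, Finset.mem_range.2 hj⟩)
  · simp only [Nat.unpair_pair]
    obtain ⟨a1, a2, a3⟩ := hp ((⌈s * (M + 1)⌉₊ : ℝ) / (M + 1))
      (((⌈s * (M + 1)⌉₊ : ℝ) + 1) / (M + 1)) (div_lt_div_of_pos_right (by linarith) hm)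
    refine ⟨a1, lt_of_le_of_lt ?_ a2, a3.trans ?_⟩
    · rw [le_div_iff₀ hm]
      exact j1
    · rw [div_lt_iff₀ hm]
      nlinarith

end Pool.Agent.MP_616ade_gt.Ball

end

section

set_option autoImplicit false

namespace Pool.Agent.MP_616ade_gt.Ball

open Set Function MeasureTheory Pool.Agent.MP_616ade_gt
open scoped BoundedContinuousFunction

theorem first_Code {f g : ℕ → Prop} {n : ℕ} (h : ¬ (f n ↔ g n)) :
    ∃ m ≤ n, (∀ k < m, f k ↔ g k) ∧ ¬ (f m ↔ g m) := by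
  classical
  have e : ∃ n, ¬ (f n ↔ g n) := ⟨n, h⟩
  exact ⟨Nat.find e, Nat.find_min' e h, fun k hk => not_not.1 (Nat.find_min e hk), Nat.find_spec e⟩

theorem seq_Code {b : ℕ → ℝ} (hb : ∀ n, 0 < b n) : ∃ c : ℕ → ℝ, (∀ n, 0 < c n) ∧
    (∀ n, 3 * c (n + 1) ≤ c n) ∧ c 0 ≤ 1 / 4 ∧ ∀ n, c n ≤ b n := by
  let c : ℕ → ℝ := fun n => Nat.rec (min (1 / 4) (b 0)) (fun n x => min (x / 3) (b (n + 1))) n
  refine ⟨c, fun n => ?_, fun n => ?_, min_le_left _ _, fun n => ?_⟩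
  · induction n with
    | zero => exact lt_min (by norm_num) (hb 0)
    | succ n ih => exact lt_min (div_pos ih three_pos) (hb _)
  · have : c (n + 1) ≤ c n / 3 := min_le_left _ _
    linarith
  · cases n <;> exact min_le_right _ _

/-- `n` is the first index that sees the gap from `s` to `t` -/
def Fam_Code (I : ℕ → ℕ) (q : ℕ → ℝ) (n : ℕ) (s t : ℝ) : Prop :=
  IsC s ∧ IsC t ∧ s < q n ∧ q n < t ∧ (∀ x, IsC x → x ≤ s ∨ t ≤ x) ∧
    ∀ k < n, I k = I n → ¬ (s < q k ∧ q k < t)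

theorem s_code (hs : SSum) (hn : SNet) : SCode := by
  classical
  obtain ⟨hC, I, q, hN⟩ := hn
  have e0 : ∀ n, ∃ e > (0 : ℝ), ∀ x, ¬ IsC (q n) → IsC x → e ≤ |q n - x| := fun n => by
    by_cases h : IsC (q n)
    · exact ⟨1, one_pos, fun _ h' => absurd h h'⟩
    · exact ⟨_, (hC.notMem_iff_infDist_pos ⟨0, isC_zero⟩).1 h, fun x _ hx =>
        Metric.infDist_le_dist_of_mem hx⟩
  choose ell l0 l1 using e0
  obtain ⟨c, c0, c1, c2, c3⟩ := seq_Code fun n => mul_pos (w_pos (I n)) (l0 n)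
  obtain ⟨s1, s2, s3⟩ := hs c c0 c1
  have an : Antitone c := antitone_nat_of_succ_le fun n => by linarith [c0 (n + 1), c1 n]
  let χ : (ℕ → ℝ) → ℕ → Prop := fun a n => ¬ IsC (q n) ∧ q n < a (I n)
  have e1 : ∀ n, ∃ p : ℝ × ℝ, (∃ s t, Fam_Code I q n s t) → Fam_Code I q n p.1 p.2 := fun n => by
    by_cases h : ∃ s t, Fam_Code I q n s t
    · obtain ⟨s, t, h⟩ := h
      exact ⟨(s, t), fun _ => h⟩
    · exact ⟨0, fun h' => absurd h' h⟩
  choose p hp using e1
  have nC : ∀ n s t, Fam_Code I q n s t → ¬ IsC (q n) := fun n s t h h' =>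
    (h.2.2.2.2.1 _ h').elim h.2.2.1.not_ge h.2.2.2.1.not_ge
  have up : ∀ (a : ℕ → ℝ) (i : ℕ) (t : ℝ) (k : ℕ), I k ≠ i → (χ (update a i t) k ↔ χ a k) :=
    fun a i t k h => by simp only [χ, update_of_ne h]
  refine ⟨⟨{n | ∃ s t, Fam_Code I q n s t}, I, fun n => (p n).1, fun n => (p n).2,
    fun n => sm c (χ (update (fun _ => (p n).1) (I n) (p n).2)) - sm c (χ fun _ => (p n).1), c,
    fun a => sm c (χ a), c0, c1, c2, fun a => ⟨(s1 _).1, by linarith [(s1 (χ a)).2]⟩,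
    fun η hη => ?_, fun a ha i t ht => ?_, fun i s t hs ht hst hg => ?_,
    fun n hn => ⟨(hp n hn).1, (hp n hn).2.1, (hp n hn).2.2.1.trans (hp n hn).2.2.2.1⟩,
    fun n hn => ?_, fun n hn a ha => ?_, fun n hn => ?_, fun η hη => ?_⟩⟩
  · obtain ⟨N, h1⟩ := hN η hη
    have key : ∀ a ∈ AA, ∀ b ∈ AA, |sm c (χ a) - sm c (χ b)| < c N / 2 → ∀ k,
        w k * (b k - a k) ≤ η := fun a ha b hb h k => not_lt.1 fun h2 => by
      obtain ⟨n, h3, rfl, h4, h5, h6⟩ := h1 k _ _ (ha k).1.1 (hb k).1.2 h2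
      obtain ⟨m, h7, h8, h9⟩ := first_Code (f := χ a) (g := χ b) (n := n)
        fun e => (e.2 ⟨h4, h6⟩).2.not_gt h5
      linarith [(s2 _ _ m h8).2 h9, an (h7.trans h3.le)]
    refine ⟨c N / 2, half_pos (c0 N), fun a ha b hb h k => ?_⟩
    rcases abs_choice (a k - b k) with e | e <;> rw [e]
    · exact key b hb a ha (by rwa [abs_sub_comm]) k
    · rw [neg_sub]
      exact key a ha b hb h k
  · by_cases h : ∀ k, χ (update a i t) k ↔ χ a k
    · rw [show χ (update a i t) = χ a from funext fun k => propext (h k), sub_self, abs_zero]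
      positivity
    obtain ⟨n, h⟩ := not_forall.1 h
    obtain ⟨m, -, h1, h2⟩ := first_Code h
    obtain rfl : I m = i := by_contra fun e => h2 (up a i t m e)
    simp only [χ, update_self, and_congr_right_iff, Classical.not_imp] at h2
    have h3 := l1 m t h2.1 ht
    have h4 : |q m - t| ≤ |t - a (I m)| := by
      by_cases e : q m < t
      · have : a (I m) ≤ q m := not_lt.1 fun e' => h2.2 (iff_of_true e e')
        rw [abs_of_neg (by linarith), abs_of_pos (by linarith)]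
        linarith
      · have : q m < a (I m) := by_contra fun e' => h2.2 (iff_of_false e e')
        rw [abs_of_nonneg (by linarith), abs_of_neg (by linarith)]
        linarith
    have h5 := mul_le_of_le_one_left (l0 m).le (w_le (I m))
    linarith [(s2 _ _ m h1).1, c3 m, l0 m]
  · have h0 := mul_pos (w_pos i) (sub_pos.2 hst)
    obtain ⟨N, h1⟩ := hN _ (half_pos h0)
    obtain ⟨n, -, h2, -, h3⟩ := h1 i s t hs.1.1 ht.1.2 (half_lt_self h0)
    have e : ∃ n, I n = i ∧ s < q n ∧ q n < t := ⟨n, h2, h3⟩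
    have h4 := Nat.find_spec e
    have h5 : Fam_Code I q (Nat.find e) s t := ⟨hs, ht, h4.2.1, h4.2.2, hg, fun k hk e1 e2 =>
      Nat.find_min e hk ⟨e1.trans h4.1, e2⟩⟩
    obtain ⟨a1, a2, a3, a4, a5, -⟩ := hp _ ⟨s, t, h5⟩
    exact ⟨_, ⟨s, t, h5⟩, h4.1,
      le_antisymm ((hg _ a1).resolve_right (a3.trans h4.2.2).not_ge)
        ((a5 _ hs).resolve_right (h4.2.1.trans a4).not_ge),
      le_antisymm ((a5 _ ht).resolve_left (a3.trans h4.2.2).not_ge)
        ((hg _ a2).resolve_left (h4.2.1.trans a4).not_ge)⟩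
  · have h0 := nC _ _ _ (hp n hn)
    obtain ⟨a1, -, a3, a4, -, a6⟩ := hp n hn
    have := s2 (χ (update (fun _ => (p n).1) (I n) (p n).2)) (χ fun _ => (p n).1) n fun k hk => by
      by_cases e : I k = I n
      · simp only [χ, e, update_self]
        refine and_congr_right fun h => ⟨fun h1 => ?_, fun h1 => h1.trans (a3.trans a4)⟩
        exact lt_of_le_of_ne (not_lt.1 fun h2 => a6 k hk e ⟨h2, h1⟩) fun h2 => h (h2 ▸ a1)
      · exact up _ _ _ k e
    refine ⟨this.2 fun e => (e.1 ⟨h0, ?_⟩).2.not_gt a3, this.1⟩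
    rwa [update_self]
  · refine eq_add_of_sub_eq' (s3 _ _ _ _ fun k => ?_)
    by_cases e : I k = I n
    · exact .inr (by simp only [χ, e, update_self, ha, and_self])
    · exact .inl ⟨up _ _ _ k e, up _ _ _ k e⟩
  · obtain ⟨a1, -, a3, a4, -⟩ := hp n hn
    have := l1 n _ (nC _ _ _ (hp n hn)) a1
    rw [abs_of_pos (sub_pos.2 a3)] at this
    exact (c3 n).trans (mul_le_mul_of_nonneg_left (by linarith) (w_pos _).le)
  · obtain ⟨N, h1⟩ := hN η hη
    refine ⟨N, fun n hn h => not_lt.1 fun h2 => ?_⟩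
    obtain ⟨a1, a2, -, -, -, a6⟩ := hp n hn
    obtain ⟨k, h3, h4, -, h5⟩ := h1 _ _ _ a1.1.1 a2.1.2 h2
    exact a6 k (h3.trans_le h) h4 h5

end Pool.Agent.MP_616ade_gt.Ball

end

section

/-!
The values on the columns and on the wires depend uniformly continuously on the point.
-/

set_option autoImplicit false

namespace Pool.Agent.MP_616ade_gt.Ball

open Set Function MeasureTheory Pool.Agent.MP_616ade_gt
open scoped BoundedContinuousFunction

/-- close to a column -/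
def Bs_UC (D : Dat) (η x : ℝ) (v : ℕ → ℝ) : Prop :=
  ∃ a ∈ AA, |x - D.u a| ≤ 2 * η ∧ ∀ k, |v k - w k * a k| ≤ η

theorem wd_UC (D : Dat) {n : ℕ} (hn : n ∈ D.S) :
    0 ≤ w (D.I n) * (D.h n - D.l n) ∧ w (D.I n) * (D.h n - D.l n) ≤ 1 := by
  obtain ⟨g1, g2, g3⟩ := D.gap n hn
  exact ⟨mul_nonneg (w_pos _).le (by linarith),
    by nlinarith [w_le (D.I n), w_pos (D.I n), g1.1.1, g2.1.2]⟩

theorem wb_UC (D : Dat) {n : ℕ} {a : ℕ → ℝ} {s η : ℝ} (hn : n ∈ D.S) (ha : a ∈ AA)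
    (hl : a (D.I n) = D.l n) (hs : s ∈ Icc (0 : ℝ) 1) (hη : 0 ≤ η)
    (h : min s (1 - s) * (w (D.I n) * (D.h n - D.l n)) ≤ η) :
    Bs_UC D η (D.u a + s * D.lam n) (D.val n a s) := by
  have h1 : |D.lam n| ≤ 3 / 2 * (w (D.I n) * (D.h n - D.l n)) := by
    linarith [(D.lam1 n hn).2, D.cle n hn]
  have h2 := (wd_UC D hn).1
  have h3 : 0 ≤ 1 - s := sub_nonneg.2 hs.2
  rcases le_total s (1 - s) with h4 | h4
  · rw [min_eq_left h4] at h
    refine ⟨a, ha, ?_, fun k => ?_⟩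
    · rw [add_sub_cancel_left, abs_mul, abs_of_nonneg hs.1]
      linarith [mul_le_mul_of_nonneg_left h1 hs.1]
    · rw [Dat.val]
      by_cases e : k = D.I n
      · rw [e, update_self, hl, show w (D.I n) * (D.l n + s * (D.h n - D.l n)) -
          w (D.I n) * D.l n = s * (w (D.I n) * (D.h n - D.l n)) by ring,
          abs_of_nonneg (mul_nonneg hs.1 h2)]
        exact h
      · rw [update_of_ne e, sub_self, abs_zero]
        exact hη
  · rw [min_eq_right h4] at h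
    refine ⟨update a (D.I n) (D.h n), fun k => ?_, ?_, fun k => ?_⟩
    · by_cases e : k = D.I n
      · rw [e, update_self]
        exact (D.gap n hn).2.1
      · rw [update_of_ne e]
        exact ha k
    · rw [D.lam2 n hn a hl, show D.u a + s * D.lam n - (D.u a + D.lam n) =
        -((1 - s) * D.lam n) by ring, abs_neg, abs_mul, abs_of_nonneg h3]
      linarith [mul_le_mul_of_nonneg_left h1 h3]
    · rw [Dat.val]
      by_cases e : k = D.I n
      · rw [e, update_self, update_self, show w (D.I n) * (D.l n + s * (D.h n - D.l n)) -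
          w (D.I n) * D.h n = -((1 - s) * (w (D.I n) * (D.h n - D.l n))) by ring, abs_neg,
          abs_of_nonneg (mul_nonneg h3 h2)]
        exact h
      · rw [update_of_ne e, update_of_ne e, sub_self, abs_zero]
        exact hη

theorem row_UC (D : Dat) {n n' : ℕ} (h : n < n') (a a' : ℕ → ℝ) :
    D.c n ≤ D.c n * (2 + D.u a) - D.c n' * (2 + D.u a') := by
  nlinarith [D.sep h, mul_nonneg (D.pos n).le (D.u01 a).1,
    mul_le_mul_of_nonneg_left (D.u01 a').2 (D.pos n').le]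

theorem s_uc : SUC := by
  intro D e η hη
  obtain ⟨δ1, hδ1, hinv⟩ := D.inv (η / 3) (by positivity)
  obtain ⟨η2, hη2, e1, e2⟩ : ∃ η2 : ℝ, 0 < η2 ∧ η2 ≤ η / 3 ∧ η2 ≤ δ1 / 8 :=
    ⟨min (η / 3) (δ1 / 8), by positivity, min_le_left _ _, min_le_right _ _⟩
  obtain ⟨δ0, hδ0, hfoot⟩ := D.foot hη2
  obtain ⟨N, hN⟩ := D.small η2 hη2
  have hc := D.pos N
  obtain ⟨δ, hδ, d1, d2, d3, d4, d5⟩ : ∃ δ : ℝ, 0 < δ ∧ δ ≤ δ0 ∧ δ ≤ δ1 / 2 ∧ δ ≤ D.c N ∧
      δ ≤ D.c N * δ1 ∧ δ ≤ η * D.c N ^ 2 / 4 :=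
    ⟨min δ0 (min (δ1 / 2) (min (D.c N) (min (D.c N * δ1) (η * D.c N ^ 2 / 4)))), by positivity,
      by simp only [← le_min_iff, le_refl]⟩
  have key : ∀ g ∈ D.G e, ∀ g' ∈ D.G e, dist g.1 g'.1 < δ → ¬ Bs_UC D η2 (g.1 0) g.2 →
      ∀ k, |g.2 k - g'.2 k| ≤ η := by
    rintro _ (⟨a, ha, y, -, rfl⟩ | ⟨n, hn, a, ha, hl, s, hs, rfl⟩) g' hg' hd hb k
    · refine absurd ⟨a, ha, ?_, fun k => ?_⟩ hb
      · change |D.u a - D.u a| ≤ _
        rw [sub_self, abs_zero]
        positivity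
      · rw [sub_self, abs_zero]
        exact hη2.le
    have h1 : ¬ min s (1 - s) * (w (D.I n) * (D.h n - D.l n)) ≤ η2 := fun h =>
      hb (wb_UC D hn ha hl hs hη2.le h)
    have h2 : δ0 < D.c n ^ 2 * min s (1 - s) := not_le.1 fun h => h1 (hfoot n hn s hs h)
    have hW := wd_UC D hn
    have h3 : D.c N ≤ D.c n := by
      refine D.anti (not_lt.1 fun h => h1 ?_)
      exact (mul_le_of_le_one_left hW.1 ((min_le_left _ _).trans hs.2)).trans (hN n hn h.le)
    rcases hg' with ⟨a', ha', y, -, rfl⟩ | ⟨n', hn', a', ha', hl', s', hs', rfl⟩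
    · simp only [Dat.wire, Dat.base, dist_pt, max_lt_iff] at hd
      linarith [(abs_lt.1 hd.2.2).2]
    simp only [Dat.wire, dist_pt, max_lt_iff] at hd
    obtain ⟨hx, hy, -⟩ := hd
    rcases lt_trichotomy n n' with h | rfl | h
    · linarith [row_UC D h a a', (abs_lt.1 hy).2]
    · rw [show D.c n * (2 + D.u a) - D.c n * (2 + D.u a') = D.c n * (D.u a - D.u a') by ring,
        abs_mul, abs_of_pos (D.pos n)] at hy
      have h4 : D.c N * |D.u a - D.u a'| < δ :=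
        (mul_le_mul_of_nonneg_right h3 (abs_nonneg _)).trans_lt hy
      have h5 := hinv a ha a' ha' (lt_of_mul_lt_mul_left (h4.trans_le d4) hc.le) k
      change |D.val n a s k - D.val n a' s' k| ≤ η
      rw [Dat.val, Dat.val, ← mul_sub, abs_mul, abs_of_pos (w_pos k)]
      by_cases ek : k = D.I n
      · have h6 : |s - s'| * |D.lam n| ≤ δ + |D.u a - D.u a'| := by
          rw [← abs_mul, show (s - s') * D.lam n = D.u a + s * D.lam n - (D.u a' + s' * D.lam n) -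
            (D.u a - D.u a') by ring]
          exact (abs_sub _ _).trans (add_le_add_left hx.le _)
        have h7 : |s - s'| * (D.c N / 2) ≤ |s - s'| * |D.lam n| :=
          mul_le_mul_of_nonneg_left (by linarith [(D.lam1 n hn).1]) (abs_nonneg _)
        have h8 : D.c N * (|s - s'| * (D.c N / 2)) ≤ D.c N * (δ + |D.u a - D.u a'|) :=
          mul_le_mul_of_nonneg_left (h7.trans h6) hc.le
        have h9 : D.c N * δ ≤ δ := mul_le_of_le_one_left hδ.le (by linarith [D.c_le N])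
        have h10 : |s - s'| ≤ η :=
          le_of_mul_le_mul_right (a := D.c N ^ 2) (by linarith) (by positivity)
        rw [ek, update_self, update_self, show D.l n + s * (D.h n - D.l n) -
          (D.l n + s' * (D.h n - D.l n)) = (D.h n - D.l n) * (s - s') by ring, abs_mul,
          abs_of_pos (sub_pos.2 (D.gap n hn).2.2), ← mul_assoc]
        exact (mul_le_of_le_one_left (abs_nonneg _) hW.2).trans h10
      · rw [update_of_ne ek, update_of_ne ek]
        linarith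
    · linarith [row_UC D h a' a, (abs_lt.1 hy).1, D.anti h.le]
  refine ⟨δ, hδ, fun g hg g' hg' hd k => ?_⟩
  by_cases hb : Bs_UC D η2 (g.1 0) g.2
  · by_cases hb' : Bs_UC D η2 (g'.1 0) g'.2
    · obtain ⟨a, ha, p1, p2⟩ := hb
      obtain ⟨b, hb, q1, q2⟩ := hb'
      have h1 : |g.1 0 - g'.1 0| < δ := (dist_le_pi_dist g.1 g'.1 0).trans_lt hd
      have h2 : |D.u a - D.u b| < δ1 := by
        rw [abs_lt] at h1 ⊢
        rw [abs_le] at p1 q1
        constructor <;> linarith [h1.1, h1.2, p1.1, p1.2, q1.1, q1.2]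
      have h3 := hinv a ha b hb h2 k
      rw [← abs_of_pos (w_pos k), ← abs_mul, mul_sub, abs_le] at h3
      have h4 := abs_le.1 (p2 k)
      have h5 := abs_le.1 (q2 k)
      rw [abs_le]
      constructor <;> linarith [h3.1, h3.2, h4.1, h4.2, h5.1, h5.2]
    · rw [abs_sub_comm]
      exact key g' hg' g hg (by rwa [dist_comm]) hb' k
  · exact key g hg g' hg' hd hb k

end Pool.Agent.MP_616ade_gt.Ball

end

section

set_option autoImplicit false

namespace Pool.Agent.MP_616ade_gt.Ball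

open Set Function MeasureTheory Pool.Agent.MP_616ade_gt
open scoped BoundedContinuousFunction

theorem min_Geo {s : ℝ} (hs : s ∈ Icc (0 : ℝ) 1) : 0 ≤ min s (1 - s) ∧ min s (1 - s) ≤ 1 / 2 :=
  ⟨le_min hs.1 (by linarith [hs.2]), by linarith [min_le_left s (1 - s), min_le_right s (1 - s)]⟩

theorem lip_Geo (s t : ℝ) : min t (1 - t) - min s (1 - s) ≤ |s - t| := by
  have h1 := le_abs_self (s - t)
  have h2 := neg_abs_le (s - t)
  have h3 := min_le_left t (1 - t)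
  have h4 := min_le_right t (1 - t)
  rcases min_choice s (1 - s) with h | h <;> rw [h] <;> linarith

theorem ht_Geo (D : Dat) (n : ℕ) {s : ℝ} (hs : s ∈ Icc (0 : ℝ) 1) :
    0 ≤ D.c n ^ 2 * min s (1 - s) ∧ D.c n ^ 2 * min s (1 - s) ≤ D.c n / 8 := by
  obtain ⟨h1, h2⟩ := min_Geo hs
  have h3 := D.pos n
  have h4 := D.c_le n
  refine ⟨by positivity, ?_⟩
  nlinarith [mul_le_mul_of_nonneg_left h2 (sq_nonneg (D.c n))]

theorem x_Geo (D : Dat) {n : ℕ} (hn : n ∈ D.S) {a : ℕ → ℝ} (ha : a (D.I n) = D.l n) {s : ℝ}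
    (hs : s ∈ Icc (0 : ℝ) 1) : D.u a + s * D.lam n ∈ Icc (0 : ℝ) 1 := by
  have h1 := D.u01 a
  have h2 := D.u01 (update a (D.I n) (D.h n))
  rw [D.lam2 n hn a ha] at h2
  constructor <;> nlinarith [h1.1, h1.2, h2.1, h2.2, hs.1, hs.2]

theorem y_Geo (D : Dat) (n : ℕ) (a : ℕ → ℝ) :
    2 * D.c n ≤ D.c n * (2 + D.u a) ∧ D.c n * (2 + D.u a) ≤ 3 * D.c n := by
  have h1 := D.u01 a
  have h3 := D.pos n
  constructor <;> nlinarith [h1.1, h1.2]

theorem same_Geo {c lam u u' s0 s1 m0 m1 s d : ℝ} (hc : 0 < c) (hc' : c ≤ 1 / 4)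
    (hl : c / 2 ≤ |lam|) (hm : m1 - m0 ≤ |s0 - s1|)
    (hx : |u + s0 * lam - (u' + s1 * lam)| ≤ d) (hy : |c * (2 + u) - c * (2 + u')| ≤ d)
    (hz : |1 / 2 + c ^ 2 * m0 + s * 1 - (1 / 2 + c ^ 2 * m1)| ≤ d) : s / 4 ≤ d := by
  have h0 : 0 ≤ d := (abs_nonneg _).trans hx
  rw [show c * (2 + u) - c * (2 + u') = c * (u - u') by ring, abs_mul, abs_of_pos hc] at hy
  have h1 : |s0 - s1| * |lam| ≤ d + |u - u'| := by
    rw [← abs_mul, show (s0 - s1) * lam = u + s0 * lam - (u' + s1 * lam) - (u - u') by ring]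
    exact (abs_sub _ _).trans (add_le_add hx le_rfl)
  have h2 := mul_le_mul_of_nonneg_left hl (abs_nonneg (s0 - s1))
  have h3 : c * (|s0 - s1| * (c / 2)) ≤ c * (d + |u - u'|) :=
    mul_le_mul_of_nonneg_left (h2.trans h1) hc.le
  have h4 := mul_le_mul_of_nonneg_left hm (sq_nonneg c)
  have h5 := mul_le_mul_of_nonneg_right hc' h0
  nlinarith [(abs_le.1 hz).2]

theorem s_geo : SGeo := by
  intro D e
  have hh : (1 / 2 : ℝ) ∈ Icc (0 : ℝ) 1 := ⟨by norm_num, by norm_num⟩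
  have hy : ∀ n a, D.c n * (2 + D.u a) ∈ Icc (0 : ℝ) 1 := fun n a =>
    ⟨by linarith [(y_Geo D n a).1, D.pos n], by linarith [(y_Geo D n a).2, D.c_le n]⟩
  have hw : ∀ k x, x ∈ Icc (0 : ℝ) 1 → w k * x ∈ Icc (0 : ℝ) 1 := fun k x hx =>
    ⟨mul_nonneg (w_pos k).le hx.1, mul_le_one₀ (w_le k) hx.1 hx.2⟩
  refine ⟨⟨_, Or.inl ⟨fun _ => 0, fun _ => isC_zero, 0, ⟨le_rfl, zero_le_one⟩, rfl⟩⟩, ?_, ?_, ?_, ?_⟩
  · rintro g (⟨a, ha, y, -, rfl⟩ | ⟨n, hn, a, ha, h1, s, hs, rfl⟩) k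
    · exact hw k _ (ha k).1
    · refine hw k _ ?_
      obtain ⟨g1, g2, g3⟩ := D.gap n hn
      rcases eq_or_ne k (D.I n) with rfl | h
      · rw [update_self]
        constructor <;> nlinarith [g1.1.1, g2.1.2, hs.1, hs.2]
      · rw [update_of_ne h]
        exact (ha k).1
  · rintro _ ⟨g, ⟨a, ha, y, h1, rfl⟩ | ⟨n, hn, a, ha, h1, s, hs, rfl⟩, rfl⟩
    · exact pt_mem (D.u01 a) h1 hh
    · obtain ⟨h2, h3⟩ := ht_Geo D n hs
      exact pt_mem (x_Geo D hn h1 hs) (hy n a) ⟨by linarith, by linarith [D.c_le n]⟩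
  · intro a ha y h1 s hs
    rw [Dat.base, pt_add]
    refine ⟨pt_mem (D.u01 a) h1 ⟨by linarith [hs.2], by linarith [hs.1]⟩, ?_⟩
    rintro _ ⟨g, ⟨a', -, y', -, rfl⟩ | ⟨n, -, a', -, -, t, ht, rfl⟩, rfl⟩
    · rw [Dat.base, dist_pt]
      refine le_max_of_le_right (le_max_of_le_right (le_abs.2 (Or.inr ?_)))
      linarith [hs.1]
    · rw [Dat.wire, dist_pt]
      refine le_max_of_le_right (le_max_of_le_right (le_abs.2 (Or.inr ?_)))
      linarith [hs.1, (ht_Geo D n ht).1]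
  · intro n hn a ha h1 s0 h0 s hs
    obtain ⟨h2, h3⟩ := ht_Geo D n h0
    rw [Dat.wire, pt_add]
    refine ⟨pt_mem (x_Geo D hn h1 h0) (hy n a)
      ⟨by linarith [hs.1], by linarith [hs.2, D.c_le n]⟩, ?_⟩
    rintro _ ⟨g, ⟨a', -, y', -, rfl⟩ | ⟨n', -, a', -, -, t, ht, rfl⟩, rfl⟩
    · rw [Dat.base, dist_pt]
      refine le_max_of_le_right (le_max_of_le_right (le_abs.2 (Or.inl ?_)))
      linarith [hs.1]
    · rw [Dat.wire, dist_pt]
      rcases eq_or_ne n' n with rfl | h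
      · exact same_Geo (D.pos n') (D.c_le n') (D.lam1 n' hn).1 (lip_Geo s0 t) (le_max_left _ _)
          (le_max_of_le_right (le_max_left _ _)) (le_max_of_le_right (le_max_right _ _))
      · refine le_max_of_le_right ?_
        have h4 : D.c n' ≤ |D.c n * (2 + D.u a) - D.c n' * (2 + D.u a')| := by
          obtain ⟨a1, a2⟩ := y_Geo D n a
          obtain ⟨a3, a4⟩ := y_Geo D n' a'
          have := D.pos n'
          rcases h.lt_or_gt with h | h
          · exact le_abs.2 (Or.inr (by linarith [D.sep h]))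
          · exact le_abs.2 (Or.inl (by linarith [D.sep h]))
        have h5 := (le_abs_self _).trans (le_max_right
          |D.c n * (2 + D.u a) - D.c n' * (2 + D.u a')|
          |1 / 2 + D.c n ^ 2 * min s0 (1 - s0) + s * 1 - (1 / 2 + D.c n' ^ 2 * min t (1 - t))|)
        have h6 := h4.trans (le_max_left _
          |1 / 2 + D.c n ^ 2 * min s0 (1 - s0) + s * 1 - (1 / 2 + D.c n' ^ 2 * min t (1 - t))|)
        linarith [(ht_Geo D n' ht).2, D.pos n']

end Pool.Agent.MP_616ade_gt.Ball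

end

section

set_option autoImplicit false

namespace Pool.Agent.MP_616ade_gt.Ball

open Set Function MeasureTheory Pool.Agent.MP_616ade_gt
open scoped BoundedContinuousFunction

theorem incr_Ext {ω : ℝ → ℝ} (hω : ConcaveOn ℝ (Ici 0) ω) {t s h : ℝ} (ht : 0 ≤ t) (hs : t ≤ s)
    (hh : 0 ≤ h) : ω (s + h) - ω s ≤ ω (t + h) - ω t := by
  rcases hh.eq_or_lt with rfl | hh
  · simp
  have hd : 0 < s + h - t := by linarith
  have ha : 0 ≤ h / (s + h - t) := by positivity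
  have hb : 0 ≤ (s - t) / (s + h - t) := div_nonneg (by linarith) hd.le
  have hab : h / (s + h - t) + (s - t) / (s + h - t) = 1 := by field_simp; ring
  have hm : s + h ∈ Ici (0 : ℝ) := by show 0 ≤ s + h; linarith
  have h1 := hω.2 (show t ∈ Ici (0 : ℝ) from ht) hm ha hb hab
  have h2 := hω.2 (show t ∈ Ici (0 : ℝ) from ht) hm hb ha (by linarith)
  simp only [smul_eq_mul] at h1 h2
  rw [show h / (s + h - t) * t + (s - t) / (s + h - t) * (s + h) = s by field_simp; ring] at h1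
  rw [show (s - t) / (s + h - t) * t + h / (s + h - t) * (s + h) = t + h by field_simp; ring] at h2
  have e1 : (h / (s + h - t) + (s - t) / (s + h - t)) * ω t = ω t := by rw [hab, one_mul]
  have e2 : (h / (s + h - t) + (s - t) / (s + h - t)) * ω (s + h) = ω (s + h) := by
    rw [hab, one_mul]
  linarith

theorem mod_Ext {E : Type} [PseudoMetricSpace E] (G : Set (E × (ℕ → ℝ)))
    (h1 : ∀ g ∈ G, ∀ k, g.2 k ∈ Icc (0 : ℝ) 1) (h2 : UC G) :
    ∃ ω : ℝ → ℝ, Md ω ∧ (∀ s, 0 ≤ ω s ∧ ω s ≤ 1) ∧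
      ∀ g ∈ G, ∀ g' ∈ G, ∀ k, |g.2 k - g'.2 k| ≤ ω (dist g.1 g'.1) := by
  let A := {p : ℝ × ℝ // 0 ≤ p.1 ∧ 0 ≤ p.2 ∧
    ∀ g ∈ G, ∀ g' ∈ G, ∀ k, |g.2 k - g'.2 k| ≤ p.1 + p.2 * dist g.1 g'.1}
  have hone : ∀ g ∈ G, ∀ g' ∈ G, ∀ k, |g.2 k - g'.2 k| ≤ 1 := fun g hg g' hg' k =>
    abs_le.2 ⟨by linarith [(h1 g hg k).1, (h1 g' hg' k).2],
      by linarith [(h1 g hg k).2, (h1 g' hg' k).1]⟩
  let p0 : A := ⟨(1, 0), zero_le_one, le_rfl, fun g hg g' hg' k => by
    simpa using hone g hg g' hg' k⟩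
  have : Nonempty A := ⟨p0⟩
  have hA : ∀ η > 0, ∃ p : A, p.1.1 = η := fun η hη => by
    obtain ⟨δ, hδ, h⟩ := h2 η hη
    refine ⟨⟨(η, 1 / δ), hη.le, by positivity, fun g hg g' hg' k => ?_⟩, rfl⟩
    rcases lt_or_ge (dist g.1 g'.1) δ with h3 | h3
    · exact (h g hg g' hg' h3 k).trans (le_add_of_nonneg_right (by positivity))
    · refine (hone g hg g' hg' k).trans (le_add_of_nonneg_of_le hη.le ?_)
      show 1 ≤ 1 / δ * _
      rw [one_div_mul_eq_div]
      exact (one_le_div hδ).2 h3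
  let ω : ℝ → ℝ := fun s => ⨅ p : A, p.1.1 + p.1.2 * max s 0
  have hn : ∀ (s : ℝ) (p : A), 0 ≤ p.1.1 + p.1.2 * max s 0 := fun s p =>
    add_nonneg p.2.1 (mul_nonneg p.2.2.1 (le_max_right _ _))
  have hle : ∀ (s : ℝ) (p : A), ω s ≤ p.1.1 + p.1.2 * max s 0 := fun s p =>
    ciInf_le ⟨0, by rintro _ ⟨q, rfl⟩; exact hn s q⟩ p
  have h0 : ∀ s, 0 ≤ ω s := fun s => le_ciInf (hn s)
  refine ⟨ω, ⟨le_antisymm (le_of_forall_pos_le_add fun η hη => ?_) (h0 0), fun x _ y _ h => ?_,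
    ⟨convex_Ici 0, fun x hx y hy a b ha hb hab => ?_⟩, fun η hη => ?_⟩,
    fun s => ⟨h0 s, by simpa [p0] using hle s p0⟩, fun g hg g' hg' k => le_ciInf fun p => ?_⟩
  · obtain ⟨p, hp⟩ := hA η hη
    simpa [hp] using hle 0 p
  · exact le_ciInf fun p => (hle x p).trans
      (add_le_add le_rfl (mul_le_mul_of_nonneg_left (max_le_max h le_rfl) p.2.2.1))
  · refine le_ciInf fun p => ?_
    have a1 := mul_le_mul_of_nonneg_left (hle x p) ha
    have a2 := mul_le_mul_of_nonneg_left (hle y p) hb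
    simp only [smul_eq_mul]
    rw [max_eq_left hx] at a1
    rw [max_eq_left hy] at a2
    rw [max_eq_left (add_nonneg (mul_nonneg ha hx) (mul_nonneg hb hy))]
    have e : (a + b) * p.1.1 = p.1.1 := by rw [hab, one_mul]
    linarith
  · obtain ⟨p, hp⟩ := hA (η / 2) (half_pos hη)
    have hL := p.2.2.1
    have h3 : 0 < η / 2 / (p.1.2 + 1) := by positivity
    refine ⟨_, h3, (hle _ p).trans ?_⟩
    rw [max_eq_left h3.le, hp]
    have : p.1.2 * (η / 2 / (p.1.2 + 1)) ≤ η / 2 := by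
      rw [← mul_div_assoc, div_le_iff₀ (by positivity)]
      nlinarith
    linarith
  · rw [max_eq_left dist_nonneg]
    exact p.2.2.2 g hg g' hg' k

theorem s_ext : SExt := by
  intro E _ G hG h1 h2
  obtain ⟨ω, hω, hb, hd⟩ := mod_Ext G h1 h2
  have := hG.to_subtype
  let f : E → ℕ → ℝ := fun x k => ⨅ g : G, g.1.2 k + ω (dist x g.1.1)
  have hn : ∀ x k (g : G), 0 ≤ g.1.2 k + ω (dist x g.1.1) := fun x k g =>
    add_nonneg (h1 _ g.2 k).1 (hb _).1
  have hle : ∀ x k (g : G), f x k ≤ g.1.2 k + ω (dist x g.1.1) := fun x k g =>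
    ciInf_le ⟨0, by rintro _ ⟨q, rfl⟩; exact hn x k q⟩ g
  have hf : ∀ x k, 0 ≤ f x k ∧ f x k ≤ 2 := fun x k => ⟨le_ciInf (hn x k), by
    obtain ⟨g, hg⟩ := hG
    linarith [hle x k ⟨g, hg⟩, (h1 g hg k).2, (hb (dist x g.1)).2]⟩
  have key : ∀ x x' t k, 0 ≤ t → (∀ p ∈ Prod.fst '' G, t ≤ dist x' p) →
      f x k - (ω (t + dist x x') - ω t) ≤ f x' k := fun x x' t k ht h => le_ciInf fun g => by
    have a1 := incr_Ext hω.conc ht (h _ ⟨g.1, g.2, rfl⟩) (dist_nonneg (x := x) (y := x'))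
    have a2 : ω (dist x g.1.1) ≤ ω (dist x' g.1.1 + dist x x') :=
      hω.mono dist_nonneg (add_nonneg dist_nonneg dist_nonneg)
        (by rw [add_comm]; exact dist_triangle _ _ _)
    linarith [hle x k g]
  refine ⟨ω, fun x => BoundedContinuousFunction.mkOfDiscrete (f x) 2 fun k l => ?_, hω,
    fun x x' t ht h h' => ?_, fun g hg k => le_antisymm ?_ (le_ciInf fun g' => ?_)⟩
  · rw [Real.dist_eq]
    exact abs_le.2 ⟨by linarith [(hf x k).1, (hf x l).2], by linarith [(hf x k).2, (hf x l).1]⟩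
  · refine (BoundedContinuousFunction.dist_le (sub_nonneg.2 (hω.mono ht
      (add_nonneg ht dist_nonneg) (le_add_of_nonneg_right dist_nonneg)))).2 fun k => ?_
    have a1 := key x x' t k ht h'
    have a2 := key x' x t k ht h
    rw [dist_comm x' x] at a2
    show |f x k - f x' k| ≤ _
    exact abs_le.2 ⟨by linarith, by linarith⟩
  · have := hle g.1 k ⟨g, hg⟩
    rwa [dist_self, hω.zero, add_zero] at this
  · linarith [(abs_le.1 (hd g hg g'.1 g'.2 k)).2]

end Pool.Agent.MP_616ade_gt.Ball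

end

section

/-!
Costs of two kinds of segments in the graph.
-/

set_option autoImplicit false

namespace Pool.Agent.MP_616ade_gt.Ball

open Set Function MeasureTheory Pool.Agent.MP_616ade_gt
open scoped BoundedContinuousFunction

/-- A uniformly continuous path whose variation is controlled by `V`. -/
theorem of_var_Esc {K : Type} [MetricSpace K] (f : ℝ → K) (V : ℝ → ℝ) (T : ℝ) (hT : 0 ≤ T)
    (hV : ∀ s s', 0 ≤ s → s ≤ s' → s' ≤ T → dist (f s) (f s') ≤ V s' - V s)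
    (hc : ∀ ε > 0, ∃ δ > 0, ∀ s s', 0 ≤ s → s ≤ s' → s' ≤ T → s' - s ≤ δ →
      dist (f s) (f s') ≤ ε) : CLe (f 0) (f T) (V T - V 0) := by
  intro ε hε
  obtain ⟨δ, hδ, hδ'⟩ := hc ε hε
  obtain ⟨n, hn⟩ := exists_nat_gt (T / δ)
  have hn0 : (0 : ℝ) < n := lt_of_le_of_lt (by positivity) hn
  have hstep : T / n ≤ δ := by
    rw [div_le_iff₀ hn0]
    rw [div_lt_iff₀ hδ] at hn
    linarith
  have hq : 0 ≤ T / n := by positivity
  have key : ∀ k : ℕ, k ≤ n →
      ∃ ℓ ≤ V (k * (T / n)) - V 0, Chain ε (f 0) (f (k * (T / n))) ℓ := by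
    intro k
    induction k with
    | zero => intro _; exact ⟨0, by simp, by simpa using Chain.refl⟩
    | succ k ih =>
      intro hk
      obtain ⟨ℓ, h1, h2⟩ := ih (by omega)
      have hk' : ((k + 1 : ℕ) : ℝ) ≤ n := by exact_mod_cast hk
      have e1 : ((k + 1 : ℕ) : ℝ) * (T / n) = k * (T / n) + T / n := by push_cast; ring
      have a0 : (0 : ℝ) ≤ k * (T / n) := by positivity
      have a1 : (k : ℝ) * (T / n) ≤ ((k + 1 : ℕ) : ℝ) * (T / n) := by linarith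
      have a2 : ((k + 1 : ℕ) : ℝ) * (T / n) ≤ T := by
        have := mul_le_mul_of_nonneg_right hk' hq
        rwa [mul_div_cancel₀ _ hn0.ne'] at this
      have b1 := hV _ _ a0 a1 a2
      have b2 := hδ' _ _ a0 a1 a2 (by linarith)
      exact ⟨_, by linarith, h2.step b2⟩
  obtain ⟨ℓ, h1, h2⟩ := key n le_rfl
  rw [mul_div_cancel₀ _ hn0.ne'] at h1 h2
  exact ⟨ℓ, by linarith, h2⟩

theorem dist_line_Esc {d : ℕ} (z v : Fin d → ℝ) (hv : ‖v‖ ≤ 1) {s s' : ℝ} (h : s ≤ s') :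
    dist (z + s • v) (z + s' • v) ≤ s' - s := by
  rw [dist_add_left, dist_eq_norm, ← sub_smul, norm_smul, Real.norm_eq_abs, abs_sub_comm,
    abs_of_nonneg (by linarith)]
  nlinarith [norm_nonneg v]

theorem s_esc : SEsc := by
  intro d Z ω F hω hK z v T κ hv hT hκ hκ1 hz
  have main := of_var_Esc (fun s => P F (z + s • v)) (fun s => s + ω (κ * s) / κ) T hT ?_ ?_
  · beta_reduce at main
    rw [zero_smul, add_zero, mul_zero, hω.zero, zero_div, add_zero, sub_zero] at main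
    exact main
  · intro s s' h0 h1 h2
    obtain ⟨c1, c2⟩ := hz s ⟨h0, h1.trans h2⟩
    obtain ⟨c3, c4⟩ := hz s' ⟨h0.trans h1, h2⟩
    rw [dist_P F c1 c3]
    have hd := dist_line_Esc z v hv h1
    have hd0 : 0 ≤ dist (z + s • v) (z + s' • v) := dist_nonneg
    have t0 : 0 ≤ κ * s := by positivity
    have t1 : κ * s ≤ κ * s' := mul_le_mul_of_nonneg_left h1 hκ.le
    have k1 := hK _ _ (κ * s) t0 c2 fun p hp => t1.trans (c4 p hp)
    have k2 : ω (κ * s + dist (z + s • v) (z + s' • v)) ≤ ω (κ * s + (s' - s)) :=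
      hω.mono (mem_Ici.2 (by linarith)) (mem_Ici.2 (by linarith)) (by linarith)
    have k3 := hω.conc.2 (mem_Ici.2 t0) (mem_Ici.2 (by linarith : 0 ≤ κ * s + (s' - s)))
      (by linarith : 0 ≤ 1 - κ) hκ.le (by ring)
    simp only [smul_eq_mul] at k3
    rw [show (1 - κ) * (κ * s) + κ * (κ * s + (s' - s)) = κ * s' by ring] at k3
    have k4 : ω (κ * s) ≤ ω (κ * s') := hω.mono (mem_Ici.2 t0) (mem_Ici.2 (by linarith)) t1
    have k5 : ω (κ * s + (s' - s)) - ω (κ * s) ≤ (ω (κ * s') - ω (κ * s)) / κ := by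
      rw [le_div_iff₀ hκ]
      linarith
    have k6 : 0 ≤ (ω (κ * s') - ω (κ * s)) / κ := div_nonneg (by linarith) hκ.le
    rw [sub_div] at k5 k6
    exact max_le (by linarith) (by linarith)
  · intro ε hε
    obtain ⟨h, hh, hh'⟩ := hω.small ε hε
    refine ⟨min h ε, lt_min hh hε, fun s s' h0 h1 h2 h3 => ?_⟩
    obtain ⟨c1, -⟩ := hz s ⟨h0, h1.trans h2⟩
    obtain ⟨c3, -⟩ := hz s' ⟨h0.trans h1, h2⟩
    rw [dist_P F c1 c3]
    have hd := dist_line_Esc z v hv h1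
    have hd0 : 0 ≤ dist (z + s • v) (z + s' • v) := dist_nonneg
    have k1 := hK (z + s • v) (z + s' • v) 0 le_rfl (fun p _ => dist_nonneg)
      fun p _ => dist_nonneg
    rw [zero_add, hω.zero, sub_zero] at k1
    have m1 := min_le_left h ε
    have m2 := min_le_right h ε
    have k2 : ω (dist (z + s • v) (z + s' • v)) ≤ ω h :=
      hω.mono (mem_Ici.2 hd0) (mem_Ici.2 hh.le) (by linarith)
    exact max_le (by linarith) (by linarith)

theorem s_acr : SAcr := by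
  intro d Z ω F hω hK x hx y hy t ht hxy hZ
  have w0 : 0 ≤ ω t := by
    have := hω.mono (mem_Ici.2 le_rfl) (mem_Ici.2 ht.le) ht.le
    rwa [hω.zero] at this
  have main := CLe.of_lipschitz (fun s : ℝ => P F (AffineMap.lineMap x y s)) (t + ω t)
    (by linarith) ?_
  · beta_reduce at main
    rwa [AffineMap.lineMap_apply_zero, AffineMap.lineMap_apply_one] at main
  · have hm : ∀ s ∈ Icc (0 : ℝ) 1, AffineMap.lineMap x y s ∈ Icc (0 : Fin d → ℝ) 1 :=
      fun s hs => (convex_Icc (0 : Fin d → ℝ) 1).lineMap_mem hx hy hs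
    have hfar : ∀ s ∈ Icc (0 : ℝ) 1, ∀ p ∈ Z, t ≤ dist (AffineMap.lineMap x y s) p := by
      intro s hs p hp
      have e1 : dist x (AffineMap.lineMap x y s) ≤ t := by
        rw [dist_left_lineMap, Real.norm_eq_abs, abs_of_nonneg hs.1]
        nlinarith [hs.1, hs.2, dist_nonneg (x := x) (y := y)]
      linarith [hZ p hp, dist_triangle x (AffineMap.lineMap x y s) p]
    intro s hs s' hs'
    rw [dist_P F (hm s hs) (hm s' hs')]
    have k1 := hK _ _ t ht.le (hfar s hs) (hfar s' hs')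
    have a0 : 0 ≤ |s - s'| := abs_nonneg _
    have hd : dist (AffineMap.lineMap x y s) (AffineMap.lineMap x y s') ≤ t * |s - s'| := by
      rw [dist_lineMap_lineMap, Real.dist_eq, mul_comm]
      exact mul_le_mul_of_nonneg_right hxy a0
    have hd0 : 0 ≤ dist (AffineMap.lineMap x y s) (AffineMap.lineMap x y s') := dist_nonneg
    have ta : 0 ≤ t * |s - s'| := by positivity
    have k2 : ω (t + dist (AffineMap.lineMap x y s) (AffineMap.lineMap x y s')) ≤
        ω (t + t * |s - s'|) :=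
      hω.mono (mem_Ici.2 (by linarith)) (mem_Ici.2 (by linarith)) (by linarith)
    have hp : 0 < 1 + |s - s'| := by linarith
    have k3 := hω.conc.2 (mem_Ici.2 (by linarith : 0 ≤ t + t * |s - s'|))
      (mem_Ici.2 (le_refl (0 : ℝ))) (by positivity : 0 ≤ 1 / (1 + |s - s'|))
      (by positivity : 0 ≤ |s - s'| / (1 + |s - s'|)) (by field_simp)
    simp only [smul_eq_mul] at k3
    rw [hω.zero, mul_zero, add_zero, add_zero,
      show 1 / (1 + |s - s'|) * (t + t * |s - s'|) = t by field_simp, one_div,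
      inv_mul_le_iff₀ hp] at k3
    have tb : 0 ≤ ω t * |s - s'| := by positivity
    exact max_le (by nlinarith) (by nlinarith)

end Pool.Agent.MP_616ade_gt.Ball

end

section

set_option autoImplicit false

namespace Pool.Agent.MP_616ade_gt.Ball

open Set Function MeasureTheory Pool.Agent.MP_616ade_gt
open scoped BoundedContinuousFunction

theorem sm_Up {ω : ℝ → ℝ} (hω : Md ω) {η b : ℝ} (hη : 0 < η) (hb : 0 < b) :
    ∃ T, 0 < T ∧ T ≤ b ∧ T ≤ η ∧ ∀ s, 0 ≤ s → s ≤ T → ω s ≤ η := by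
  obtain ⟨h, h0, h1⟩ := hω.small η hη
  refine ⟨min h (min b η), by positivity, (min_le_right _ _).trans (min_le_left _ _),
    (min_le_right _ _).trans (min_le_right _ _), fun s hs hT => ?_⟩
  exact (hω.mono hs h0.le (hT.trans (min_le_left _ _))).trans h1

theorem s_up (he : SEsc) (ha : SAcr) : SUp := by
  intro d Z ω F hω hK v hv η hη
  obtain ⟨T, hT, hT1, hT2, hT3⟩ := sm_Up hω (η := η / 12) (b := 1 / 4) (by positivity)
    (by norm_num)
  have key : ∀ z, Esc Z v z → CLe (P F z) (P F (z + T • v)) (T + ω (1 / 4 * T) / (1 / 4)) :=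
    fun z hz => he d Z ω F hω hK z v T (1 / 4) hv hT.le (by norm_num) (by norm_num)
      fun s hs => ⟨(hz s ⟨hs.1, hs.2.trans hT1⟩).1, fun p hp => by
        have := (hz s ⟨hs.1, hs.2.trans hT1⟩).2 p hp
        linarith⟩
  refine ⟨T / 8, by positivity, fun z hz z' hz' hd => ?_⟩
  have h3 := ha d Z ω F hω hK (z + T • v) (hz T ⟨hT.le, hT1⟩).1 (z' + T • v)
    (hz' T ⟨hT.le, hT1⟩).1 (T / 8) (by positivity) (by rw [dist_add_right]; exact hd.le)
    fun p hp => by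
      have := (hz T ⟨hT.le, hT1⟩).2 p hp
      linarith
  refine (((key z hz).trans h3).trans (key z' hz').symm).mono ?_
  have e1 := hT3 (1 / 4 * T) (by positivity) (by linarith)
  have e2 := hT3 (T / 8) (by positivity) (by linarith)
  have e3 : ω (1 / 4 * T) / (1 / 4) = 4 * ω (1 / 4 * T) := by ring
  rw [e3]
  linarith

theorem clo_Up {d : ℕ} {Z : Set (Fin d → ℝ)} {ω : ℝ → ℝ} {F : (Fin d → ℝ) → ℕ →ᵇ ℝ}
    (hω : Md ω) (hK : KP Z ω F) (hZ : Z ⊆ Icc (0 : Fin d → ℝ) 1) (hN : Near F Z) :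
    Near F (closure Z) := by
  intro η hη
  obtain ⟨δ, hδ, h⟩ := hN η hη
  have hc : closure Z ⊆ Icc (0 : Fin d → ℝ) 1 := closure_minimal hZ isClosed_Icc
  refine ⟨δ / 3, by positivity, fun x hx y hy hd => CLe.of_approx' fun ε hε => ?_⟩
  obtain ⟨T, hT, hT1, hT2, hT3⟩ := sm_Up hω (η := ε) (b := δ / 3) hε (by positivity)
  have key : ∀ a ∈ closure Z, ∃ a' ∈ Z, dist a a' < T ∧ dist (P F a) (P F a') ≤ ε := by
    intro a ha
    obtain ⟨a', h1, h2⟩ := Metric.mem_closure_iff.1 ha T hT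
    refine ⟨a', h1, h2, ?_⟩
    rw [dist_P F (hc ha) (hZ h1)]
    refine max_le (h2.le.trans hT2) ?_
    have h3 := hK a a' 0 le_rfl (fun _ _ => dist_nonneg) (fun _ _ => dist_nonneg)
    rw [zero_add, hω.zero, sub_zero] at h3
    exact h3.trans (hT3 _ dist_nonneg h2.le)
  obtain ⟨x', hx1, hx2, hx3⟩ := key x hx
  obtain ⟨y', hy1, hy2, hy3⟩ := key y hy
  refine ⟨P F x', P F y', hx3, hy3, (h x' hx1 y' hy1 ?_).mono (by linarith)⟩
  have := dist_triangle4 x' x y y'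
  rw [dist_comm x' x] at this
  linarith

theorem drop_Up (he : SEsc) {d : ℕ} {Z : Set (Fin d → ℝ)} {ω : ℝ → ℝ}
    {F : (Fin d → ℝ) → ℕ →ᵇ ℝ} (hω : Md ω) (hK : KP Z ω F) (hne : Z.Nonempty)
    (hZ : Z ⊆ Icc (0 : Fin d → ℝ) 1) {x : Fin d → ℝ} (hx : x ∈ Icc (0 : Fin d → ℝ) 1) :
    ∃ z ∈ closure Z, dist x z = Metric.infDist x Z ∧
      CLe (P F z) (P F x) (dist x z + ω (dist x z)) := by
  obtain ⟨z, hz, e⟩ := isClosed_closure.exists_infDist_eq_dist hne.closure x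
  rw [Metric.infDist_closure] at e
  refine ⟨z, hz, e.symm, ?_⟩
  have hz' : z ∈ Icc (0 : Fin d → ℝ) 1 := closure_minimal hZ isClosed_Icc hz
  rcases (dist_nonneg (x := x) (y := z)).eq_or_lt with h0 | h0
  · rw [← h0, hω.zero, add_zero, dist_eq_zero.1 h0.symm]
    exact CLe.refl _
  have hr : ‖x - z‖ = dist x z := (dist_eq_norm x z).symm
  generalize dist x z = r at e h0 hr
  have h1 := he d Z ω F hω hK z (r⁻¹ • (x - z)) r 1
    (by rw [norm_smul, hr, Real.norm_of_nonneg (by positivity), inv_mul_cancel₀ h0.ne'])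
    h0.le one_pos le_rfl fun s hs => by
      have hs1 : s * r⁻¹ ≤ 1 := by rw [← div_eq_mul_inv, div_le_one h0]; exact hs.2
      have hs0 : 0 ≤ s * r⁻¹ := mul_nonneg hs.1 (by positivity)
      rw [smul_smul]
      refine ⟨(convex_Icc _ _).add_smul_sub_mem hz' hx ⟨hs0, hs1⟩, fun p hp => ?_⟩
      have h2 : dist x (z + (s * r⁻¹) • (x - z)) = r - s := by
        rw [dist_eq_norm, show x - (z + (s * r⁻¹) • (x - z)) = (1 - s * r⁻¹) • (x - z) by module,
          norm_smul, hr, Real.norm_of_nonneg (by linarith), sub_mul, one_mul, mul_assoc,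
          inv_mul_cancel₀ h0.ne', mul_one]
      have h3 : r ≤ dist x p := e ▸ Metric.infDist_le_dist_of_mem hp
      have h4 := dist_triangle x (z + (s * r⁻¹) • (x - z)) p
      linarith
  rwa [smul_smul, mul_inv_cancel₀ h0.ne', one_smul, add_sub_cancel, one_mul, div_one] at h1

theorem s_all (he : SEsc) (ha : SAcr) : SAll := by
  intro d Z ω F hω hK hne hZ hN η hη
  obtain ⟨δ, hδ, h⟩ := clo_Up hω hK hZ hN (η / 3) (by positivity)
  obtain ⟨T, hT, hT1, hT2, hT3⟩ := sm_Up hω (η := η / 6) (b := δ / 2) (by positivity)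
    (by positivity)
  refine ⟨T / 4, by positivity, fun x hx y hy hd => ?_⟩
  rcases le_or_gt (T / 2) (Metric.infDist x Z) with h1 | h1
  · refine (ha d Z ω F hω hK x hx y hy (T / 4) (by positivity) hd.le fun p hp => ?_).mono ?_
    · have := Metric.infDist_le_dist_of_mem (x := x) hp
      linarith
    · have := hT3 (T / 4) (by positivity) (by linarith)
      linarith
  obtain ⟨z, hz, e1, c1⟩ := drop_Up he hω hK hne hZ hx
  obtain ⟨z', hz', e2, c2⟩ := drop_Up he hω hK hne hZ hy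
  have h2 := Metric.infDist_le_infDist_add_dist (x := y) (y := x) (s := Z)
  rw [dist_comm y x] at h2
  have h3 := dist_triangle4 z x y z'
  rw [dist_comm z x] at h3
  refine ((c1.symm.trans (h z hz z' hz' (by linarith))).trans c2).mono ?_
  have h4 := hT3 (dist x z) dist_nonneg (by linarith)
  have h5 := hT3 (dist y z') dist_nonneg (by linarith)
  linarith

end Pool.Agent.MP_616ade_gt.Ball

end

section

set_option autoImplicit false

namespace Pool.Agent.MP_616ade_gt.Ball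

open Set Function MeasureTheory Pool.Agent.MP_616ade_gt
open scoped BoundedContinuousFunction

theorem cont_Sp {E : Type} [PseudoMetricSpace E] {Z : Set E} {ω : ℝ → ℝ} {F : E → ℕ →ᵇ ℝ}
    (hω : Md ω) (hF : KP Z ω F) : Continuous F := by
  refine Metric.continuous_iff.2 fun x ε hε => ?_
  obtain ⟨h, h0, h1⟩ := hω.small (ε / 2) (by linarith)
  refine ⟨h, h0, fun y hy => ?_⟩
  have := hF y x 0 le_rfl (fun _ _ => dist_nonneg) (fun _ _ => dist_nonneg)
  rw [zero_add, hω.zero, sub_zero] at this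
  have h2 := hω.mono (mem_Ici.2 dist_nonneg) (mem_Ici.2 h0.le) hy.le
  linarith

theorem P_eq_Sp {d : ℕ} (F : (Fin d → ℝ) → ℕ →ᵇ ℝ) (p : Gr F) : P F p.1.1 = p := by
  unfold P
  rw [dif_pos p.2.1]
  exact Subtype.ext (Prod.ext rfl p.2.2.symm)

theorem s_sp : SSp := by
  intro d Z ω F hω hF hN
  have hc := cont_Sp hω hF
  have hG : IsCompact (Gr F) := by
    have : Gr F = (fun x => (x, F x)) '' Icc (0 : Fin d → ℝ) 1 := by
      ext y
      constructor
      · exact fun h => ⟨y.1, h.1, Prod.ext rfl h.2.symm⟩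
      · rintro ⟨x, hx, rfl⟩
        exact ⟨hx, rfl⟩
    rw [this]
    exact isCompact_Icc.image (continuous_id.prodMk hc)
  have : CompactSpace (Gr F) := isCompact_iff_compactSpace.1 hG
  have hB : ∀ p q : Gr F, ∃ L, CLe p q L := by
    intro p q
    obtain ⟨δ, hδ, h⟩ := hN 1 one_pos
    rw [← P_eq_Sp F p, ← P_eq_Sp F q]
    refine (convex_Icc (𝕜 := ℝ) (0 : Fin d → ℝ) 1).isPreconnected.induction₂'
      (fun x y => ∃ L, CLe (P F x) (P F y) L) (fun x hx => ?_)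
      (fun _ _ _ _ _ _ ⟨_, h1⟩ ⟨_, h2⟩ => ⟨_, h1.trans h2⟩) p.2.1 q.2.1
    filter_upwards [self_mem_nhdsWithin, mem_nhdsWithin_of_mem_nhds (Metric.ball_mem_nhds x hδ)]
      with y hy hy'
    have := h y hy x hx hy'
    exact ⟨⟨_, this.symm⟩, _, this⟩
  have hT : ∀ η > 0, ∃ t : Set (Gr F), t.Finite ∧ ∀ p, ∃ c ∈ t, CLe p c η := by
    intro η hη
    obtain ⟨δ, hδ, h⟩ := hN η hη
    obtain ⟨t, t1, t2, t3⟩ := finite_cover_balls_of_compact
      (isCompact_Icc (a := (0 : Fin d → ℝ)) (b := 1)) hδ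
    refine ⟨P F '' t, t2.image _, fun p => ?_⟩
    obtain ⟨c, hc, hp⟩ := mem_iUnion₂.1 (t3 p.2.1)
    refine ⟨_, mem_image_of_mem _ hc, ?_⟩
    have := h _ p.2.1 c (t1 hc) hp
    rwa [P_eq_Sp] at this
  have : CompactSpace (Intr (Gr F) hB) := Intr.compactSpace hT
  refine ⟨Intr (Gr F) hB, inferInstance, fun x => Intr.mk hB (P F x), inferInstance,
    ⟨Continuous.homeoOfEquivCompactToT2 (f := ⟨fun x => ⟨x.pt.1.1, x.pt.2.1⟩,
      fun x => Intr.mk hB (P F x), fun x => P_eq_Sp F x.pt, fun x => Subtype.ext ?_⟩) ?_⟩,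
    Intr.isLengthSpace, fun x y L => Intr.dist_le_iff⟩
  · change (P F x).1.1 = x
    unfold P
    rw [dif_pos x.2]
  · exact Continuous.subtype_mk (continuous_fst.comp
      (continuous_subtype_val.comp Intr.lipschitz_pt.continuous)) _

theorem s_dim : SDim := by
  intro d X _ e
  have hc : Continuous fun x : Icc (0 : Fin d → ℝ) 1 => (Fin.cons 0 x.1 : Fin (d + 1) → ℝ) :=
    continuous_const.finCons continuous_subtype_val
  have hi : Function.Injective fun x : Icc (0 : Fin d → ℝ) 1 =>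
      (Fin.cons 0 x.1 : Fin (d + 1) → ℝ) := fun x y h => Subtype.ext (Fin.cons_inj.1 h).2
  refine ⟨((coveringDimLE_of_holes (isCompact_range hc) ?_).of_homeomorph
    (hc.isClosedEmbedding hi).isEmbedding.toHomeomorph).of_homeomorph e, fun n hn => ?_⟩
  · rintro n _ ⟨x, rfl⟩
    exact ⟨0, isC_zero.2 n⟩
  have hy : ∀ (y : stdSimplex ℝ (Fin (d + 1))) i, y.1 i ∈ Icc (0 : ℝ) 1 := fun y i =>
    mem_Icc_of_mem_stdSimplex y.2 i
  have he : Continuous fun x => (e x).1 := continuous_subtype_val.comp e.continuous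
  refine le_of_coveringDimLE hn (fun x => Fin.cons (1 - ∑ i, (e x).1 i) (e x).1)
    (Continuous.finCons ?_ he) (fun x => by simp [Fin.sum_univ_succ])
    (fun y => e.symm ⟨fun i => y.1 i.succ, fun i => (hy y _).1, fun i => (hy y _).2⟩) ?_
    fun y => ?_
  · exact continuous_const.sub (continuous_finsetSum _ fun i _ => (continuous_apply i).comp he)
  · have hc : ∀ i, Continuous fun y : stdSimplex ℝ (Fin (d + 1)) => y.1 i := fun i =>
      (continuous_apply i).comp continuous_subtype_val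
    exact e.symm.continuous.comp (Continuous.subtype_mk (continuous_pi fun i => hc _) _)
  · have h1 := y.2.2
    rw [Fin.sum_univ_succ] at h1
    simp only [Homeomorph.apply_symm_apply]
    funext i
    refine Fin.cases ?_ (fun i => rfl) i
    show 1 - ∑ i : Fin d, y.1 i.succ = y.1 0
    rw [← h1]
    simp

end Pool.Agent.MP_616ade_gt.Ball

end

section

/-!
Chains along the columns and the wires, and the assembly of the steps.
-/

set_option autoImplicit false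

namespace Pool.Agent.MP_616ade_gt.Ball

open Set Function MeasureTheory Pool.Agent.MP_616ade_gt
open scoped BoundedContinuousFunction

universe u

variable {D : Dat} {e : ℕ} {F : (Fin (e + 3) → ℝ) → ℕ →ᵇ ℝ}

theorem base_mem {a : ℕ → ℝ} {y : ℝ} (ha : a ∈ AA) (hy : y ∈ Icc (0 : ℝ) 1) :
    (D.base a y, fun k => w k * a k) ∈ D.G e := Or.inl ⟨a, ha, y, hy, rfl⟩

theorem wire_mem {n : ℕ} {a : ℕ → ℝ} {s : ℝ} (hn : n ∈ D.S) (ha : a ∈ AA)
    (hl : a (D.I n) = D.l n) (hs : s ∈ Icc (0 : ℝ) 1) : (D.wire n a s, D.val n a s) ∈ D.G e :=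
  Or.inr ⟨n, hn, a, ha, hl, s, hs, rfl⟩

theorem upd_mem {a : ℕ → ℝ} (ha : a ∈ AA) (i : ℕ) {t : ℝ} (ht : IsC t) : update a i t ∈ AA := by
  intro k
  rcases eq_or_ne k i with rfl | h
  · rwa [update_self]
  · rw [update_of_ne h]
    exact ha k

theorem line_mem {s s' τ : ℝ} (hs : s ∈ Icc (0 : ℝ) 1) (hs' : s' ∈ Icc (0 : ℝ) 1)
    (hτ : τ ∈ Icc (0 : ℝ) 1) : s + τ * (s' - s) ∈ Icc (0 : ℝ) 1 := by
  constructor <;> nlinarith [hs.1, hs.2, hs'.1, hs'.2, hτ.1, hτ.2]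

theorem cle_of_lip {K : Type} [MetricSpace K] (f : ℝ → K) {L : ℝ} (hL : 0 ≤ L)
    (hf : ∀ s ∈ Icc (0 : ℝ) 1, ∀ t ∈ Icc (0 : ℝ) 1, dist (f s) (f t) ≤ L * |s - t|) {s s' : ℝ}
    (hs : s ∈ Icc (0 : ℝ) 1) (hs' : s' ∈ Icc (0 : ℝ) 1) : CLe (f s) (f s') (L * |s - s'|) := by
  have h := CLe.of_lipschitz (fun τ => f (s + τ * (s' - s))) (L * |s - s'|) (by positivity)
    fun σ hσ τ hτ => (hf _ (line_mem hs hs' hσ) _ (line_mem hs hs' hτ)).trans (le_of_eq (by
      rw [show s + σ * (s' - s) - (s + τ * (s' - s)) = (s' - s) * (σ - τ) by ring, abs_mul,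
        abs_sub_comm s' s, mul_assoc]))
  simpa using h

theorem row_mem (n : ℕ) (a : ℕ → ℝ) : D.c n * (2 + D.u a) ∈ Icc (0 : ℝ) 1 := by
  constructor <;> nlinarith [D.pos n, D.c_le n, (D.u01 a).1, (D.u01 a).2]

theorem wire_zero (n : ℕ) (a : ℕ → ℝ) :
    (D.wire n a 0 : Fin (e + 3) → ℝ) = D.base a (D.c n * (2 + D.u a)) := by
  simp [Dat.wire, Dat.base]

theorem wire_one {n : ℕ} {a : ℕ → ℝ} (hn : n ∈ D.S) (hl : a (D.I n) = D.l n) :
    (D.wire n a 1 : Fin (e + 3) → ℝ) =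
      D.base (update a (D.I n) (D.h n)) (D.c n * (2 + D.u a)) := by
  simp [Dat.wire, Dat.base, D.lam2 n hn a hl]

section
variable (hF : ∀ g ∈ D.G e, ∀ k, F g.1 k = g.2 k)
  (hQ : Prod.fst '' D.G e ⊆ Icc (0 : Fin (e + 3) → ℝ) 1)
include hF hQ

theorem dist_G {g g' : (Fin (e + 3) → ℝ) × (ℕ → ℝ)} (hg : g ∈ D.G e) (hg' : g' ∈ D.G e) {R : ℝ}
    (h1 : dist g.1 g'.1 ≤ R) (h2 : ∀ k, |g.2 k - g'.2 k| ≤ R) :
    dist (P F g.1) (P F g'.1) ≤ R := by
  rw [dist_P F (hQ ⟨g, hg, rfl⟩) (hQ ⟨g', hg', rfl⟩)]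
  refine max_le h1 ((BoundedContinuousFunction.dist_le (dist_nonneg.trans h1)).2 fun k => ?_)
  rw [hF g hg, hF g' hg', Real.dist_eq]
  exact h2 k

theorem col {a : ℕ → ℝ} {y y' : ℝ} (ha : a ∈ AA) (hy : y ∈ Icc (0 : ℝ) 1)
    (hy' : y' ∈ Icc (0 : ℝ) 1) : CLe (P F (D.base a y)) (P F (D.base a y')) |y - y'| := by
  have h := cle_of_lip (fun y => P F (D.base a y)) zero_le_one (fun s hs t ht =>
    dist_G hF hQ (base_mem ha hs) (base_mem ha ht) (by simp [Dat.base, dist_pt]) (by simp)) hy hy'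
  simpa using h

theorem wir {n : ℕ} {a : ℕ → ℝ} {s s' : ℝ} (hn : n ∈ D.S) (ha : a ∈ AA)
    (hl : a (D.I n) = D.l n) (hs : s ∈ Icc (0 : ℝ) 1) (hs' : s' ∈ Icc (0 : ℝ) 1) :
    CLe (P F (D.wire n a s)) (P F (D.wire n a s'))
      (3 / 2 * (w (D.I n) * (D.h n - D.l n)) * |s - s'|) := by
  have h1 := D.cle n hn
  have h2 := D.pos n
  have h3 := D.c_le n
  have h4 := (D.lam1 n hn).2
  have h5 := (D.gap n hn).2.2
  refine cle_of_lip (fun s => P F (D.wire n a s)) (by linarith) (fun σ hσ τ hτ =>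
    dist_G hF hQ (wire_mem hn ha hl hσ) (wire_mem hn ha hl hτ) ?_ fun k => ?_) hs hs'
  · have h0 := abs_nonneg (σ - τ)
    simp only [Dat.wire, dist_pt]
    refine max_le ?_ (max_le ?_ ?_)
    · rw [show D.u a + σ * D.lam n - (D.u a + τ * D.lam n) = D.lam n * (σ - τ) by ring, abs_mul]
      exact mul_le_mul_of_nonneg_right (by linarith) h0
    · rw [sub_self, abs_zero]
      exact mul_nonneg (by linarith) h0
    · rw [show 1 / 2 + D.c n ^ 2 * min σ (1 - σ) - (1 / 2 + D.c n ^ 2 * min τ (1 - τ)) =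
        D.c n ^ 2 * (min σ (1 - σ) - min τ (1 - τ)) by ring, abs_mul, abs_of_nonneg (sq_nonneg _)]
      have h6 := abs_min_sub_min_le_max σ (1 - σ) τ (1 - τ)
      rw [show 1 - σ - (1 - τ) = -(σ - τ) by ring, abs_neg, max_self] at h6
      exact mul_le_mul (by nlinarith) h6 (abs_nonneg _) (by linarith)
  · have h0 := abs_nonneg (σ - τ)
    simp only [Dat.val]
    rcases eq_or_ne k (D.I n) with rfl | hk
    · rw [update_self, update_self, show w (D.I n) * (D.l n + σ * (D.h n - D.l n)) -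
        w (D.I n) * (D.l n + τ * (D.h n - D.l n)) = w (D.I n) * (D.h n - D.l n) * (σ - τ) by ring,
        abs_mul, abs_of_nonneg (by linarith)]
      exact mul_le_mul_of_nonneg_right (by linarith) h0
    · rw [update_of_ne hk, update_of_ne hk, sub_self, abs_zero]
      exact mul_nonneg (by linarith) h0

theorem to_foot {n : ℕ} {a : ℕ → ℝ} {s η : ℝ} (hn : n ∈ D.S) (ha : a ∈ AA)
    (hl : a (D.I n) = D.l n) (hs : s ∈ Icc (0 : ℝ) 1)
    (h : min s (1 - s) * (w (D.I n) * (D.h n - D.l n)) ≤ η) :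
    ∃ b ∈ AA, ∃ y ∈ Icc (0 : ℝ) 1, CLe (P F (D.wire n a s)) (P F (D.base b y)) (3 / 2 * η) := by
  rcases le_total s (1 - s) with h1 | h1
  · refine ⟨a, ha, _, row_mem (D := D) n a, ?_⟩
    rw [← wire_zero]
    refine (wir hF hQ hn ha hl hs ⟨le_rfl, zero_le_one⟩).mono ?_
    rw [min_eq_left h1] at h
    rw [sub_zero, abs_of_nonneg hs.1]
    linarith
  · refine ⟨_, upd_mem ha (D.I n) (D.gap n hn).2.1, _, row_mem (D := D) n a, ?_⟩
    rw [← wire_one hn hl]
    refine (wir hF hQ hn ha hl hs ⟨zero_le_one, le_rfl⟩).mono ?_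
    rw [min_eq_right h1] at h
    rw [abs_of_nonpos (by linarith [hs.2])]
    linarith

theorem near_Z {Sd Su : Set (Fin (e + 3) → ℝ)} (hd : Near F Sd) (hu : Near F Su)
    (h1 : ∀ a ∈ AA, ∀ y ∈ Icc (0 : ℝ) 1, D.base a y ∈ Sd)
    (h2 : ∀ n ∈ D.S, ∀ a ∈ AA, a (D.I n) = D.l n → ∀ s ∈ Icc (0 : ℝ) 1, D.wire n a s ∈ Su) :
    Near F (Prod.fst '' D.G e) := by
  intro η hη
  obtain ⟨δd, hδd, Hd⟩ := hd (η / 2) (by positivity)
  obtain ⟨δu, hδu, Hu⟩ := hu η hη
  obtain ⟨δ0, hδ0, H0⟩ := D.foot (η := min (η / 3) (δd / 3)) (by positivity)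
  have key : ∀ n ∈ D.S, ∀ a ∈ AA, a (D.I n) = D.l n → ∀ s ∈ Icc (0 : ℝ) 1, ∀ b ∈ AA,
      ∀ y ∈ Icc (0 : ℝ) 1, dist (D.wire n a s : Fin (e + 3) → ℝ) (D.base b y) <
        min δu (min (δd / 2) δ0) → CLe (P F (D.wire n a s)) (P F (D.base b y)) η := by
    intro n hn a ha hl s hs b hb y hy hlt
    have h3 : D.c n ^ 2 * min s (1 - s) ≤ δ0 := by
      have h4 := hlt.le.trans ((min_le_right _ _).trans (min_le_right _ _))
      simp only [Dat.wire, Dat.base, dist_pt] at h4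
      have h5 := (le_abs_self _).trans ((le_max_right _ _).trans ((le_max_right _ _).trans h4))
      linarith
    obtain ⟨b', hb', y', hy', h4⟩ := to_foot hF hQ hn ha hl hs (H0 n hn s hs h3)
    have h5 := h4.dist_le
    rw [dist_P F (hQ ⟨_, wire_mem hn ha hl hs, rfl⟩) (hQ ⟨_, base_mem hb' hy', rfl⟩)] at h5
    have h6 := (le_max_left _ _).trans h5
    have h7 := dist_triangle_left (D.base b' y' : Fin (e + 3) → ℝ) (D.base b y) (D.wire n a s)
    have h8 := hlt.trans_le ((min_le_right _ _).trans (min_le_left _ _))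
    have h9 := min_le_left (η / 3) (δd / 3)
    have h10 := min_le_right (η / 3) (δd / 3)
    exact (h4.trans (Hd _ (h1 b' hb' y' hy') _ (h1 b hb y hy) (by linarith))).mono (by linarith)
  refine ⟨min δu (min (δd / 2) δ0), by positivity, ?_⟩
  rintro _ ⟨g, hg, rfl⟩ _ ⟨g', hg', rfl⟩ hlt
  rcases hg with ⟨a, ha, y, hy, rfl⟩ | ⟨n, hn, a, ha, hl, s, hs, rfl⟩ <;>
    rcases hg' with ⟨b, hb, y', hy', rfl⟩ | ⟨n', hn', b, hb, hl', s', hs', rfl⟩
  · have h8 := hlt.trans_le ((min_le_right _ _).trans (min_le_left _ _))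
    exact (Hd _ (h1 a ha y hy) _ (h1 b hb y' hy') (h8.trans (by linarith))).mono (by linarith)
  · exact (key n' hn' b hb hl' s' hs' a ha y hy (by rwa [dist_comm])).symm
  · exact key n hn a ha hl s hs b hb y' hy' hlt
  · exact Hu _ (h2 n hn a ha hl s hs) _ (h2 n' hn' b hb hl' s' hs') (hlt.trans_le (min_le_left _ _))

theorem jump {a : ℕ → ℝ} (ha : a ∈ AA) (i : ℕ) {t : ℝ} (ht : IsC t) :
    dist (P F (D.base a 0)) (P F (D.base (update a i t) 0)) ≤ 2 * |t - a i| := by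
  have h0 := abs_nonneg (t - a i)
  refine dist_G hF hQ (base_mem ha ⟨le_rfl, zero_le_one⟩)
    (base_mem (upd_mem ha i ht) ⟨le_rfl, zero_le_one⟩) ?_ fun k => ?_
  · simp only [Dat.base, dist_pt, sub_self, abs_zero]
    exact max_le (by rw [abs_sub_comm]; exact D.lip a ha i t ht) (max_le (by linarith) (by linarith))
  · rcases eq_or_ne k i with rfl | hk
    · simp only [update_self]
      rw [← mul_sub, abs_mul, abs_of_pos (w_pos k), abs_sub_comm]
      nlinarith [w_le k]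
    · simp only [update_of_ne hk, sub_self, abs_zero]
      linarith

theorem cross {a : ℕ → ℝ} (ha : a ∈ AA) (i : ℕ) {t : ℝ} (ht : IsC t) (hlt : a i < t)
    (hg : ∀ x, IsC x → x ≤ a i ∨ t ≤ x) :
    CLe (P F (D.base a 0)) (P F (D.base (update a i t) 0)) (8 * (t - a i)) := by
  obtain ⟨n, hn, rfl, hl, rfl⟩ := D.fam i (a i) t (ha i) ht hlt hg
  have h0 : (0 : ℝ) ∈ Icc (0 : ℝ) 1 := ⟨le_rfl, zero_le_one⟩
  have hr := row_mem (D := D) n a
  have h1 := col hF hQ ha h0 hr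
  have h2 := wir hF hQ hn ha hl.symm h0 ⟨zero_le_one, le_rfl⟩
  have h3 := col hF hQ (upd_mem ha (D.I n) ht) hr h0
  rw [wire_zero, wire_one hn hl.symm] at h2
  refine ((h1.trans h2).trans h3).mono ?_
  rw [zero_sub, abs_neg, sub_zero, abs_of_nonneg hr.1, zero_sub, abs_neg, abs_one, ← hl]
  have h4 := D.cle n hn
  have h5 : w (D.I n) * (D.h n - D.l n) ≤ D.h n - D.l n := by
    nlinarith [w_le (D.I n), (D.gap n hn).2.2]
  nlinarith [D.pos n, (D.u01 a).2, (D.gap n hn).2.2]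

theorem line_up (hC : IsClosed {x | IsC x}) {a : ℕ → ℝ} (ha : a ∈ AA) (i : ℕ) {t : ℝ}
    (ht : IsC t) (hle : a i ≤ t) :
    CLe (P F (D.base a 0)) (P F (D.base (update a i t) 0)) (9 * (t - a i)) := by
  intro ε hε
  have key : ∀ k : ℕ, ∀ t, IsC t → a i ≤ t → t ≤ a i + k * (ε / 2) → ∃ ℓ ≤ 9 * (t - a i),
      Chain ε (P F (D.base a 0)) (P F (D.base (update a i t) 0)) ℓ := by
    intro k
    induction k with
    | zero =>
      intro t _ h1 h2
      obtain rfl : t = a i := le_antisymm (by simpa using h2) h1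
      rw [update_eq_self]
      exact ⟨0, by simp, Chain.refl⟩
    | succ k ih =>
      intro t ht h1 h2
      rcases le_total t (a i + k * (ε / 2)) with h3 | h3
      · exact ih t ht h1 h3
      have h4 : a i ≤ a i + k * (ε / 2) := le_add_of_nonneg_right (by positivity)
      obtain ⟨t0, ⟨c0, m0⟩, g0⟩ := ((isCompact_Icc (a := a i)
        (b := a i + k * (ε / 2))).inter_left hC).exists_isGreatest ⟨a i, ha i, le_rfl, h4⟩
      obtain ⟨t1, ⟨c1, m1⟩, g1⟩ := ((isCompact_Icc (a := a i + k * (ε / 2))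
        (b := t)).inter_left hC).exists_isLeast ⟨t, ht, h3, le_rfl⟩
      obtain ⟨ℓ, hℓ, hc⟩ := ih t0 c0 m0.1 m0.2
      have h5 : ∃ ℓ ≤ 9 * (t1 - a i),
          Chain ε (P F (D.base a 0)) (P F (D.base (update a i t1) 0)) ℓ := by
        rcases (m0.2.trans m1.1).eq_or_lt with h6 | h6
        · exact h6 ▸ ⟨ℓ, hℓ, hc⟩
        · have h7 := cross hF hQ (upd_mem ha i c0) i c1 (by rwa [update_self]) fun x hx => by
            rw [update_self]
            rcases le_total x (a i + k * (ε / 2)) with h8 | h8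
            · rcases le_total (a i) x with h9 | h9
              · exact Or.inl (g0 ⟨hx, h9, h8⟩)
              · exact Or.inl (h9.trans m0.1)
            · rcases le_total x t with h9 | h9
              · exact Or.inr (g1 ⟨hx, h8, h9⟩)
              · exact Or.inr (m1.2.trans h9)
          rw [update_idem, update_self] at h7
          obtain ⟨ℓ', hℓ', hc'⟩ := h7 (min ε (t1 - t0)) (lt_min hε (by linarith))
          exact ⟨ℓ + ℓ', by linarith [min_le_right ε (t1 - t0)],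
            hc.trans (hc'.mono (min_le_left _ _))⟩
      obtain ⟨ℓ', hℓ', hc'⟩ := h5
      have h6 := jump hF hQ (upd_mem ha i c1) i ht
      rw [update_idem, update_self, abs_of_nonneg (by linarith [m1.2])] at h6
      push_cast at h2
      exact ⟨_, by linarith [m1.2], hc'.step (h6.trans (by linarith [m1.1]))⟩
  obtain ⟨k, hk⟩ := exists_nat_ge ((t - a i) / (ε / 2))
  rw [div_le_iff₀ (by positivity)] at hk
  obtain ⟨ℓ, h1, h2⟩ := key k t ht hle (by linarith)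
  exact ⟨ℓ, by linarith, h2⟩

theorem line (hC : IsClosed {x | IsC x}) {a : ℕ → ℝ} (ha : a ∈ AA) (i : ℕ) {t : ℝ}
    (ht : IsC t) : CLe (P F (D.base a 0)) (P F (D.base (update a i t) 0)) (9 * |t - a i|) := by
  rcases le_total (a i) t with h | h
  · rw [abs_of_nonneg (by linarith)]
    exact line_up hF hQ hC ha i ht h
  · have h1 := line_up hF hQ hC (upd_mem ha i ht) i (ha i) (by rwa [update_self])
    rw [update_idem, update_self, update_eq_self] at h1
    rw [abs_of_nonpos (by linarith), neg_sub]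
    exact h1.symm

theorem multi (hC : IsClosed {x | IsC x}) {R : ℝ} (m : ℕ) : ∀ a ∈ AA, ∀ b ∈ AA,
    (∀ k, m ≤ k → a k = b k) → (∀ k, |a k - b k| ≤ R) →
    CLe (P F (D.base a 0)) (P F (D.base b 0)) (9 * m * R) := by
  induction m with
  | zero =>
    intro a _ b _ h _
    obtain rfl : a = b := funext fun k => h k k.zero_le
    simpa using CLe.refl _
  | succ m ih =>
    intro a ha b hb h1 h2
    have h3 := ih (update a m (b m)) (upd_mem ha m (hb m)) b hb (fun k hk => by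
      rcases eq_or_ne k m with rfl | h
      · rw [update_self]
      · rw [update_of_ne h]
        exact h1 k (by omega)) fun k => by
      rcases eq_or_ne k m with rfl | h
      · rw [update_self, sub_self, abs_zero]
        exact (abs_nonneg _).trans (h2 0)
      · rw [update_of_ne h]
        exact h2 k
    refine ((line hF hQ hC ha m (hb m)).trans h3).mono ?_
    have h4 := h2 m
    rw [abs_sub_comm] at h4
    push_cast
    linarith

end

theorem main_of (ho : SObs.{u}) (hd : SDim) (hx : SExt) (hup : SUp) (hall : SAll) (hsp : SSp)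
    (hc : SCode) (hn : SNet) (huc : SUC) (hg : SGeo) (e : ℕ) :
    ∃ (X : Type) (_ : MetricSpace X), CompactSpace X ∧ IsLengthSpace X ∧
      Nonempty (X ≃ₜ Icc (0 : Fin (e + 3) → ℝ) 1) ∧ HasCoveringDim X (e + 3) ∧
      ∀ k, ¬ IsInverseLimitOfMinkowskiPolyhedra.{u} k X := by
  obtain ⟨D⟩ := hc
  obtain ⟨g1, g2, hQ, g4, g5⟩ := hg D e
  obtain ⟨ω, F, hω, hK, hF⟩ := hx _ (D.G e) g1 g2 (huc D e)
  have hZ := near_Z hF hQ (hup _ _ ω F hω hK (pt 0 0 (-1)) (norm_pt (by simp)))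
    (hup _ _ ω F hω hK (pt 0 0 1) (norm_pt (by simp))) g4 g5
  obtain ⟨X, _, j, h1, ⟨φ⟩, h3, hj⟩ := hsp _ _ ω F hω hK
    (hall _ _ ω F hω hK (g1.image _) hQ hZ)
  refine ⟨X, inferInstance, h1, h3, ⟨φ⟩, hd _ X φ, fun k => ?_⟩
  let ex : (Fin (k + 1) → ℝ) → ℕ → ℝ := fun a i => if h : i < k + 1 then a ⟨i, h⟩ else 0
  have hex : ∀ a ∈ pi univ fun _ : Fin (k + 1) => {x | IsC x}, ex a ∈ AA := fun a ha i => by
    by_cases h : i < k + 1
    · simp only [ex, dif_pos h]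
      exact ha _ (mem_univ _)
    · simp only [ex, dif_neg h]
      exact isC_zero
  have h0 : (0 : ℝ) ∈ Icc (0 : ℝ) 1 := ⟨le_rfl, zero_le_one⟩
  refine ho k X (pi univ fun _ => {x | IsC x}) (MeasurableSet.univ_pi fun _ => measurableSet_isC)
    (by rw [volume_pi_pi]; exact Finset.prod_ne_zero_iff.2 fun _ _ => vol_isC)
    (fun a => j (D.base (ex a) 0)) (w k) (9 * (k + 1 : ℕ)) (w_pos k) fun a ha b hb => ⟨?_, ?_⟩
  · have h4 := ((hj (D.base (ex a) 0) (D.base (ex b) 0) _).1 le_rfl).dist_le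
    rw [dist_P F (hQ ⟨_, base_mem (hex a ha) h0, rfl⟩) (hQ ⟨_, base_mem (hex b hb) h0, rfl⟩)] at h4
    rw [← le_div_iff₀' (w_pos k)]
    refine (dist_pi_le_iff (div_nonneg dist_nonneg (w_pos k).le)).2 fun i => ?_
    rw [le_div_iff₀' (w_pos k)]
    have h5 := (BoundedContinuousFunction.dist_coe_le_dist i.1).trans
      ((le_max_right _ _).trans h4)
    rw [hF _ (base_mem (hex a ha) h0), hF _ (base_mem (hex b hb) h0)] at h5
    simp only [ex, dif_pos i.2, Real.dist_eq, ← mul_sub, abs_mul, abs_of_pos (w_pos i.1)] at h5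
    refine le_trans (mul_le_mul_of_nonneg_right ?_ dist_nonneg) h5
    have h6 : (i.1 : ℝ) ≤ k := by exact_mod_cast Nat.lt_succ_iff.1 i.2
    exact one_div_le_one_div_of_le (by positivity) (by linarith)
  · refine (hj _ _ _).2 (multi hF hQ hn.1 (k + 1) _ (hex a ha) _ (hex b hb) (fun i hi => ?_)
      fun i => ?_)
    · simp only [ex, dif_neg (not_lt.2 hi)]
    · by_cases h : i < k + 1
      · simp only [ex, dif_pos h]
        exact dist_le_pi_dist a b _
      · simp only [ex, dif_neg h, sub_self, abs_zero]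
        exact dist_nonneg

end Pool.Agent.MP_616ade_gt.Ball

end

section

set_option autoImplicit false

namespace Pool.Agent.MP_616ade_gt.Ball

open Set Pool.Agent.MP_616ade_gt

universe u

theorem main_ball (d : ℕ) (hd : 3 ≤ d) :
    ∃ (X : Type) (_ : MetricSpace X), CompactSpace X ∧ IsLengthSpace X ∧
      Nonempty (X ≃ₜ Icc (0 : Fin d → ℝ) 1) ∧ HasCoveringDim X d ∧
      ∀ k, ¬ IsInverseLimitOfMinkowskiPolyhedra.{u} k X := by
  obtain ⟨e, rfl⟩ := Nat.exists_eq_add_of_le' hd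
  exact main_of s_ob s_dim s_ext (s_up s_esc s_acr) (s_all s_esc s_acr) s_sp
    (s_code s_sum s_net) s_net s_uc s_geo e

end Pool.Agent.MP_616ade_gt.Ball

end
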