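import Pool.Agent.MP_616ade_gt.Chain

open scoped ENNReal Topology
open Set Filter

namespace Pool.Agent.MP_616ade_gt

lemma cle_of_segment {E : Type*} [NormedAddCommGroup E] [NormedSpace ℝ E] {S : Set E} (p q : S)
    (h : segment ℝ (p : E) q ⊆ S) : CLe p q (dist p q) := by
  let f : ℝ → S := fun s => ⟨AffineMap.lineMap (p : E) (q : E) (projIcc (0 : ℝ) 1 zero_le_one s : ℝ),
    h (by rw [segment_eq_image_lineMap]; exact mem_image_of_mem _ (projIcc _ _ _ s).2)⟩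
  have h0 : f 0 = p := by ext; simp [f]
  have h1 : f 1 = q := by ext; simp [f]
  have := CLe.of_lipschitz f (dist p q) dist_nonneg (by
    intro s hs t ht
    simp only [f, Subtype.dist_eq, projIcc_of_mem _ hs, projIcc_of_mem _ ht]
    rw [dist_lineMap_lineMap, Real.dist_eq, mul_comm])
  rwa [h0, h1] at this

/-- subdivision ratios -/
def ra (n : ℕ) : ℕ := 2 ^ (n + 3)

/-- number of intervals of generation `n` -/
def NN : ℕ → ℕ
  | 0 => 1
  | n + 1 => ra n * NN n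

lemma ra_ge (n : ℕ) : 8 ≤ ra n := by
  unfold ra
  rw [pow_add]
  have := Nat.one_le_two_pow (n := n)
  omega

lemma NN_pos (n : ℕ) : 0 < NN n := by
  induction n with
  | zero => simp [NN]
  | succ n ih => have := ra_ge n; simp only [NN]; positivity

lemma NN_posR (n : ℕ) : (0 : ℝ) < NN n := by exact_mod_cast NN_pos n

lemma NN_succR (n : ℕ) : (NN (n + 1) : ℝ) = ra n * NN n := by simp [NN]

lemma ra_geR (n : ℕ) : (8 : ℝ) ≤ ra n := by exact_mod_cast ra_ge n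

lemma NN_ge (n : ℕ) : n + 1 ≤ NN n := by
  induction n with
  | zero => simp [NN]
  | succ n ih => have := ra_ge n; simp only [NN]; nlinarith

lemma exists_NN (η : ℝ) (hη : 0 < η) : ∃ m0 : ℕ, ∀ m ≥ m0, 1 / (NN m : ℝ) ≤ η := by
  obtain ⟨n, hn⟩ := exists_nat_gt (1 / η)
  refine ⟨n, fun m hm => ?_⟩
  have h1 : ((m : ℝ) + 1) ≤ NN m := by exact_mod_cast NN_ge m
  have h2 : (n : ℝ) ≤ m := by exact_mod_cast hm
  rw [div_le_iff₀ (NN_posR m)]
  rw [div_lt_iff₀ hη] at hn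
  nlinarith

/-- the holes of generation `n` -/
def Hole (n : ℕ) : Set ℝ :=
  {x | ∃ i : ℤ, (ra n : ℝ) * i + 1 < NN (n + 1) * x ∧ NN (n + 1) * x < ra n * i + 2}

lemma isOpen_Hole (n : ℕ) : IsOpen (Hole n) := by
  have : Hole n = ⋃ i : ℤ, {x : ℝ | (ra n : ℝ) * i + 1 < NN (n + 1) * x} ∩
      {x : ℝ | NN (n + 1) * x < ra n * i + 2} := by
    ext x; simp [Hole]
  rw [this]
  refine isOpen_iUnion fun i => IsOpen.inter ?_ ?_
  · exact isOpen_lt (by fun_prop) (by fun_prop)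
  · exact isOpen_lt (by fun_prop) (by fun_prop)

/-- grid points of generation `m` -/
def IsGrid (m : ℕ) (x : ℝ) : Prop := ∃ k : ℤ, NN m * x = k

lemma IsGrid.mono {m m' : ℕ} {x : ℝ} (h : IsGrid m x) (hm : m ≤ m') : IsGrid m' x := by
  induction hm with
  | refl => exact h
  | @step m' _ ih =>
    obtain ⟨k, hk⟩ := ih
    refine ⟨ra m' * k, ?_⟩
    rw [NN_succR]
    push_cast
    rw [← hk]; ring

lemma IsGrid.not_hole {m n : ℕ} {x : ℝ} (h : IsGrid m x) (hm : m ≤ n + 1) : x ∉ Hole n := by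
  obtain ⟨k, hk⟩ := h.mono hm
  rintro ⟨i, h1, h2⟩
  rw [hk] at h1 h2
  have h1' : (ra n : ℤ) * i + 1 < k := by exact_mod_cast h1
  have h2' : k < (ra n : ℤ) * i + 2 := by exact_mod_cast h2
  omega

/-- rounding down to the grid -/
noncomputable def fl (m : ℕ) (x : ℝ) : ℝ := ⌊NN m * x⌋ / NN m

lemma fl_grid (m : ℕ) (x : ℝ) : IsGrid m (fl m x) :=
  ⟨⌊NN m * x⌋, by unfold fl; field_simp [(NN_posR m).ne']⟩

lemma fl_le (m : ℕ) (x : ℝ) : fl m x ≤ x := by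
  unfold fl
  rw [div_le_iff₀ (NN_posR m), mul_comm x]
  exact Int.floor_le _

lemma sub_fl_le (m : ℕ) (x : ℝ) : x - fl m x ≤ 1 / NN m := by
  unfold fl
  have := Int.lt_floor_add_one ((NN m : ℝ) * x)
  rw [sub_le_iff_le_add, ← add_div, le_div_iff₀ (NN_posR m)]
  linarith

lemma le_fl {m : ℕ} {g x : ℝ} (hg : IsGrid m g) (h : g ≤ x) : g ≤ fl m x := by
  obtain ⟨k, hk⟩ := hg
  unfold fl
  rw [le_div_iff₀ (NN_posR m), mul_comm g, hk]
  have : k ≤ ⌊NN m * x⌋ := by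
    rw [Int.le_floor, ← hk]
    exact mul_le_mul_of_nonneg_left h (NN_posR m).le
  exact_mod_cast this

lemma fl_nonneg (m : ℕ) {x : ℝ} (h : 0 ≤ x) : 0 ≤ fl m x := le_fl ⟨0, by simp⟩ h

lemma fl_le_succ (m : ℕ) (x : ℝ) : fl m x ≤ fl (m + 1) x :=
  le_fl ((fl_grid m x).mono (Nat.le_succ m)) (fl_le m x)

lemma not_hole_of_between {m n : ℕ} {x t : ℝ} (hx : x ∉ Hole n) (hn : n < m)
    (h1 : fl m x ≤ t) (h2 : t ≤ x) : t ∉ Hole n := by
  rintro ⟨i, h3, h4⟩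
  have hN := NN_posR (n + 1)
  have h5 : (ra n : ℝ) * i + 2 ≤ NN (n + 1) * x := by
    by_contra h
    push Not at h
    exact hx ⟨i, by nlinarith, h⟩
  have hg : IsGrid (n + 1) (((ra n : ℝ) * i + 2) / NN (n + 1)) :=
    ⟨ra n * i + 2, by push_cast; field_simp⟩
  have h6 := le_fl (hg.mono hn) (x := x) (by rw [div_le_iff₀ hN]; linarith)
  rw [div_le_iff₀ hN] at h6
  nlinarith

/-- the plane with the sum norm -/
abbrev Pl := WithLp 1 (ℝ × ℝ)

/-- membership in the carpet -/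
def InC (x y : ℝ) : Prop :=
  x ∈ Icc (0 : ℝ) 1 ∧ y ∈ Icc (0 : ℝ) 1 ∧ ∀ n, x ∉ Hole n ∨ y ∉ Hole n

/-- the carpet -/
def Carpet : Set Pl := {p | InC p.fst p.snd}

/-- a point of the carpet -/
def cpt (x y : ℝ) (h : InC x y) : Carpet := ⟨WithLp.toLp 1 (x, y), h⟩

lemma dist_cpt {x y x' y' : ℝ} (h : InC x y) (h' : InC x' y') :
    dist (cpt x y h) (cpt x' y' h') = |x - x'| + |y - y'| := by
  simp [cpt, Subtype.dist_eq, WithLp.prod_dist_eq_of_L1, Real.dist_eq]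

lemma cle_h {x x' y : ℝ} (h : InC x y) (h' : InC x' y) (hs : ∀ t ∈ uIcc x x', InC t y) :
    CLe (cpt x y h) (cpt x' y h') |x - x'| := by
  have := cle_of_segment (cpt x y h) (cpt x' y h') (by
    rintro _ ⟨a, b, ha, hb, hab, rfl⟩
    have e : a * y + b * y = y := by rw [← add_mul, hab, one_mul]
    simp only [Carpet, cpt, mem_ofPred_eq, WithLp.add_fst, WithLp.smul_fst, WithLp.toLp_fst,
      WithLp.add_snd, WithLp.smul_snd, WithLp.toLp_snd, smul_eq_mul, e]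
    apply hs
    rw [← segment_eq_uIcc]
    exact ⟨a, b, ha, hb, hab, rfl⟩)
  rw [dist_cpt] at this
  simpa using this

lemma cle_v {x y y' : ℝ} (h : InC x y) (h' : InC x y') (hs : ∀ t ∈ uIcc y y', InC x t) :
    CLe (cpt x y h) (cpt x y' h') |y - y'| := by
  have := cle_of_segment (cpt x y h) (cpt x y' h') (by
    rintro _ ⟨a, b, ha, hb, hab, rfl⟩
    have e : a * x + b * x = x := by rw [← add_mul, hab, one_mul]
    simp only [Carpet, cpt, mem_ofPred_eq, WithLp.add_fst, WithLp.smul_fst, WithLp.toLp_fst,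
      WithLp.add_snd, WithLp.smul_snd, WithLp.toLp_snd, smul_eq_mul, e]
    apply hs
    rw [← segment_eq_uIcc]
    exact ⟨a, b, ha, hb, hab, rfl⟩)
  rw [dist_cpt] at this
  simpa using this

lemma InC.of_rect {x y : ℝ} (h : InC x y) {m : ℕ} {s t : ℝ} (hs1 : fl m x ≤ s) (hs2 : s ≤ x)
    (ht1 : fl m y ≤ t) (ht2 : t ≤ y) (hg : IsGrid (m + 1) s ∨ IsGrid (m + 1) t) : InC s t := by
  refine ⟨⟨(fl_nonneg m h.1.1).trans hs1, hs2.trans h.1.2⟩,
    ⟨(fl_nonneg m h.2.1.1).trans ht1, ht2.trans h.2.1.2⟩, fun n => ?_⟩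
  rcases lt_or_ge n m with hn | hn
  · rcases h.2.2 n with h' | h'
    · exact Or.inl (not_hole_of_between h' hn hs1 hs2)
    · exact Or.inr (not_hole_of_between h' hn ht1 ht2)
  · rcases hg with hg | hg
    · exact Or.inl (hg.not_hole (by omega))
    · exact Or.inr (hg.not_hole (by omega))

lemma InC.fl {x y : ℝ} (h : InC x y) (m : ℕ) : InC (fl m x) (fl m y) :=
  h.of_rect le_rfl (fl_le m x) le_rfl (fl_le m y) (Or.inl ((fl_grid m x).mono (Nat.le_succ m)))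

lemma cle_step {x y : ℝ} (h : InC x y) (m : ℕ) :
    CLe (cpt _ _ (h.fl m)) (cpt _ _ (h.fl (m + 1))) (2 / NN m) := by
  have hmid : InC (fl (m + 1) x) (fl m y) :=
    h.of_rect (fl_le_succ m x) (fl_le _ x) le_rfl (fl_le m y) (Or.inl (fl_grid _ x))
  have h1 := cle_h (h.fl m) hmid (by
    intro t ht
    rw [uIcc_of_le (fl_le_succ m x)] at ht
    exact h.of_rect ht.1 (ht.2.trans (fl_le _ x)) le_rfl (fl_le m y)
      (Or.inr ((fl_grid m y).mono (Nat.le_succ m))))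
  have h2 := cle_v hmid (h.fl (m + 1)) (by
    intro t ht
    rw [uIcc_of_le (fl_le_succ m y)] at ht
    exact h.of_rect (fl_le_succ m x) (fl_le _ x) ht.1 (ht.2.trans (fl_le _ y))
      (Or.inl (fl_grid _ x)))
  refine (h1.trans h2).mono ?_
  rw [abs_of_nonpos (sub_nonpos.2 (fl_le_succ m x)), abs_of_nonpos (sub_nonpos.2 (fl_le_succ m y))]
  have := sub_fl_le m x
  have := sub_fl_le m y
  have := fl_le (m + 1) x
  have := fl_le (m + 1) y
  have e : (2 : ℝ) / NN m = 1 / NN m + 1 / NN m := by ring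
  linarith

lemma cle_steps {x y : ℝ} (h : InC x y) (m k : ℕ) :
    CLe (cpt _ _ (h.fl m)) (cpt _ _ (h.fl (m + k))) (4 / NN m - 4 / NN (m + k)) := by
  induction k with
  | zero => simpa using CLe.refl _
  | succ k ih =>
    refine (ih.trans (cle_step h (m + k))).mono ?_
    have h1 := NN_posR (m + k)
    have h2 := ra_geR (m + k)
    have : (4 : ℝ) / NN (m + (k + 1)) ≤ 2 / NN (m + k) := by
      rw [← add_assoc, NN_succR, div_le_div_iff₀ (by positivity) h1]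
      nlinarith
    have e : (4 : ℝ) / NN (m + k) = 2 / NN (m + k) + 2 / NN (m + k) := by ring
    linarith

lemma cle_corner {x y : ℝ} (h : InC x y) (m : ℕ) :
    CLe (cpt _ _ (h.fl m)) (cpt x y h) (4 / NN m) := by
  apply CLe.of_approx'
  intro η hη
  obtain ⟨k, hk⟩ := exists_NN (η / 2) (by linarith)
  refine ⟨cpt _ _ (h.fl m), cpt _ _ (h.fl (m + k)), by simpa using hη.le, ?_,
    (cle_steps h m k).mono ?_⟩
  · rw [dist_cpt, abs_of_nonneg (sub_nonneg.2 (fl_le _ x)),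
      abs_of_nonneg (sub_nonneg.2 (fl_le _ y))]
    have := sub_fl_le (m + k) x
    have := sub_fl_le (m + k) y
    have := hk (m + k) (by omega)
    linarith
  · have : (0 : ℝ) ≤ 4 / NN (m + k) := by positivity
    linarith

/-- the fat Cantor set -/
def IsC (x : ℝ) : Prop := x ∈ Icc (0 : ℝ) 1 ∧ ∀ n, x ∉ Hole n

lemma IsC.inC_left {x y : ℝ} (hx : IsC x) (hy : y ∈ Icc (0 : ℝ) 1) : InC x y :=
  ⟨hx.1, hy, fun n => Or.inl (hx.2 n)⟩

lemma IsC.inC_right {x y : ℝ} (hy : IsC y) (hx : x ∈ Icc (0 : ℝ) 1) : InC x y :=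
  ⟨hx, hy.1, fun n => Or.inr (hy.2 n)⟩

lemma cle_CC {x y x' y' : ℝ} (h : InC x y) (h' : InC x' y') (hy : IsC y) (hx' : IsC x') :
    CLe (cpt x y h) (cpt x' y' h') (|x - x'| + |y - y'|) := by
  have hmid : InC x' y := hx'.inC_left hy.1
  have h1 := cle_h h hmid fun t ht =>
    hy.inC_right ((ordConnected_Icc.uIcc_subset h.1 hx'.1) ht)
  have h2 := cle_v hmid h' fun t ht =>
    hx'.inC_left ((ordConnected_Icc.uIcc_subset hy.1 h'.2.1) ht)
  exact h1.trans h2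

lemma isC_fl_zero {x : ℝ} (hx : x ∈ Icc (0 : ℝ) 1) : IsC (fl 0 x) :=
  ⟨⟨fl_nonneg 0 hx.1, (fl_le 0 x).trans hx.2⟩, fun n => (fl_grid 0 x).not_hole (by omega)⟩

lemma carpet_hB (p q : Carpet) : ∃ L, CLe p q L := by
  obtain ⟨⟨x, y⟩, h⟩ := p
  obtain ⟨⟨x', y'⟩, h'⟩ := q
  have h : InC x y := h
  have h' : InC x' y' := h'
  exact ⟨_, ((cle_corner h 0).symm.trans (cle_CC (h.fl 0) (h'.fl 0) (isC_fl_zero h.2.1)
    (isC_fl_zero h'.1))).trans (cle_corner h' 0)⟩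

lemma finite_grid (m : ℕ) : {x : ℝ | x ∈ Icc (0 : ℝ) 1 ∧ IsGrid m x}.Finite := by
  refine ((finite_Icc (0 : ℤ) (NN m)).image fun k : ℤ => (k : ℝ) / NN m).subset ?_
  rintro x ⟨hx, k, hk⟩
  have hN := NN_posR m
  refine ⟨k, ⟨?_, ?_⟩, ?_⟩
  · have : (0 : ℝ) ≤ k := by rw [← hk]; exact mul_nonneg hN.le hx.1
    exact_mod_cast this
  · have : (k : ℝ) ≤ NN m := by rw [← hk]; nlinarith [hx.2]
    exact_mod_cast this
  · simp only [← hk]; field_simp

lemma carpet_hT (η : ℝ) (hη : 0 < η) :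
    ∃ t : Set Carpet, t.Finite ∧ ∀ p, ∃ c ∈ t, CLe p c η := by
  obtain ⟨m, hm⟩ := exists_NN (η / 4) (by linarith)
  refine ⟨{p | IsGrid m p.1.fst ∧ IsGrid m p.1.snd}, ?_, ?_⟩
  · refine Finite.of_finite_image (f := fun p : Carpet => (p.1.fst, p.1.snd))
      (((finite_grid m).prod (finite_grid m)).subset ?_) ?_
    · rintro _ ⟨p, hp, rfl⟩
      exact ⟨⟨p.2.1, hp.1⟩, ⟨p.2.2.1, hp.2⟩⟩
    · rintro ⟨⟨x, y⟩, h⟩ _ ⟨⟨x', y'⟩, h'⟩ _ hpq
      simp only [Prod.mk.injEq] at hpq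
      obtain ⟨h1, h2⟩ := hpq
      have h1 : x = x' := h1
      have h2 : y = y' := h2
      subst h1 h2
      rfl
  · rintro ⟨⟨x, y⟩, h⟩
    have h : InC x y := h
    refine ⟨cpt _ _ (h.fl m), ⟨fl_grid m x, fl_grid m y⟩, (cle_corner h m).symm.mono ?_⟩
    have := hm m le_rfl
    have e : (4 : ℝ) / NN m = 4 * (1 / NN m) := by ring
    linarith

lemma isCompact_carpet : IsCompact Carpet := by
  have h1 : IsCompact ((WithLp.toLp 1 : ℝ × ℝ → Pl) '' (Icc (0 : ℝ) 1 ×ˢ Icc (0 : ℝ) 1)) :=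
    (isCompact_Icc.prod isCompact_Icc).image (WithLp.prod_continuous_toLp 1 ℝ ℝ)
  refine h1.of_isClosed_subset ?_ ?_
  · have : Carpet = (WithLp.fst ⁻¹' Icc (0 : ℝ) 1) ∩ ((WithLp.snd ⁻¹' Icc (0 : ℝ) 1) ∩
        ⋂ n, ((WithLp.fst ⁻¹' (Hole n)ᶜ) ∪ (WithLp.snd ⁻¹' (Hole n)ᶜ))) := by
      ext p; simp [Carpet, InC]
    rw [this]
    have hf := WithLp.continuous_fst 1 ℝ ℝ
    have hs := WithLp.continuous_snd 1 ℝ ℝ
    exact (isClosed_Icc.preimage hf).inter ((isClosed_Icc.preimage hs).inter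
      (isClosed_iInter fun n => ((isOpen_Hole n).isClosed_compl.preimage hf).union
        ((isOpen_Hole n).isClosed_compl.preimage hs)))
  · rintro ⟨x, y⟩ h
    exact ⟨(x, y), ⟨h.1, h.2.1⟩, rfl⟩

instance : CompactSpace Carpet := isCompact_iff_compactSpace.1 isCompact_carpet

end Pool.Agent.MP_616ade_gt
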