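import Pool.Agent.MP_616ade_gt.Graph

open scoped ENNReal Topology
open Set Filter

namespace Pool.Agent.MP_616ade_gt

variable {K : Type*} [MetricSpace K]

/-- Chains with steps at most `ε` and total length `ℓ`. -/
inductive Chain (ε : ℝ) (p : K) : K → ℝ → Prop
  | refl : Chain ε p p 0
  | step {q r : K} {ℓ : ℝ} : Chain ε p q ℓ → dist q r ≤ ε → Chain ε p r (ℓ + dist q r)

namespace Chain

lemma mono {ε ε' : ℝ} (h : ε ≤ ε') {p q : K} {ℓ : ℝ} (hc : Chain ε p q ℓ) : Chain ε' p q ℓ := by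
  induction hc with
  | refl => exact refl
  | step _ hd ih => exact ih.step (hd.trans h)

lemma trans {ε : ℝ} {p q r : K} {ℓ ℓ' : ℝ} (h1 : Chain ε p q ℓ) (h2 : Chain ε q r ℓ') :
    Chain ε p r (ℓ + ℓ') := by
  induction h2 with
  | refl => simpa using h1
  | step _ hd ih => rw [← add_assoc]; exact ih.step hd

lemma single {ε : ℝ} {p q : K} (h : dist p q ≤ ε) : Chain ε p q (dist p q) := by
  simpa using (refl (ε := ε) (p := p)).step h

lemma symm {ε : ℝ} {p q : K} {ℓ : ℝ} (hc : Chain ε p q ℓ) : Chain ε q p ℓ := by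
  induction hc with
  | refl => exact refl
  | @step q r ℓ _ hd ih =>
    have := (single (ε := ε) (p := r) (q := q) (by rwa [dist_comm])).trans ih
    rwa [add_comm, dist_comm] at this

lemma dist_le {ε : ℝ} {p q : K} {ℓ : ℝ} (hc : Chain ε p q ℓ) : dist p q ≤ ℓ := by
  induction hc with
  | refl => simp
  | @step q r ℓ _ _ ih => linarith [dist_triangle p q r]

lemma param {ε : ℝ} (hε : 0 ≤ ε) {p q : K} {ℓ : ℝ} (hc : Chain ε p q ℓ) :
    ∃ γ : ℝ → K, γ 0 = p ∧ (∀ t, ℓ ≤ t → γ t = q) ∧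
      ∀ s t, s ≤ t → ∃ ℓ' ≤ t - s + ε, Chain ε (γ s) (γ t) ℓ' := by
  classical
  induction hc with
  | refl => exact ⟨fun _ => p, rfl, fun _ _ => rfl, fun s t hst => ⟨0, by linarith, refl⟩⟩
  | @step q r ℓ hc hd ih =>
    obtain ⟨γ, h0, h1, h2⟩ := ih
    have hℓ : 0 ≤ ℓ := le_trans dist_nonneg hc.dist_le
    have hd0 : 0 ≤ dist q r := dist_nonneg
    refine ⟨fun t => if ℓ + dist q r ≤ t then r else γ t, ?_, fun t ht => by simp [ht], ?_⟩
    · by_cases h : ℓ + dist q r ≤ 0
      · simp only [h, if_true]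
        have e1 : dist q r = 0 := by linarith
        have e2 : γ 0 = q := h1 0 (by linarith)
        rw [← h0, e2]
        exact (dist_eq_zero.1 e1).symm
      · simp only [h, if_false, h0]
    · intro s t hst
      by_cases hs : ℓ + dist q r ≤ s
      · have ht : ℓ + dist q r ≤ t := hs.trans hst
        simp only [hs, ht, if_true]
        exact ⟨0, by linarith, refl⟩
      · by_cases ht : ℓ + dist q r ≤ t
        · simp only [hs, ht, if_true, if_false]
          by_cases hsl : ℓ ≤ s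
          · rw [h1 s hsl]
            exact ⟨dist q r, by linarith, single hd⟩
          · obtain ⟨ℓ', h3, h4⟩ := h2 s ℓ (le_of_not_ge hsl)
            rw [h1 ℓ le_rfl] at h4
            exact ⟨ℓ' + dist q r, by linarith, h4.step hd⟩
        · simp only [hs, ht, if_false]
          exact h2 s t hst

end Chain

/-- The chain distance from `p` to `q` is at most `L`. -/
def CLe (p q : K) (L : ℝ) : Prop := ∀ ε > 0, ∃ ℓ ≤ L + ε, Chain ε p q ℓ

namespace CLe

lemma refl (p : K) : CLe p p 0 := fun ε hε => ⟨0, by linarith, Chain.refl⟩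

lemma mono {p q : K} {L L' : ℝ} (h : CLe p q L) (hL : L ≤ L') : CLe p q L' := fun ε hε =>
  let ⟨ℓ, h1, h2⟩ := h ε hε
  ⟨ℓ, by linarith, h2⟩

lemma symm {p q : K} {L : ℝ} (h : CLe p q L) : CLe q p L := fun ε hε =>
  let ⟨ℓ, h1, h2⟩ := h ε hε
  ⟨ℓ, h1, h2.symm⟩

lemma trans {p q r : K} {L L' : ℝ} (h : CLe p q L) (h' : CLe q r L') : CLe p r (L + L') := by
  intro ε hε
  obtain ⟨ℓ, h1, h2⟩ := h (ε / 2) (by linarith)
  obtain ⟨ℓ', h1', h2'⟩ := h' (ε / 2) (by linarith)
  exact ⟨ℓ + ℓ', by linarith, (h2.trans h2').mono (by linarith)⟩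

lemma dist_le {p q : K} {L : ℝ} (h : CLe p q L) : dist p q ≤ L := by
  apply le_of_forall_pos_le_add
  intro ε hε
  obtain ⟨ℓ, h1, h2⟩ := h ε hε
  exact h2.dist_le.trans h1

lemma of_approx {p q : K} {L : ℝ}
    (h : ∀ η > 0, ∃ p' q' : K, dist p p' ≤ η ∧ dist q q' ≤ η ∧ ∃ ℓ ≤ L + η, Chain η p' q' ℓ) :
    CLe p q L := by
  intro ε hε
  obtain ⟨p', q', hp, hq, ℓ, h1, h2⟩ := h (ε / 3) (by linarith)
  have hq' : dist q' q ≤ ε / 3 := by rwa [dist_comm]
  exact ⟨dist p p' + ℓ + dist q' q, by linarith,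
    (((Chain.single hp).trans h2).step hq').mono (by linarith)⟩

lemma of_approx' {p q : K} {L : ℝ}
    (h : ∀ η > 0, ∃ p' q' : K, dist p p' ≤ η ∧ dist q q' ≤ η ∧ CLe p' q' (L + η)) :
    CLe p q L := by
  apply of_approx
  intro η hη
  obtain ⟨p', q', hp, hq, h'⟩ := h (η / 2) (by linarith)
  obtain ⟨ℓ, h1, h2⟩ := h' (η / 2) (by linarith)
  exact ⟨p', q', by linarith, by linarith, ℓ, by linarith, h2.mono (by linarith)⟩

lemma of_lipschitz (f : ℝ → K) (L : ℝ) (hL : 0 ≤ L)
    (hf : ∀ s ∈ Icc (0 : ℝ) 1, ∀ t ∈ Icc (0 : ℝ) 1, dist (f s) (f t) ≤ L * |s - t|) :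
    CLe (f 0) (f 1) L := by
  intro ε hε
  obtain ⟨n, hn⟩ := exists_nat_gt (L / ε)
  have hn0 : (0 : ℝ) < n := lt_of_le_of_lt (by positivity) hn
  have hstep : L / n ≤ ε := by
    rw [div_le_iff₀ hn0]
    rw [div_lt_iff₀ hε] at hn
    linarith
  have key : ∀ k : ℕ, k ≤ n → ∃ ℓ ≤ L * (k / n), Chain ε (f 0) (f (k / n)) ℓ := by
    intro k
    induction k with
    | zero => intro _; exact ⟨0, by simp, by simpa using Chain.refl⟩
    | succ k ih =>
      intro hk
      obtain ⟨ℓ, h1, h2⟩ := ih (by omega)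
      have hk' : ((k + 1 : ℕ) : ℝ) ≤ n := by exact_mod_cast hk
      have hk'' : (k : ℝ) ≤ n := by push_cast at hk'; linarith
      have hd : dist (f (k / n)) (f ((k + 1 : ℕ) / n)) ≤ L / n := by
        refine (hf _ ⟨by positivity, (div_le_one hn0).2 hk''⟩ _
          ⟨by positivity, (div_le_one hn0).2 hk'⟩).trans (le_of_eq ?_)
        push_cast
        rw [show (k : ℝ) / n - (k + 1) / n = -(1 / n) by ring, abs_neg,
          abs_of_nonneg (by positivity)]
        ring
      refine ⟨_, ?_, h2.step (hd.trans hstep)⟩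
      have : L * (((k + 1 : ℕ) : ℝ) / n) = L * (k / n) + L / n := by push_cast; ring
      linarith
  obtain ⟨ℓ, h1, h2⟩ := key n le_rfl
  rw [div_self hn0.ne'] at h1 h2
  exact ⟨ℓ, by linarith, h2⟩

end CLe

/-- The chain distance. -/
noncomputable def cdist (p q : K) : ℝ := sInf {L | CLe p q L}

lemma cdist_le {p q : K} {L : ℝ} (h : CLe p q L) : cdist p q ≤ L :=
  csInf_le ⟨dist p q, fun _ hL => CLe.dist_le hL⟩ h

lemma cle_cdist {p q : K} (h : ∃ L, CLe p q L) : CLe p q (cdist p q) := by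
  apply CLe.of_approx'
  intro η hη
  refine ⟨p, q, by simpa using hη.le, by simpa using hη.le, ?_⟩
  obtain ⟨L, hL, hlt⟩ := exists_lt_of_csInf_lt (s := {L | CLe p q L}) h
    (show cdist p q < cdist p q + η by linarith)
  exact CLe.mono hL hlt.le

/-- The space `K` with the chain metric. -/
def Intr (K : Type*) [MetricSpace K] (_ : ∀ p q : K, ∃ L, CLe p q L) : Type _ := K

namespace Intr

variable {hB : ∀ p q : K, ∃ L, CLe p q L}

/-- the underlying point -/
def pt (x : Intr K hB) : K := x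

/-- the point in the new space -/
def mk (hB : ∀ p q : K, ∃ L, CLe p q L) (x : K) : Intr K hB := x

noncomputable instance : MetricSpace (Intr K hB) where
  dist x y := cdist x.pt y.pt
  dist_self x := le_antisymm (cdist_le (CLe.refl _))
    (le_trans dist_nonneg (cle_cdist (hB _ _)).dist_le)
  dist_comm x y := le_antisymm (cdist_le (cle_cdist (hB _ _)).symm)
    (cdist_le (cle_cdist (hB _ _)).symm)
  dist_triangle x y z := cdist_le ((cle_cdist (hB _ _)).trans (cle_cdist (hB _ _)))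
  eq_of_dist_eq_zero {x y} h := by
    have h1 : dist x.pt y.pt ≤ 0 := h ▸ (cle_cdist (hB x.pt y.pt)).dist_le
    have h2 : x.pt = y.pt := dist_le_zero.1 h1
    exact h2

lemma dist_le_iff {x y : Intr K hB} {L : ℝ} : dist x y ≤ L ↔ CLe x.pt y.pt L :=
  ⟨fun h => (cle_cdist (hB _ _)).mono h, cdist_le⟩

lemma dist_pt_le (x y : Intr K hB) : dist x.pt y.pt ≤ dist x y :=
  (cle_cdist (hB x.pt y.pt)).dist_le

lemma lipschitz_pt : LipschitzWith 1 (pt : Intr K hB → K) :=
  LipschitzWith.of_dist_le_mul fun x y => by simpa using dist_pt_le x y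

lemma completeSpace [CompleteSpace K] : CompleteSpace (Intr K hB) := by
  apply Metric.complete_of_cauchySeq_tendsto
  intro u hu
  have hu' : CauchySeq (fun n => (u n).pt) := lipschitz_pt.uniformContinuous.comp_cauchySeq hu
  obtain ⟨a, ha⟩ := cauchySeq_tendsto_of_complete hu'
  refine ⟨mk hB a, ?_⟩
  rw [Metric.tendsto_atTop]
  intro ε hε
  obtain ⟨N, hN⟩ := Metric.cauchySeq_iff.1 hu (ε / 2) (by linarith)
  refine ⟨N, fun n hn => lt_of_le_of_lt (b := ε / 2) ?_ (by linarith)⟩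
  rw [dist_le_iff]
  apply CLe.of_approx'
  intro η hη
  obtain ⟨N', hN'⟩ := Metric.tendsto_atTop.1 ha η hη
  refine ⟨(u n).pt, (u (max N N')).pt, by simpa using hη.le, ?_, ?_⟩
  · rw [dist_comm]
    exact (hN' _ (le_max_right _ _)).le
  · rw [← dist_le_iff]
    linarith [hN n hn (max N N') (le_max_left _ _)]

lemma compactSpace [CompleteSpace K]
    (hT : ∀ η > 0, ∃ t : Set K, t.Finite ∧ ∀ p, ∃ c ∈ t, CLe p c η) :
    CompactSpace (Intr K hB) := by
  have := completeSpace (hB := hB)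
  refine ⟨isCompact_iff_totallyBounded_isComplete.2 ⟨?_, isComplete_univ⟩⟩
  rw [Metric.totallyBounded_iff]
  intro ε hε
  obtain ⟨t, ht, h⟩ := hT (ε / 2) (by linarith)
  refine ⟨mk hB '' t, ht.image _, fun x _ => ?_⟩
  obtain ⟨c, hc, h'⟩ := h x.pt
  simp only [mem_iUnion, Metric.mem_ball]
  refine ⟨mk hB c, mem_image_of_mem _ hc, lt_of_le_of_lt (b := ε / 2) ?_ (by linarith)⟩
  exact dist_le_iff.2 h'

lemma exists_geodesic [CompactSpace K] (x y : Intr K hB) :
    ∃ γ : ℝ → Intr K hB, γ 0 = x ∧ γ 1 = y ∧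
      ∀ s t, s ≤ t → dist (γ s) (γ t) ≤ dist x y * (t - s) := by
  set L := dist x y with hL
  have hL0 : 0 ≤ L := dist_nonneg
  have h1 : ∀ n : ℕ, ∃ γ : ℝ → K, γ 0 = x.pt ∧ γ (L + 1 / (n + 1)) = y.pt ∧
      ∀ s t : ℝ, s ≤ t →
        ∃ ℓ' ≤ t - s + 1 / ((n : ℝ) + 1), Chain (1 / (n + 1)) (γ s) (γ t) ℓ' := by
    intro n
    obtain ⟨ℓ, h1, h2⟩ := (dist_le_iff.1 hL.ge) (1 / (n + 1)) (by positivity)
    obtain ⟨γ, h3, h4, h5⟩ := h2.param (by positivity)
    exact ⟨γ, h3, h4 _ h1, h5⟩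
  choose g g0 g1 g2 using h1
  have hlim : ∀ t : ℝ, ∃ a : K, Tendsto (fun n : ℕ => g n (t * (L + 1 / (n + 1))))
      (hyperfilter ℕ) (𝓝 a) := by
    intro t
    obtain ⟨a, -, ha⟩ := isCompact_univ.ultrafilter_le_nhds
      ((hyperfilter ℕ).map fun n : ℕ => g n (t * (L + 1 / (n + 1)))) (by simp)
    exact ⟨a, ha⟩
  choose γ hγ using hlim
  refine ⟨fun t => mk hB (γ t), ?_, ?_, ?_⟩
  · have := hγ 0
    simp only [zero_mul, g0] at this
    exact (tendsto_nhds_unique tendsto_const_nhds this).symm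
  · have := hγ 1
    simp only [one_mul, g1] at this
    exact (tendsto_nhds_unique tendsto_const_nhds this).symm
  · intro s t hst
    rw [dist_le_iff]
    apply CLe.of_approx
    intro η hη
    have e1 := Metric.tendsto_nhds.1 (hγ s) η hη
    have e2 := Metric.tendsto_nhds.1 (hγ t) η hη
    have e3 : ∀ᶠ n : ℕ in hyperfilter ℕ, (t - s + 1) * (1 / ((n : ℝ) + 1)) < η := by
      apply Nat.hyperfilter_le_atTop
      have := tendsto_one_div_add_atTop_nhds_zero_nat (𝕜 := ℝ) |>.const_mul (t - s + 1)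
      rw [mul_zero] at this
      exact this.eventually (gt_mem_nhds hη)
    obtain ⟨n, ⟨f1, f2⟩, f3⟩ := ((e1.and e2).and e3).exists
    have hpos : (0 : ℝ) < 1 / (n + 1) := by positivity
    obtain ⟨ℓ, h1, h2⟩ := g2 n (s * (L + 1 / (n + 1))) (t * (L + 1 / (n + 1)))
      (mul_le_mul_of_nonneg_right hst (by positivity))
    refine ⟨_, _, by rw [dist_comm]; exact f1.le, by rw [dist_comm]; exact f2.le, ℓ, ?_,
      h2.mono ?_⟩
    · nlinarith
    · nlinarith

lemma isLengthSpace [CompactSpace K] : IsLengthSpace (Intr K hB) := by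
  intro x y
  refine le_antisymm (le_iInf fun γ => edist_le_curveLength γ) ?_
  obtain ⟨γ, h0, h1, h2⟩ := exists_geodesic x y
  have hlip : LipschitzWith (nndist x y) γ := by
    apply LipschitzWith.of_dist_le_mul
    intro s t
    rcases le_total s t with h | h
    · rw [Real.dist_eq, abs_of_nonpos (by linarith)]
      simpa using h2 s t h
    · rw [Real.dist_eq, abs_of_nonneg (by linarith), dist_comm]
      simpa using h2 t s h
  let P : Path x y :=
    { toFun := fun s => γ s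
      continuous_toFun := hlip.continuous.comp continuous_subtype_val
      source' := by simpa using h0
      target' := by simpa using h1 }
  refine iInf_le_of_le P ?_
  have e1 : curveLength P ≤ (nndist x y : ℝ≥0∞) *
      eVariationOn (Subtype.val : unitInterval → ℝ) univ :=
    LipschitzOnWith.comp_eVariationOn_le (hlip.lipschitzOnWith (s := univ)) (mapsTo_univ _ _)
  have e2 : eVariationOn (Subtype.val : unitInterval → ℝ) univ ≤ 1 := by
    have := MonotoneOn.eVariationOn_eq (f := (Subtype.val : unitInterval → ℝ)) (s := univ)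
      (fun a _ b _ h => h) (a := 0) (b := 1) (mem_univ _) (mem_univ _)
    have h3 : (univ ∩ Icc (0 : unitInterval) 1) = univ := by
      ext a; simp [unitInterval.le_one']
    rw [h3] at this
    simpa using this.le
  calc curveLength P ≤ (nndist x y : ℝ≥0∞) * 1 := e1.trans (by gcongr)
    _ = edist x y := by rw [mul_one, edist_nndist]

end Intr

end Pool.Agent.MP_616ade_gt
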