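import Mathlib

open scoped ENNReal Topology

namespace Pool.Agent.MP_616ade_gt

universe u

/-- The length of a curve: its total variation over the parameter interval `[0,1]`. -/
noncomputable def curveLength {X : Type*} [MetricSpace X] {x y : X} (γ : Path x y) : ℝ≥0∞ :=
  eVariationOn γ Set.univ

/-- A length space: the distance of two points is the infimum of the lengths of the curves
joining them. -/
def IsLengthSpace (X : Type*) [MetricSpace X] : Prop :=
  ∀ x y : X, edist x y = ⨅ γ : Path x y, curveLength γ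

/-- The length metric induced on a subset `S`: infimum of lengths of curves inside `S`. -/
noncomputable def inducedLengthDist {X : Type*} [MetricSpace X] (S : Set X) (x y : X) : ℝ≥0∞ :=
  ⨅ (γ : Path x y) (_ : Set.range γ ⊆ S), curveLength γ

/-- Lebesgue covering dimension at most `n`: every finite open cover has a finite open
refinement such that each point lies in at most `n + 1` of its members. -/
def CoveringDimLE (X : Type*) [TopologicalSpace X] (n : ℕ) : Prop :=
  ∀ 𝒰 : Set (Set X), 𝒰.Finite → (∀ U ∈ 𝒰, IsOpen U) → ⋃₀ 𝒰 = Set.univ →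
    ∃ 𝒱 : Set (Set X), 𝒱.Finite ∧ (∀ V ∈ 𝒱, IsOpen V) ∧ ⋃₀ 𝒱 = Set.univ ∧
      (∀ V ∈ 𝒱, ∃ U ∈ 𝒰, V ⊆ U) ∧ ∀ x : X, {V | V ∈ 𝒱 ∧ x ∈ V}.ncard ≤ n + 1

/-- Lebesgue covering dimension equal to `d`. -/
def HasCoveringDim (X : Type*) [TopologicalSpace X] (d : ℕ) : Prop :=
  IsLeast {n : ℕ | CoveringDimLE X n} d

/-- The subset `S` is isometric to a simplex of dimension at most `d` in some Minkowski space
(finite-dimensional real normed space); `S` may carry either the restricted metric or its
induced length metric. -/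
def IsMinkowskiSimplex (d : ℕ) {M : Type*} [MetricSpace M] (S : Set M) : Prop :=
  ∃ (E : Type) (_ : NormedAddCommGroup E) (_ : NormedSpace ℝ E) (_ : FiniteDimensional ℝ E)
    (k : ℕ) (_ : k ≤ d) (Δ : Affine.Simplex ℝ E k) (ψ : E → M),
    Set.BijOn ψ (convexHull ℝ (Set.range Δ.points)) S ∧
      ((∀ a ∈ convexHull ℝ (Set.range Δ.points), ∀ b ∈ convexHull ℝ (Set.range Δ.points),
          edist (ψ a) (ψ b) = edist a b) ∨
        (∀ a ∈ convexHull ℝ (Set.range Δ.points), ∀ b ∈ convexHull ℝ (Set.range Δ.points),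
          inducedLengthDist S (ψ a) (ψ b) = edist a b))

/-- A Minkowski `d`-polyhedron: a length space with a finite triangulation into simplices of
dimension at most `d`, each isometric to a simplex in some Minkowski space. -/
def IsMinkowskiPolyhedron (d : ℕ) (M : Type*) [MetricSpace M] : Prop :=
  IsLengthSpace M ∧
    ∃ (N : ℕ) (K : Geometry.SimplicialComplex ℝ (Fin N → ℝ)) (h : M ≃ₜ K.space),
      K.faces.Finite ∧ ∀ s ∈ K.faces, s.card ≤ d + 1 ∧
        IsMinkowskiSimplex d {x : M | (h x : Fin N → ℝ) ∈ convexHull ℝ (s : Set (Fin N → ℝ))}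

/-- `X` is isometric to the inverse limit of an inverse sequence of Minkowski `d`-polyhedra with
1-Lipschitz bonding maps: the set of threads with the limit of the distances. -/
def IsInverseLimitOfMinkowskiPolyhedra (d : ℕ) (X : Type*) [MetricSpace X] : Prop :=
  ∃ (M : ℕ → Type u) (_ : ∀ n, MetricSpace (M n)) (f : ∀ n, M (n + 1) → M n),
    (∀ n, IsMinkowskiPolyhedron d (M n)) ∧ (∀ n, LipschitzWith 1 (f n)) ∧
      ∃ π : X ≃ {x : ∀ n, M n // ∀ n, f n (x (n + 1)) = x n},
        ∀ x y : X, Filter.Tendsto (fun n => dist ((π x).1 n) ((π y).1 n)) Filter.atTop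
          (𝓝 (dist x y))

end Pool.Agent.MP_616ade_gt
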