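import Pool.Agent.MP_616ade_gt.Carpet

open scoped ENNReal Topology
open Set Filter

namespace Pool.Agent.MP_616ade_gt

lemma CoveringDimLE.of_homeomorph {X Y : Type*} [TopologicalSpace X] [TopologicalSpace Y]
    (e : X ≃ₜ Y) {n : ℕ} (h : CoveringDimLE Y n) : CoveringDimLE X n := by
  intro 𝒰 hfin hopen hcov
  obtain ⟨𝒱, h1, h2, h3, h4, h5⟩ := h ((fun U => e.symm ⁻¹' U) '' 𝒰) (hfin.image _)
    (by rintro _ ⟨U, hU, rfl⟩; exact (hopen U hU).preimage e.symm.continuous)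
    (by
      rw [eq_univ_iff_forall]
      intro y
      have : e.symm y ∈ ⋃₀ 𝒰 := hcov ▸ mem_univ _
      obtain ⟨U, hU, hy⟩ := this
      exact ⟨_, mem_image_of_mem _ hU, hy⟩)
  refine ⟨(fun V => e ⁻¹' V) '' 𝒱, h1.image _, ?_, ?_, ?_, ?_⟩
  · rintro _ ⟨V, hV, rfl⟩
    exact (h2 V hV).preimage e.continuous
  · rw [eq_univ_iff_forall]
    intro x
    have : e x ∈ ⋃₀ 𝒱 := h3 ▸ mem_univ _
    obtain ⟨V, hV, hx⟩ := this
    exact ⟨_, mem_image_of_mem _ hV, hx⟩
  · rintro _ ⟨V, hV, rfl⟩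
    obtain ⟨_, ⟨U, hU, rfl⟩, hVU⟩ := h4 V hV
    refine ⟨U, hU, fun x hx => ?_⟩
    simpa using hVU hx
  · intro x
    have : {V | V ∈ (fun V => e ⁻¹' V) '' 𝒱 ∧ x ∈ V} =
        (fun V => e ⁻¹' V) '' {V | V ∈ 𝒱 ∧ e x ∈ V} := by
      ext W
      constructor
      · rintro ⟨⟨V, hV, rfl⟩, hx⟩
        exact ⟨V, ⟨hV, hx⟩, rfl⟩
      · rintro ⟨V, ⟨hV, hx⟩, rfl⟩
        exact ⟨⟨V, hV, rfl⟩, hx⟩
    rw [this]
    exact (ncard_image_le (h1.subset fun V hV => hV.1)).trans (h5 (e x))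

lemma not_coveringDimLE_zero {X : Type*} [TopologicalSpace X] [T1Space X] [PreconnectedSpace X]
    {p q : X} (hpq : p ≠ q) : ¬ CoveringDimLE X 0 := by
  intro h
  obtain ⟨𝒱, h1, h2, h3, h4, h5⟩ := h {{p}ᶜ, {q}ᶜ} (toFinite _)
    (by rintro U (rfl | rfl) <;> exact isOpen_compl_singleton)
    (by
      rw [eq_univ_iff_forall]
      intro x
      by_cases hx : x = p
      · exact ⟨{q}ᶜ, by simp, by simpa [hx] using hpq⟩
      · exact ⟨{p}ᶜ, by simp, hx⟩)
  have : p ∈ ⋃₀ 𝒱 := h3 ▸ mem_univ _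
  obtain ⟨V, hV, hp⟩ := this
  have hclosed : IsClosed V := by
    rw [← isOpen_compl_iff, isOpen_iff_forall_mem_open]
    intro x hx
    have : x ∈ ⋃₀ 𝒱 := h3 ▸ mem_univ _
    obtain ⟨W, hW, hxW⟩ := this
    refine ⟨W, fun z hzW hzV => ?_, h2 W hW, hxW⟩
    have := (ncard_le_one (h1.subset fun V hV => hV.1)).1 (h5 z) V ⟨hV, hzV⟩ W ⟨hW, hzW⟩
    exact hx (this ▸ hxW)
  have huniv : V = univ := IsClopen.eq_univ ⟨hclosed, h2 V hV⟩ ⟨p, hp⟩
  obtain ⟨U, hU, hVU⟩ := h4 V hV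
  rw [huniv] at hVU
  rcases hU with rfl | rfl
  · exact hVU (mem_univ p) rfl
  · exact hVU (mem_univ q) rfl

/-- covering intervals of generation `n` -/
def JJ (n : ℕ) (i : ℤ) : Set ℝ :=
  {x | (ra n : ℝ) * i + 1 < NN (n + 1) * x ∧ NN (n + 1) * x < ra n * (i + 1) + 2}

lemma isOpen_JJ (n : ℕ) (i : ℤ) : IsOpen (JJ n i) := by
  have h1 : IsOpen {x : ℝ | (ra n : ℝ) * i + 1 < NN (n + 1) * x} :=
    isOpen_lt (by fun_prop) (by fun_prop)
  have h2 : IsOpen {x : ℝ | NN (n + 1) * x < (ra n : ℝ) * (i + 1) + 2} :=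
    isOpen_lt (by fun_prop) (by fun_prop)
  exact h1.inter h2

lemma exists_JJ (n : ℕ) {x : ℝ} (hx : x ∈ Icc (0 : ℝ) 1) :
    ∃ i ∈ Icc (-1 : ℤ) (NN n), x ∈ JJ n i := by
  have ha := ra_geR n
  have hN := NN_posR n
  have ha0 : (0 : ℝ) < ra n := by linarith
  set u : ℝ := (NN (n + 1) * x - 3 / 2) / ra n with hu
  have hu' : (ra n : ℝ) * u = NN (n + 1) * x - 3 / 2 := by rw [hu]; field_simp
  have h1 := Int.floor_le u
  have h2 := Int.lt_floor_add_one u
  have h3 : (0 : ℝ) ≤ NN (n + 1) * x := mul_nonneg (NN_posR _).le hx.1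
  have h4 : (NN (n + 1) : ℝ) * x ≤ ra n * NN n := by
    rw [← NN_succR]; nlinarith [NN_posR (n + 1), hx.2]
  refine ⟨⌊u⌋, ⟨?_, ?_⟩, ?_, ?_⟩
  · rw [Int.le_floor]
    push_cast
    nlinarith
  · have : (⌊u⌋ : ℝ) ≤ NN n := by nlinarith
    exact_mod_cast this
  · nlinarith
  · nlinarith

lemma JJ_two {n : ℕ} {x : ℝ} {i i' : ℤ} (h : x ∈ JJ n i) (h' : x ∈ JJ n i') (hlt : i < i') :
    i' = i + 1 ∧ x ∈ Hole n := by
  have ha := ra_geR n
  have h1 : (ra n : ℝ) * i' + 1 < ra n * (i + 1) + 2 := h'.1.trans h.2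
  have h2 : i' = i + 1 := by
    by_contra hne
    have : i + 2 ≤ i' := by omega
    have : (i : ℝ) + 2 ≤ i' := by exact_mod_cast this
    nlinarith
  refine ⟨h2, i', h'.1, ?_⟩
  rw [h2]; push_cast
  exact h.2

lemma JJ_unique {n : ℕ} {x : ℝ} {i i' : ℤ} (hx : x ∉ Hole n) (h : x ∈ JJ n i)
    (h' : x ∈ JJ n i') : i = i' := by
  rcases lt_trichotomy i i' with hlt | heq | hlt
  · exact absurd (JJ_two h h' hlt).2 hx
  · exact heq
  · exact absurd (JJ_two h' h hlt).2 hx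

lemma JJ_pair (n : ℕ) (x : ℝ) : ∃ k : ℤ, ∀ i, x ∈ JJ n i → i = k ∨ i = k + 1 := by
  by_cases h : ∃ i i', x ∈ JJ n i ∧ x ∈ JJ n i' ∧ i < i'
  · obtain ⟨i, i', h1, h2, h3⟩ := h
    have e := (JJ_two h1 h2 h3).1
    refine ⟨i, fun j hj => ?_⟩
    rcases lt_trichotomy j i with hlt | heq | hlt
    · have := (JJ_two hj h2 (by omega)).1
      omega
    · exact Or.inl heq
    · exact Or.inr (JJ_two h1 hj hlt).1
  · push Not at h
    by_cases h0 : ∃ i, x ∈ JJ n i
    · obtain ⟨i, hi⟩ := h0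
      exact ⟨i, fun j hj => Or.inl (le_antisymm (h i j hi hj) (h j i hj hi))⟩
    · exact ⟨0, fun j hj => absurd ⟨j, hj⟩ h0⟩

lemma JJ_diam {n : ℕ} {x x' : ℝ} {i : ℤ} (h : x ∈ JJ n i) (h' : x' ∈ JJ n i) :
    |x - x'| ≤ 2 * (1 / NN n) := by
  have ha := ra_geR n
  have hN := NN_posR n
  obtain ⟨h1, h2⟩ := h
  obtain ⟨h3, h4⟩ := h'
  rw [NN_succR] at h1 h2 h3 h4
  have key : ∀ s : ℝ, (ra n : ℝ) * NN n * s < ra n + 1 → s ≤ 2 * (1 / NN n) := by
    intro s hs
    rw [← mul_div_assoc, le_div_iff₀ hN]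
    by_contra hc
    push Not at hc
    nlinarith
  rw [abs_le]
  constructor
  · have := key (x' - x) (by nlinarith)
    linarith
  · exact key (x - x') (by nlinarith)

theorem coveringDimLE_carpet : CoveringDimLE Carpet 1 := by
  intro 𝒰 hfin hopen hcov
  obtain ⟨δ, hδ, hleb⟩ := lebesgue_number_lemma_of_metric_sUnion (s := (univ : Set Carpet))
    isCompact_univ hopen (hcov ▸ subset_rfl)
  obtain ⟨n, hn⟩ := exists_NN (δ / 5) (by linarith)
  have hn := hn n le_rfl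
  let W : ℤ × ℤ → Set Carpet := fun ij => {p | p.1.fst ∈ JJ n ij.1 ∧ p.1.snd ∈ JJ n ij.2}
  let I : Set (ℤ × ℤ) := Icc (-1 : ℤ) (NN n) ×ˢ Icc (-1 : ℤ) (NN n)
  have hI : I.Finite := (finite_Icc _ _).prod (finite_Icc _ _)
  refine ⟨W '' {ij | ij ∈ I ∧ (W ij).Nonempty}, (hI.subset fun _ h => h.1).image _, ?_, ?_, ?_, ?_⟩
  · rintro _ ⟨ij, -, rfl⟩
    exact ((isOpen_JJ n ij.1).preimage
      ((WithLp.continuous_fst 1 ℝ ℝ).comp continuous_subtype_val)).inter
      ((isOpen_JJ n ij.2).preimage ((WithLp.continuous_snd 1 ℝ ℝ).comp continuous_subtype_val))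
  · rw [eq_univ_iff_forall]
    intro p
    obtain ⟨i, hi, hx⟩ := exists_JJ n p.2.1
    obtain ⟨j, hj, hy⟩ := exists_JJ n p.2.2.1
    exact ⟨W (i, j), ⟨(i, j), ⟨⟨hi, hj⟩, p, hx, hy⟩, rfl⟩, hx, hy⟩
  · rintro _ ⟨ij, ⟨-, p, hp⟩, rfl⟩
    obtain ⟨U, hU, hball⟩ := hleb p (mem_univ _)
    refine ⟨U, hU, fun q hq => hball ?_⟩
    rw [Metric.mem_ball, Subtype.dist_eq, WithLp.prod_dist_eq_of_L1, Real.dist_eq, Real.dist_eq]
    have := JJ_diam hq.1 hp.1
    have := JJ_diam hq.2 hp.2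
    linarith
  · intro p
    have hsub : ∃ a b : ℤ × ℤ, ∀ ij, p ∈ W ij → ij = a ∨ ij = b := by
      obtain ⟨i, -, hx⟩ := exists_JJ n p.2.1
      obtain ⟨j, -, hy⟩ := exists_JJ n p.2.2.1
      rcases p.2.2.2 n with h | h
      · obtain ⟨k, hk⟩ := JJ_pair n p.1.snd
        refine ⟨(i, k), (i, k + 1), ?_⟩
        rintro ⟨i', j'⟩ hij
        have e := JJ_unique h hx hij.1
        rcases hk j' hij.2 with e' | e'
        · left; simp only at e; rw [e, e']
        · right; simp only at e; rw [e, e']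
      · obtain ⟨k, hk⟩ := JJ_pair n p.1.fst
        refine ⟨(k, j), (k + 1, j), ?_⟩
        rintro ⟨i', j'⟩ hij
        have e := JJ_unique h hy hij.2
        rcases hk i' hij.1 with e' | e'
        · left; simp only at e; rw [e, e']
        · right; simp only at e; rw [e, e']
    obtain ⟨a, b, hab⟩ := hsub
    have : {V | V ∈ W '' {ij | ij ∈ I ∧ (W ij).Nonempty} ∧ p ∈ V} ⊆ {W a, W b} := by
      rintro _ ⟨⟨ij, -, rfl⟩, hp⟩
      rcases hab ij hp with rfl | rfl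
      · left; rfl
      · right; rfl
    refine (ncard_le_ncard this (toFinite _)).trans ?_
    exact (ncard_insert_le _ _).trans (by simp)

open Classical in
/-- good indices of generation `m` -/
noncomputable def Good (m : ℕ) : Finset ℤ :=
  (Finset.Ico (0 : ℤ) (NN m)).filter fun k =>
    ∀ n < m, ∀ t : ℝ, (k : ℝ) ≤ NN m * t → NN m * t ≤ k + 1 → t ∉ Hole n

lemma card_good_succ (m : ℕ) : (ra m - 1) * (Good m).card ≤ (Good (m + 1)).card := by
  classical
  have ha := ra_ge m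
  have haR := ra_geR m
  have hN := NN_posR m
  have hc : (((Finset.Ico (0 : ℤ) (ra m)).erase 1) ×ˢ Good m).card
      = (ra m - 1) * (Good m).card := by
    rw [Finset.card_product, Finset.card_erase_of_mem (by simp; omega), Int.card_Ico]
    simp
  rw [← hc]
  refine Finset.card_le_card_of_injOn (fun rk => ra m * rk.2 + rk.1) ?_ ?_
  · rintro ⟨r, k⟩ hrk
    simp only [Finset.coe_product, Finset.coe_erase, Finset.coe_Ico, mem_prod, Set.mem_sdiff, mem_Ico,
      mem_singleton_iff, Finset.mem_coe, Good, Finset.mem_filter, Finset.mem_Ico] at hrk ⊢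
    obtain ⟨⟨⟨hr0, hr1⟩, hr2⟩, ⟨hk0, hk1⟩, hk⟩ := hrk
    refine ⟨⟨by positivity, ?_⟩, ?_⟩
    · simp only [NN]
      push_cast
      have : (0 : ℤ) ≤ ra m := by positivity
      nlinarith
    · intro n hn t h1 h2
      rw [NN_succR] at h1 h2
      push_cast at h1 h2
      have hr0' : (0 : ℝ) ≤ r := by exact_mod_cast hr0
      have hr1' : (r : ℝ) + 1 ≤ ra m := by exact_mod_cast hr1
      rcases Nat.lt_succ_iff_lt_or_eq.1 hn with hn | rfl
      · apply hk n hn t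
        · by_contra hc
          push Not at hc
          nlinarith
        · by_contra hc
          push Not at hc
          nlinarith
      · rintro ⟨i, h3, h4⟩
        rw [NN_succR] at h3 h4
        have h5 : (ra n : ℤ) * i + 1 < ra n * k + r + 1 := by
          have : (ra n : ℝ) * i + 1 < ra n * k + r + 1 := by linarith
          exact_mod_cast this
        have h6 : (ra n : ℤ) * k + r < ra n * i + 2 := by
          have : (ra n : ℝ) * k + r < ra n * i + 2 := by linarith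
          exact_mod_cast this
        have h7 : (ra n : ℤ) * (i - k) = r - 1 := by
          have : (ra n : ℤ) * k + r = ra n * i + 1 := by omega
          linarith
        have ha' : (8 : ℤ) ≤ ra n := by exact_mod_cast ha
        rcases lt_trichotomy (i - k) 0 with h | h | h
        · nlinarith
        · rw [h] at h7; omega
        · nlinarith
  · rintro ⟨r, k⟩ hrk ⟨r', k'⟩ hrk' heq
    simp only [Finset.coe_product, Finset.coe_erase, Finset.coe_Ico, mem_prod, Set.mem_sdiff, mem_Ico,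
      mem_singleton_iff] at hrk hrk' heq
    have h7 : (ra m : ℤ) * (k - k') = r' - r := by linarith
    have hk : k = k' := by
      rcases lt_trichotomy (k - k') 0 with h | h | h
      · nlinarith [hrk.1.1.1, hrk.1.1.2, hrk'.1.1.1, hrk'.1.1.2]
      · omega
      · nlinarith [hrk.1.1.1, hrk.1.1.2, hrk'.1.1.1, hrk'.1.1.2]
    subst hk
    have : r = r' := by linarith
    rw [this]

lemma card_good (m : ℕ) : (NN m : ℝ) * (1 / 2 + 1 / 2 ^ (m + 1)) ≤ (Good m).card := by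
  induction m with
  | zero =>
    have : Good 0 = {0} := by
      ext k; simp [Good, NN]; omega
    rw [this]; simp [NN]; norm_num
  | succ m ih =>
    have h1 := card_good_succ m
    have ha := ra_ge m
    have h2 : ((ra m : ℝ) - 1) * (Good m).card ≤ (Good (m + 1)).card := by
      have : (((ra m - 1 : ℕ) : ℝ)) = (ra m : ℝ) - 1 := by
        rw [Nat.cast_sub (by omega)]; simp
      rw [← this]
      exact_mod_cast h1
    have hN := NN_posR m
    have haR := ra_geR m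
    have e : (ra m : ℝ) = 8 * 2 ^ m := by unfold ra; push_cast; ring
    have hp : (1 : ℝ) ≤ 2 ^ m := one_le_pow₀ (by norm_num)
    have h3 : (ra m : ℝ) * (1 / 2 + 1 / 2 ^ (m + 1 + 1)) ≤
        (ra m - 1) * (1 / 2 + 1 / 2 ^ (m + 1)) := by
      rw [e, pow_succ, pow_succ]
      have hp0 : (0 : ℝ) < 2 ^ m := by positivity
      set u : ℝ := 2 ^ m
      have : (8 * u - 1) * (1 / 2 + 1 / (u * 2)) - 8 * u * (1 / 2 + 1 / (u * 2 * 2))
          = (3 * u - 1) / (2 * u) := by field_simp; ring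
      have h : 0 ≤ (3 * u - 1) / (2 * u) := div_nonneg (by linarith) (by linarith)
      linarith
    rw [NN_succR]
    calc (ra m : ℝ) * NN m * (1 / 2 + 1 / 2 ^ (m + 1 + 1))
        = NN m * (ra m * (1 / 2 + 1 / 2 ^ (m + 1 + 1))) := by ring
      _ ≤ NN m * ((ra m - 1) * (1 / 2 + 1 / 2 ^ (m + 1))) := by gcongr
      _ = (ra m - 1) * (NN m * (1 / 2 + 1 / 2 ^ (m + 1))) := by ring
      _ ≤ (ra m - 1) * (Good m).card := by gcongr; linarith
      _ ≤ _ := h2

lemma good_isC {m : ℕ} {k : ℤ} (hk : k ∈ Good m) :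
    IsC ((k : ℝ) / NN m) ∧ IsC (((k + 1 : ℤ) : ℝ) / NN m) ∧ 0 ≤ k ∧ k < NN m := by
  classical
  simp only [Good, Finset.mem_filter, Finset.mem_Ico] at hk
  obtain ⟨⟨h0, h1⟩, h2⟩ := hk
  have hN := NN_posR m
  have h0' : (0 : ℝ) ≤ k := by exact_mod_cast h0
  have h1' : (k : ℝ) + 1 ≤ NN m := by exact_mod_cast h1
  have e : ∀ c : ℝ, (NN m : ℝ) * (c / NN m) = c := fun c => by field_simp
  refine ⟨⟨⟨by positivity, (div_le_one hN).2 (by linarith)⟩, fun n => ?_⟩,
    ⟨⟨by push_cast; positivity, (div_le_one hN).2 (by push_cast; linarith)⟩, fun n => ?_⟩, h0, h1⟩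
  · rcases lt_or_ge n m with hn | hn
    · exact h2 n hn _ (by rw [e]) (by rw [e]; linarith)
    · exact IsGrid.not_hole (m := m) ⟨k, e _⟩ (by omega)
  · rcases lt_or_ge n m with hn | hn
    · exact h2 n hn _ (by rw [e]; push_cast; linarith) (by rw [e]; push_cast; linarith)
    · exact IsGrid.not_hole (m := m) ⟨k + 1, e _⟩ (by omega)

end Pool.Agent.MP_616ade_gt
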