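import Mathlib

namespace Pool.Agent.MP_616ade_gt

open Finset

/-- Small quadrilaterals have short diagonals (a weak four point condition). -/
def SmallQuad (M : Type*) [PseudoMetricSpace M] (r : ℝ) : Prop :=
  ∀ δ : ℝ, δ ≤ r → ∀ a b c d : M, dist a b ≤ δ → dist b c ≤ δ → dist c d ≤ δ → dist d a ≤ δ →
    dist a c + dist b d ≤ 2 * δ

lemma line_deficit_aux {M : Type*} [PseudoMetricSpace M] (P : ℤ → M) (T : Set ℤ) (L : ℝ)
    (hup : ∀ i ∈ T, ∀ j ∈ T, i ≤ j → dist (P i) (P j) ≤ L * ((j : ℝ) - i))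
    (G : Finset ℤ) :
    (∀ i ∈ G, i ∈ T ∧ i + 1 ∈ T) → ∀ i0 ∈ T, (∀ i ∈ G, i0 ≤ i) → ∀ j ∈ T, i0 ≤ j →
      (∀ i ∈ G, i + 1 ≤ j) →
      dist (P i0) (P j) + ∑ i ∈ G, (L - dist (P i) (P (i + 1))) ≤ L * ((j : ℝ) - i0) := by
  induction G using Finset.induction_on_max with
  | empty =>
    intro _ i0 hi0 _ j hj hij _
    simpa using hup i0 hi0 j hj hij
  | insert m G hm ih =>
    intro hG i0 hi0 hle j hj hij hge
    have hmG : m ∉ G := fun h => lt_irrefl _ (hm m h)
    rw [Finset.sum_insert hmG]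
    have hmT := hG m (mem_insert_self _ _)
    have h1 := ih (fun i hi => hG i (mem_insert_of_mem hi)) i0 hi0
      (fun i hi => hle i (mem_insert_of_mem hi)) m hmT.1 (hle m (mem_insert_self _ _))
      (fun i hi => hm i hi)
    have h2 := hup (m + 1) hmT.2 j hj (hge m (mem_insert_self _ _))
    have h3 : dist (P i0) (P j) ≤ dist (P i0) (P m) + dist (P m) (P (m + 1))
        + dist (P (m + 1)) (P j) := dist_triangle4 _ _ _ _
    push_cast at h2
    nlinarith

lemma line_deficit {M : Type*} [PseudoMetricSpace M] (P : ℤ → M) (T : Set ℤ) (L ε : ℝ)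
    (hε : 0 ≤ ε)
    (hup : ∀ i ∈ T, ∀ j ∈ T, i ≤ j → dist (P i) (P j) ≤ L * ((j : ℝ) - i))
    (hlow : ∀ i ∈ T, ∀ j ∈ T, i ≤ j → L * ((j : ℝ) - i) - ε ≤ dist (P i) (P j))
    (G : Finset ℤ) (hG : ∀ i ∈ G, i ∈ T ∧ i + 1 ∈ T) :
    ∑ i ∈ G, (L - dist (P i) (P (i + 1))) ≤ ε := by
  rcases G.eq_empty_or_nonempty with rfl | hne
  · simpa using hε
  have h0 := hG _ (G.min'_mem hne)
  have h1 := hG _ (G.max'_mem hne)
  have hle : G.min' hne ≤ G.max' hne + 1 := by
    have := G.min'_le_max' hne
    omega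
  have h := line_deficit_aux P T L hup G hG (G.min' hne) h0.1 (fun i hi => G.min'_le i hi)
    (G.max' hne + 1) h1.2 hle (fun i hi => by have := G.le_max' i hi; omega)
  have h' := hlow _ h0.1 _ h1.2 hle
  linarith

/-- The counting argument. -/
lemma grid_obstruction {M : Type*} [PseudoMetricSpace M] {r : ℝ} (hM : SmallQuad M r)
    (N : ℕ) (δ ε : ℝ) (hδr : δ ≤ r) (hε : 0 ≤ ε)
    (T : Set ℤ) (G : Finset ℤ) (hG : ∀ i ∈ G, i ∈ T ∧ i + 1 ∈ T)
    (hGN : ∀ i ∈ G, 0 ≤ i ∧ i < N)
    (F : ℤ → ℤ → M)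
    (hup : ∀ i ∈ T, ∀ j ∈ T, ∀ i' ∈ T, ∀ j' ∈ T,
      dist (F i j) (F i' j') ≤ δ * (|(i : ℝ) - i'| + |(j : ℝ) - j'|))
    (hlow : ∀ i ∈ T, ∀ j ∈ T, ∀ i' ∈ T, ∀ j' ∈ T,
      δ * (|(i : ℝ) - i'| + |(j : ℝ) - j'|) - ε ≤ dist (F i j) (F i' j')) :
    2 * δ * (G.card : ℝ) ^ 2 ≤ 4 * N * ε := by
  classical
  -- deficits
  set φ : ℤ × ℤ → ℝ := fun p => 2 * δ - dist (F p.1 p.2) (F (p.1 + 1) (p.2 + 1)) with hφ
  set ψ : ℤ × ℤ → ℝ := fun p => 2 * δ - dist (F p.1 (p.2 + 1)) (F (p.1 + 1) p.2) with hψ
  have hsq : ∀ p ∈ G ×ˢ G, 2 * δ ≤ φ p + ψ p := by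
    rintro ⟨i, j⟩ hp
    rw [mem_product] at hp
    obtain ⟨hi, hi1⟩ := hG i hp.1
    obtain ⟨hj, hj1⟩ := hG j hp.2
    have e1 := hup i hi j hj (i + 1) hi1 j hj
    have e2 := hup (i + 1) hi1 j hj (i + 1) hi1 (j + 1) hj1
    have e3 := hup (i + 1) hi1 (j + 1) hj1 i hi (j + 1) hj1
    have e4 := hup i hi (j + 1) hj1 i hi j hj
    push_cast at e1 e2 e3 e4
    simp at e1 e2 e3 e4
    have := hM δ hδr _ _ _ _ e1 e2 e3 e4
    simp only [hφ, hψ]
    rw [dist_comm (F i (j + 1))]
    linarith
  have hA : ∑ p ∈ G ×ˢ G, φ p ≤ 2 * N * ε := by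
    rw [← Finset.sum_fiberwise_of_maps_to (s := G ×ˢ G) (t := Finset.Ico (-(N : ℤ)) N)
      (g := fun p => p.2 - p.1)]
    · have hb : ∀ k ∈ Finset.Ico (-(N : ℤ)) N,
          ∑ p ∈ (G ×ˢ G) with p.2 - p.1 = k, φ p ≤ ε := by
        intro k _
        have := line_deficit (fun i => F i (i + k)) {i | i ∈ T ∧ i + k ∈ T} (2 * δ) ε hε
          (by
            rintro i ⟨hi, hik⟩ j ⟨hj, hjk⟩ hij
            have h := hup i hi _ hik j hj _ hjk
            have hij' : (i : ℝ) ≤ j := by exact_mod_cast hij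
            push_cast at h
            rw [show (i : ℝ) + k - (j + k) = i - j by ring, abs_of_nonpos (by linarith)] at h
            linarith)
          (by
            rintro i ⟨hi, hik⟩ j ⟨hj, hjk⟩ hij
            have h := hlow i hi _ hik j hj _ hjk
            have hij' : (i : ℝ) ≤ j := by exact_mod_cast hij
            push_cast at h
            rw [show (i : ℝ) + k - (j + k) = i - j by ring, abs_of_nonpos (by linarith)] at h
            linarith)
          (G.filter fun i => i + k ∈ G)
          (by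
            intro i hi
            rw [mem_filter] at hi
            refine ⟨⟨(hG i hi.1).1, (hG _ hi.2).1⟩, (hG i hi.1).2, ?_⟩
            have := (hG _ hi.2).2
            rwa [show i + 1 + k = i + k + 1 by ring])
        refine le_trans (le_of_eq ?_) this
        refine Finset.sum_nbij' (fun p => p.1) (fun i => (i, i + k)) ?_ ?_ ?_ ?_ ?_
        · rintro ⟨i, j⟩ hp
          simp only [mem_filter, mem_product] at hp ⊢
          refine ⟨hp.1.1, ?_⟩
          have : i + k = j := by omega
          rw [this]; exact hp.1.2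
        · intro i hi
          simp only [mem_filter, mem_product] at hi ⊢
          exact ⟨⟨hi.1, hi.2⟩, by ring⟩
        · rintro ⟨i, j⟩ hp
          simp only [mem_filter, mem_product] at hp
          have : i + k = j := by omega
          simp [this]
        · intro i _; rfl
        · rintro ⟨i, j⟩ hp
          simp only [mem_filter, mem_product] at hp
          have : i + k = j := by omega
          subst this
          simp only [hφ]
          rw [show i + 1 + k = i + k + 1 by ring]
      calc _ ≤ ∑ k ∈ Finset.Ico (-(N : ℤ)) N, ε := Finset.sum_le_sum hb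
        _ = 2 * N * ε := by
          rw [Finset.sum_const, Int.card_Ico, nsmul_eq_mul]
          have : ((N : ℤ) - -(N : ℤ)).toNat = 2 * N := by omega
          rw [this]; push_cast; ring
    · rintro ⟨i, j⟩ hp
      rw [mem_product] at hp
      have := hGN i hp.1
      have := hGN j hp.2
      simp only [mem_Ico]
      omega
  have hB : ∑ p ∈ G ×ˢ G, ψ p ≤ 2 * N * ε := by
    rw [← Finset.sum_fiberwise_of_maps_to (s := G ×ˢ G) (t := Finset.Ico (0 : ℤ) (2 * N))
      (g := fun p => p.2 + p.1 + 1)]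
    · have hb : ∀ k ∈ Finset.Ico (0 : ℤ) (2 * N),
          ∑ p ∈ (G ×ˢ G) with p.2 + p.1 + 1 = k, ψ p ≤ ε := by
        intro k _
        have := line_deficit (fun i => F i (k - i)) {i | i ∈ T ∧ k - i ∈ T} (2 * δ) ε hε
          (by
            rintro i ⟨hi, hik⟩ j ⟨hj, hjk⟩ hij
            have h := hup i hi _ hik j hj _ hjk
            have hij' : (i : ℝ) ≤ j := by exact_mod_cast hij
            push_cast at h
            rw [show (k : ℝ) - i - (k - j) = j - i by ring, abs_of_nonpos (by linarith),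
              abs_of_nonneg (by linarith)] at h
            linarith)
          (by
            rintro i ⟨hi, hik⟩ j ⟨hj, hjk⟩ hij
            have h := hlow i hi _ hik j hj _ hjk
            have hij' : (i : ℝ) ≤ j := by exact_mod_cast hij
            push_cast at h
            rw [show (k : ℝ) - i - (k - j) = j - i by ring, abs_of_nonpos (by linarith),
              abs_of_nonneg (by linarith)] at h
            linarith)
          (G.filter fun i => k - i - 1 ∈ G)
          (by
            intro i hi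
            rw [mem_filter] at hi
            refine ⟨⟨(hG i hi.1).1, ?_⟩, (hG i hi.1).2, ?_⟩
            · have := (hG _ hi.2).2
              rwa [show k - i - 1 + 1 = k - i by ring] at this
            · have := (hG _ hi.2).1
              rwa [show k - (i + 1) = k - i - 1 by ring])
        refine le_trans (le_of_eq ?_) this
        refine Finset.sum_nbij' (fun p => p.1) (fun i => (i, k - i - 1)) ?_ ?_ ?_ ?_ ?_
        · rintro ⟨i, j⟩ hp
          simp only [mem_filter, mem_product] at hp ⊢
          refine ⟨hp.1.1, ?_⟩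
          have : k - i - 1 = j := by omega
          rw [this]; exact hp.1.2
        · intro i hi
          simp only [mem_filter, mem_product] at hi ⊢
          exact ⟨⟨hi.1, hi.2⟩, by ring⟩
        · rintro ⟨i, j⟩ hp
          simp only [mem_filter, mem_product] at hp
          have : k - i - 1 = j := by omega
          simp [this]
        · intro i _; rfl
        · rintro ⟨i, j⟩ hp
          simp only [mem_filter, mem_product] at hp
          have h1 : k - i = j + 1 := by omega
          have h2 : k - (i + 1) = j := by omega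
          simp only [hψ]
          rw [h1, h2]
      calc _ ≤ ∑ k ∈ Finset.Ico (0 : ℤ) (2 * N), ε := Finset.sum_le_sum hb
        _ = 2 * N * ε := by
          rw [Finset.sum_const, Int.card_Ico, nsmul_eq_mul]
          have : (2 * (N : ℤ) - 0).toNat = 2 * N := by omega
          rw [this]; push_cast; ring
    · rintro ⟨i, j⟩ hp
      rw [mem_product] at hp
      have := hGN i hp.1
      have := hGN j hp.2
      simp only [mem_Ico]
      omega
  have hC : ∑ p ∈ G ×ˢ G, (2 * δ) ≤ ∑ p ∈ G ×ˢ G, (φ p + ψ p) := Finset.sum_le_sum hsq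
  rw [Finset.sum_add_distrib, Finset.sum_const, Finset.card_product, nsmul_eq_mul] at hC
  push_cast at hC
  nlinarith

end Pool.Agent.MP_616ade_gt
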