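import Pool.Agent.MP_616ade_gt.Defs
import Pool.Agent.MP_616ade_gt.Obstruct

open scoped ENNReal Topology
open Set

namespace Pool.Agent.MP_616ade_gt

variable {M : Type*} [MetricSpace M]

lemma edist_le_curveLength {x y : M} (γ : Path x y) : edist x y ≤ curveLength γ := by
  have := eVariationOn.edist_le γ (s := univ) (mem_univ 0) (mem_univ 1)
  simpa [curveLength] using this

lemma edist_le_inducedLengthDist (S : Set M) (x y : M) :
    edist x y ≤ inducedLengthDist S x y :=
  le_iInf fun γ => le_iInf fun _ => edist_le_curveLength γ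

/-- The initial piece of a path. -/
noncomputable def initialPath {x y : M} (γ : Path x y) (t : unitInterval) : Path x (γ t) where
  toFun s := γ (min s t)
  continuous_toFun := γ.continuous.comp (continuous_id.min continuous_const)
  source' := by simp
  target' := by
    have : min (1 : unitInterval) t = t := min_eq_right unitInterval.le_one'
    simp [this]

lemma split_length {x y : M} (γ : Path x y) (t : unitInterval) (S : Set M)
    (hS : ∀ s ≤ t, γ s ∈ S) :
    inducedLengthDist S x (γ t) + edist (γ t) y ≤ curveLength γ := by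
  have h1 : inducedLengthDist S x (γ t) ≤ eVariationOn γ (Iic t) := by
    refine le_trans (iInf_le_of_le (initialPath γ t) (iInf_le_of_le ?_ le_rfl)) ?_
    · rintro _ ⟨s, rfl⟩
      exact hS _ (min_le_right _ _)
    · exact eVariationOn.comp_le_of_monotoneOn γ (s := Iic t) (t := univ) (fun s => min s t)
        (fun a _ b _ hab => min_le_min_right _ hab) (fun s _ => mem_Iic.2 (min_le_right _ _))
  have h2 : edist (γ t) y ≤ eVariationOn γ (Ici t) := by
    have := eVariationOn.edist_le γ (s := Ici t) (x := t) (y := 1) (mem_Ici.2 le_rfl)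
      (mem_Ici.2 unitInterval.le_one')
    simpa using this
  calc _ ≤ eVariationOn γ (Iic t) + eVariationOn γ (Ici t) := add_le_add h1 h2
    _ ≤ eVariationOn γ (Iic t ∪ Ici t) :=
      eVariationOn.add_le_union γ (fun a ha b hb => le_trans ha hb)
    _ = curveLength γ := by rw [Iic_union_Ici]; rfl

/-- A path which starts in a closed set `S` and leaves it passes through a point of `S ∩ R`,
where `R` is any closed set containing the complement of `S`. -/
lemma exists_exit {x y : M} (γ : Path x y) (S R : Set M) (hS : IsClosed S) (hR : IsClosed R)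
    (hSR : ∀ z, z ∉ S → z ∈ R) (hx : x ∈ S) (hγ : ¬ range γ ⊆ S) :
    ∃ t : unitInterval, (∀ s ≤ t, γ s ∈ S) ∧ γ t ∈ R := by
  set A : Set unitInterval := {t | γ t ∉ S} with hA
  have hne : A.Nonempty := by
    rw [range_subset_iff] at hγ
    push Not at hγ
    exact hγ
  refine ⟨sInf A, ?_, ?_⟩
  · have hlt : ∀ s < sInf A, γ s ∈ S := by
      intro s hs
      by_contra h
      exact absurd (sInf_le (show s ∈ A from h)) (not_le.2 hs)
    intro s hs
    rcases hs.lt_or_eq with h | h
    · exact hlt s h
    · by_cases h0 : s = 0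
      · rw [h0]; simpa using hx
      · have hpos : (0 : unitInterval) < s := lt_of_le_of_ne unitInterval.nonneg' (Ne.symm h0)
        have hcl : IsClosed (γ ⁻¹' S) := hS.preimage γ.continuous
        have hsub : Ico (0 : unitInterval) s ⊆ γ ⁻¹' S := fun a ha => hlt a (h ▸ ha.2)
        have : s ∈ closure (Ico (0 : unitInterval) s) := by
          rw [closure_Ico hpos.ne]
          exact ⟨hpos.le, le_rfl⟩
        exact hcl.closure_subset_iff.2 hsub this
  · have hcl : IsClosed (γ ⁻¹' R) := hR.preimage γ.continuous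
    have hsub : A ⊆ γ ⁻¹' R := fun a ha => hSR _ ha
    exact hcl.closure_subset_iff.2 hsub (sInf_mem_closure hne)

/-- Abstract description of a finite metric graph. -/
structure GraphData (M : Type*) [MetricSpace M] (ι : Type*) where
  S : ι → Set M
  V : Set M
  τ : ι → M → ℝ
  closed : ∀ i, IsClosed (S i)
  cover : ∀ x, ∃ i, x ∈ S i
  finV : V.Finite
  inter : ∀ i j, i ≠ j → ∀ x, x ∈ S i → x ∈ S j → x ∈ V
  coord : ∀ i, ∀ x ∈ S i, ∀ y ∈ S i,
    inducedLengthDist (S i) x y = ENNReal.ofReal |τ i x - τ i y|

namespace GraphData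

variable {ι : Type*} [Finite ι] (D : GraphData M ι)

omit [Finite ι] in
lemma dist_le_coord {i : ι} {x y : M} (hx : x ∈ D.S i) (hy : y ∈ D.S i) :
    dist x y ≤ |D.τ i x - D.τ i y| := by
  have := edist_le_inducedLengthDist (D.S i) x y
  rw [D.coord i x hx y hy, edist_dist] at this
  exact (ENNReal.ofReal_le_ofReal_iff (abs_nonneg _)).1 this

lemma exit (hL : IsLengthSpace M) {i : ι} {x : M} (hx : x ∈ D.S i) (y : M) :
    (y ∈ D.S i ∧ dist x y = |D.τ i x - D.τ i y|) ∨
      ∃ w ∈ D.V, w ∈ D.S i ∧ dist x y = |D.τ i x - D.τ i w| + dist w y := by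
  classical
  by_contra hcon
  push Not at hcon
  obtain ⟨h1, h2⟩ := hcon
  -- all candidates are strictly larger than the distance
  have hfin : (D.V ∩ D.S i).Finite := D.finV.inter_of_left _
  let C : Finset ℝ := (hfin.toFinset.image fun w => |D.τ i x - D.τ i w| + dist w y) ∪
    (if y ∈ D.S i then {|D.τ i x - D.τ i y|} else ∅)
  have hC : ∀ c ∈ C, dist x y < c := by
    intro c hc
    simp only [C, Finset.mem_union, Finset.mem_image, Finite.mem_toFinset] at hc
    rcases hc with ⟨w, hw, rfl⟩ | hc
    · refine lt_of_le_of_ne ?_ (h2 w hw.1 hw.2)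
      have := D.dist_le_coord hx hw.2
      linarith [dist_triangle x w y]
    · split_ifs at hc with hy
      · rw [Finset.mem_singleton] at hc
        subst hc
        exact lt_of_le_of_ne (D.dist_le_coord hx hy) (h1 hy)
      · simp at hc
  obtain ⟨m, hm, hmC⟩ : ∃ m, dist x y < m ∧ ∀ c ∈ C, m ≤ c := by
    rcases C.eq_empty_or_nonempty with h | h
    · exact ⟨dist x y + 1, by linarith, by simp [h]⟩
    · exact ⟨C.min' h, hC _ (C.min'_mem h), fun c hc => C.min'_le c hc⟩
  have hle : ENNReal.ofReal m ≤ edist x y := by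
    rw [hL x y]
    refine le_iInf fun γ => ?_
    by_cases hγ : range γ ⊆ D.S i
    · have hy : y ∈ D.S i := hγ ⟨1, by simp⟩
      have hc : m ≤ |D.τ i x - D.τ i y| := hmC _ (by simp [C, hy])
      calc ENNReal.ofReal m ≤ ENNReal.ofReal |D.τ i x - D.τ i y| := ENNReal.ofReal_le_ofReal hc
        _ = inducedLengthDist (D.S i) x y := (D.coord i x hx y hy).symm
        _ ≤ curveLength γ := iInf_le_of_le γ (iInf_le_of_le hγ le_rfl)
    · obtain ⟨t, ht, htR⟩ := exists_exit γ (D.S i) (⋃ j : {j // j ≠ i}, D.S j) (D.closed i)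
        (isClosed_iUnion_of_finite fun j => D.closed j)
        (by
          intro z hz
          obtain ⟨j, hj⟩ := D.cover z
          refine mem_iUnion.2 ⟨⟨j, ?_⟩, hj⟩
          rintro rfl
          exact hz hj) hx hγ
      obtain ⟨j, hj⟩ := mem_iUnion.1 htR
      have hw : γ t ∈ D.S i := ht t le_rfl
      have hwV : γ t ∈ D.V := D.inter i j (Ne.symm j.2) _ hw hj
      have hc : m ≤ |D.τ i x - D.τ i (γ t)| + dist (γ t) y := by
        apply hmC
        simp only [C, Finset.mem_union, Finset.mem_image, Finite.mem_toFinset]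
        exact Or.inl ⟨γ t, ⟨hwV, hw⟩, rfl⟩
      calc ENNReal.ofReal m ≤ ENNReal.ofReal (|D.τ i x - D.τ i (γ t)| + dist (γ t) y) :=
            ENNReal.ofReal_le_ofReal hc
        _ = inducedLengthDist (D.S i) x (γ t) + edist (γ t) y := by
            rw [ENNReal.ofReal_add (abs_nonneg _) dist_nonneg, D.coord i x hx _ hw, edist_dist]
        _ ≤ curveLength γ := split_length γ t _ ht
  rw [edist_dist, ENNReal.ofReal_le_ofReal_iff dist_nonneg] at hle
  linarith

omit [Finite ι] in
lemma exists_sep : ∃ r > 0, ∀ v ∈ D.V, ∀ w ∈ D.V, dist v w < r → v = w := by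
  obtain ⟨C, hC, h⟩ := D.finV.relatively_discrete
  obtain ⟨r, hr0, hr⟩ : ∃ r : ℝ, 0 < r ∧ ENNReal.ofReal r ≤ C := by
    rcases eq_or_ne C ⊤ with rfl | hT
    · exact ⟨1, one_pos, le_top⟩
    · exact ⟨C.toReal, ENNReal.toReal_pos hC.ne' hT, by rw [ENNReal.ofReal_toReal hT]⟩
  refine ⟨r, hr0, fun v hv w hw hvw => ?_⟩
  by_contra hne
  have := h v hv w hw hne
  rw [edist_dist] at this
  have := (ENNReal.ofReal_le_ofReal_iff dist_nonneg).1 (hr.trans this)
  linarith

variable {r : ℝ}

/-- close to a vertex -/
lemma near_vertex (hL : IsLengthSpace M) (hr : ∀ v ∈ D.V, ∀ w ∈ D.V, dist v w < r → v = w)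
    {i : ι} {x w : M} (hx : x ∈ D.S i) (hw : w ∈ D.V) (h : dist x w < r) :
    w ∈ D.S i ∧ dist x w = |D.τ i x - D.τ i w| := by
  rcases D.exit hL hx w with h1 | ⟨w', hw', hw'S, h1⟩
  · exact h1
  · have : w' = w := hr w' hw' w hw (by linarith [abs_nonneg (D.τ i x - D.τ i w')])
    subst this
    exact ⟨hw'S, by simpa using h1⟩

lemma local_isom (hL : IsLengthSpace M) (hr : ∀ v ∈ D.V, ∀ w ∈ D.V, dist v w < r → v = w)
    {i : ι} {x y : M} (hx : x ∈ D.S i) (hy : y ∈ D.S i) (h : dist x y < r) :
    dist x y = |D.τ i x - D.τ i y| := by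
  rcases D.exit hL hx y with h1 | ⟨w, hw, hwS, h1⟩
  · exact h1.2
  · have h2 := D.near_vertex hL hr hy hw
      (by rw [dist_comm]; linarith [abs_nonneg (D.τ i x - D.τ i w)])
    refine le_antisymm (D.dist_le_coord hx hy) ?_
    rw [h1, dist_comm w y, h2.2, abs_sub_comm (D.τ i y)]
    exact abs_sub_le _ _ _

lemma through_vertex (hL : IsLengthSpace M) {i : ι} {x y : M} (hx : x ∈ D.S i)
    (hy : y ∉ D.S i) : ∃ w ∈ D.V, dist x y = dist x w + dist w y := by
  rcases D.exit hL hx y with h1 | ⟨w, hw, hwS, h1⟩
  · exact absurd h1.1 hy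
  · refine ⟨w, hw, le_antisymm (dist_triangle _ _ _) ?_⟩
    linarith [D.dist_le_coord hx hwS]

end GraphData

lemma quad_real (δ a b c d : ℝ) (h1 : |a - b| ≤ δ) (h2 : |b - c| ≤ δ) (h3 : |c - d| ≤ δ)
    (h4 : |d - a| ≤ δ) : |a - c| + |b - d| ≤ 2 * δ := by
  rw [abs_le] at h1 h2 h3 h4
  rcases abs_cases (a - c) with h | h <;> rcases abs_cases (b - d) with h' | h' <;>
    linarith [h1.1, h1.2, h2.1, h2.2, h3.1, h3.2, h4.1, h4.2, h.1, h'.1]

open Classical in
/-- distance in a star with legs indexed by `κ` -/
noncomputable def starDist {κ : Type*} (l l' : κ) (t t' : ℝ) : ℝ :=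
  if l = l' then |t - t'| else t + t'

lemma quad_star {κ : Type*} (δ : ℝ) (la lb lc ld : κ) (a b c d : ℝ) (ha : 0 ≤ a) (hb : 0 ≤ b)
    (hc : 0 ≤ c) (hd : 0 ≤ d)
    (h1 : starDist la lb a b ≤ δ) (h2 : starDist lb lc b c ≤ δ) (h3 : starDist lc ld c d ≤ δ)
    (h4 : starDist ld la d a ≤ δ) : starDist la lc a c + starDist lb ld b d ≤ 2 * δ := by
  unfold starDist at *
  rcases abs_cases (a - c) with h | h <;> rcases abs_cases (b - d) with h' | h' <;>
  split_ifs at h1 h2 h3 h4 ⊢ <;>
  first
  | (exfalso; subst_vars; contradiction)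
  | (simp only [abs_le] at h1 h2 h3 h4 ⊢; grind)
  | grind

theorem GraphData.smallQuad {ι : Type*} [Finite ι] (D : GraphData M ι) (hL : IsLengthSpace M) :
    ∃ r > 0, SmallQuad M r := by
  classical
  obtain ⟨r, hr0, hr⟩ := D.exists_sep
  refine ⟨r / 16, by positivity, fun δ hδ a b c d hab hbc hcd hda => ?_⟩
  have hac : dist a c ≤ 2 * δ := by linarith [dist_triangle a b c]
  have hbd : dist b d ≤ 2 * δ := by linarith [dist_triangle b c d]
  have hδ0 : 0 ≤ δ := le_trans dist_nonneg hab
  by_cases hw : ∃ w ∈ D.V, dist a w < r / 4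
  · obtain ⟨w, hw, haw⟩ := hw
    choose I hI using D.cover
    let leg : M → ι × Prop := fun x => (I x, D.τ (I x) w ≤ D.τ (I x) x)
    have key : ∀ x y : M, dist x w < r / 2 → dist y w < r / 2 → dist x y < r / 2 →
        dist x y = starDist (leg x) (leg y) (dist x w) (dist y w) := by
      intro x y hxw hyw hxy
      have hx := D.near_vertex hL hr (hI x) hw (by linarith)
      have hy := D.near_vertex hL hr (hI y) hw (by linarith)
      by_cases hij : I x = I y
      · have hyx : y ∈ D.S (I x) := hij ▸ hI y
        have h1 := D.local_isom hL hr (hI x) hyx (by linarith)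
        have hy2 := hy.2
        rw [← hij] at hy2
        unfold starDist
        have hleg : leg x = leg y ↔
            (D.τ (I x) w ≤ D.τ (I x) x ↔ D.τ (I x) w ≤ D.τ (I x) y) := by
          simp only [leg, Prod.mk.injEq, ← hij, true_and, eq_iff_iff]
        rw [h1, hx.2, hy2]
        by_cases p1 : D.τ (I x) w ≤ D.τ (I x) x <;> by_cases p2 : D.τ (I x) w ≤ D.τ (I x) y
        · rw [if_pos (hleg.2 (by tauto)), abs_of_nonneg (sub_nonneg.2 p1),
            abs_of_nonneg (sub_nonneg.2 p2)]
          congr 1; ring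
        · rw [if_neg (by rw [hleg]; tauto)]
          push Not at p2
          rw [abs_of_nonneg (sub_nonneg.2 p1), abs_of_neg (sub_neg.2 p2),
            abs_of_nonneg (by linarith)]
          ring
        · rw [if_neg (by rw [hleg]; tauto)]
          push Not at p1
          rw [abs_of_nonneg (sub_nonneg.2 p2), abs_of_neg (sub_neg.2 p1),
            abs_of_nonpos (by linarith)]
          ring
        · rw [if_pos (hleg.2 (by tauto))]
          push Not at p1 p2
          rw [abs_of_neg (sub_neg.2 p1), abs_of_neg (sub_neg.2 p2), ← abs_neg]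
          congr 1; ring
      · have hleg : leg x ≠ leg y := fun h => hij (congrArg Prod.fst h)
        unfold starDist
        rw [if_neg hleg]
        by_cases hyx : y ∈ D.S (I x)
        · have hyV := D.inter _ _ hij y hyx (hI y)
          have : y = w := hr y hyV w hw (by linarith)
          subst this
          simp
        · obtain ⟨w', hw', h⟩ := D.through_vertex hL (hI x) hyx
          have : w' = w := by
            apply hr w' hw' w hw
            have h1 := dist_triangle w' x w
            rw [dist_comm w' x] at h1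
            linarith [dist_nonneg (x := w') (y := y)]
          subst this
          rw [h, dist_comm y]
    have hb : dist b w < r / 2 := by
      have := dist_triangle b a w
      rw [dist_comm b a] at this
      linarith
    have hc : dist c w < r / 2 := by
      have := dist_triangle c a w
      rw [dist_comm c a] at this
      linarith
    have hd : dist d w < r / 2 := by
      have := dist_triangle d a w
      linarith
    have ha : dist a w < r / 2 := by linarith
    rw [key a c ha hc (by linarith), key b d hb hd (by linarith)]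
    apply quad_star δ _ _ _ _ _ _ _ _ dist_nonneg dist_nonneg dist_nonneg dist_nonneg
    · rwa [← key a b ha hb (by linarith)]
    · rwa [← key b c hb hc (by linarith)]
    · rwa [← key c d hc hd (by linarith)]
    · rwa [← key d a hd ha (by linarith)]
  · push Not at hw
    obtain ⟨i, hi⟩ := D.cover a
    have hin : ∀ x, dist a x ≤ 2 * δ → x ∈ D.S i := by
      intro x hx
      by_contra hxi
      obtain ⟨w, hwV, h⟩ := D.through_vertex hL hi hxi
      have := hw w hwV
      linarith [dist_nonneg (x := w) (y := x)]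
    have hb := hin b (by linarith)
    have hc := hin c hac
    have hd := hin d (by rw [dist_comm]; linarith)
    rw [D.local_isom hL hr hi hc (by linarith), D.local_isom hL hr hb hd (by linarith)]
    apply quad_real
    · rwa [← D.local_isom hL hr hi hb (by linarith)]
    · rwa [← D.local_isom hL hr hb hc (by linarith)]
    · rwa [← D.local_isom hL hr hc hd (by linarith)]
    · rwa [← D.local_isom hL hr hd hi (by linarith)]

end Pool.Agent.MP_616ade_gt
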