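import Pool.Agent.MP_616ade_gt.Dim
import Pool.Agent.MP_d539bc_co.Brouwer

/-! Upper and lower bounds for the covering dimension in every dimension. -/

open scoped ENNReal Topology
open Set Filter Metric

namespace Pool.Agent.MP_616ade_gt

set_option maxHeartbeats 400000

/-- shifted open intervals of generation `n` -/
def II (n : ℕ) (β : ℝ) (a : ℤ) : Set ℝ :=
  {t | (ra n : ℝ) * a + β < NN (n + 1) * t ∧ NN (n + 1) * t < ra n * (a + 1) + β}

lemma isOpen_II (n : ℕ) (β : ℝ) (a : ℤ) : IsOpen (II n β a) := by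
  have h1 : IsOpen {x : ℝ | (ra n : ℝ) * a + β < NN (n + 1) * x} :=
    isOpen_lt (by fun_prop) (by fun_prop)
  have h2 : IsOpen {x : ℝ | NN (n + 1) * x < (ra n : ℝ) * (a + 1) + β} :=
    isOpen_lt (by fun_prop) (by fun_prop)
  exact h1.inter h2

lemma II_le {n : ℕ} {β t : ℝ} {a a' : ℤ} (h : t ∈ II n β a) (h' : t ∈ II n β a') : a ≤ a' := by
  have ha := ra_geR n
  have h1 : (ra n : ℝ) * a < ra n * (a' + 1) := by linarith [h.1, h'.2]
  have h2 : (a : ℝ) < a' + 1 := lt_of_mul_lt_mul_left h1 (by linarith)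
  have h3 : a < a' + 1 := by exact_mod_cast h2
  omega

lemma II_diam {n : ℕ} {β t t' : ℝ} {a : ℤ} (h : t ∈ II n β a) (h' : t' ∈ II n β a) :
    t - t' ≤ 1 / NN n := by
  have ha := ra_geR n
  have h1 : (ra n : ℝ) * (NN n * (t - t')) < ra n * 1 := by
    have h2 := h.2
    have h3 := h'.1
    rw [NN_succR] at h2 h3
    linarith
  have h2 := lt_of_mul_lt_mul_left h1 (by linarith)
  rw [le_div_iff₀ (NN_posR n)]
  linarith

lemma II_hole {n : ℕ} {t : ℝ} (h : t ∈ Hole n) : ∃ a, t ∈ II n 0 a := by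
  obtain ⟨i, h1, h2⟩ := h
  have ha := ra_geR n
  exact ⟨i, by linarith, by linarith⟩

lemma II_not_hole {n : ℕ} {t : ℝ} (h : t ∉ Hole n) : ∃ a, t ∈ II n (3 / 2) a := by
  have ha := ra_geR n
  have ha0 : (0 : ℝ) < ra n := by linarith
  set u : ℝ := (NN (n + 1) * t - 3 / 2) / ra n with hu
  have hu' : (ra n : ℝ) * u = NN (n + 1) * t - 3 / 2 := by rw [hu]; field_simp
  have h1 := mul_le_mul_of_nonneg_left (Int.floor_le u) ha0.le
  have h2 := mul_lt_mul_of_pos_left (Int.lt_floor_add_one u) ha0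
  refine ⟨⌊u⌋, ?_, by linarith⟩
  by_contra hc
  exact h ⟨⌊u⌋, by linarith, by linarith [not_lt.1 hc]⟩

/-- the cells of the cover of generation `n` -/
def VV {m : ℕ} (n : ℕ) (J : Finset (Fin m)) (a : Fin m → ℤ) : Set (Fin m → ℝ) :=
  {x | (∀ i ∈ J, ∀ k ∉ J, infDist (x i) (Hole n)ᶜ < infDist (x k) (Hole n)ᶜ) ∧
    ∀ i, x i ∈ II n (if i ∈ J then 3 / 2 else 0) (a i)}

lemma isOpen_VV {m : ℕ} (n : ℕ) (J : Finset (Fin m)) (a : Fin m → ℤ) : IsOpen (VV n J a) := by
  have hc : ∀ i : Fin m, Continuous fun x : Fin m → ℝ => infDist (x i) (Hole n)ᶜ := fun i =>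
    (continuous_infDist_pt _).comp (continuous_apply i)
  refine IsOpen.inter (s := {x | ∀ i ∈ J, ∀ k ∉ J, _}) (t := {x | ∀ i, _}) ?_ ?_
  · simp only [setOf_forall]
    exact isOpen_iInter_of_finite fun i => isOpen_iInter_of_finite fun _ =>
      isOpen_iInter_of_finite fun k => isOpen_iInter_of_finite fun _ => isOpen_lt (hc i) (hc k)
  · simp only [setOf_forall]
    exact isOpen_iInter_of_finite fun i => (isOpen_II _ _ _).preimage (continuous_apply i)

lemma VV_unique {m n : ℕ} {J J' : Finset (Fin m)} {a a' : Fin m → ℤ} {x : Fin m → ℝ}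
    (h : x ∈ VV n J a) (h' : x ∈ VV n J' a') (hc : J.card = J'.card) : J = J' ∧ a = a' := by
  have hJ : J = J' := by
    by_contra hne
    obtain ⟨i, hi, hi'⟩ := Finset.not_subset.1 fun hs =>
      hne (Finset.eq_of_subset_of_card_le hs hc.ge)
    obtain ⟨k, hk, hk'⟩ := Finset.not_subset.1 fun hs =>
      hne (Finset.eq_of_subset_of_card_le hs hc.le).symm
    exact lt_asymm (h.1 i hi k hk') (h'.1 k hk i hi')
  subst hJ
  exact ⟨rfl, funext fun i => le_antisymm (II_le (h.2 i) (h'.2 i)) (II_le (h'.2 i) (h.2 i))⟩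

lemma exists_VV {m : ℕ} (n : ℕ) (x : Fin m → ℝ) :
    ∃ J a, x ∈ VV n J a ∧ ∀ i, x i ∉ Hole n → i ∈ J := by
  classical
  have h1 : ∀ i, ∃ a, x i ∈ II n
      (if i ∈ Finset.univ.filter fun i => x i ∉ Hole n then 3 / 2 else 0) a := fun i => by
    by_cases h : x i ∈ Hole n
    · simpa [h] using II_hole h
    · simpa [h] using II_not_hole h
  choose a ha using h1
  refine ⟨_, a, ⟨fun i hi k hk => ?_, ha⟩, fun i hi => by simpa using hi⟩
  have hi' : x i ∈ (Hole n)ᶜ := by simpa using hi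
  rw [infDist_zero_of_mem hi']
  exact ((isOpen_Hole n).isClosed_compl.notMem_iff_infDist_pos ⟨_, hi'⟩).1 (by simpa using hk)

theorem coveringDimLE_of_holes {d : ℕ} {K : Set (Fin (d + 1) → ℝ)} (hK : IsCompact K)
    (h : ∀ n, ∀ x ∈ K, ∃ i, x i ∉ Hole n) : CoveringDimLE K d := by
  classical
  intro 𝒰 hfin hopen hcov
  haveI := isCompact_iff_compactSpace.1 hK
  obtain ⟨δ, hδ, hleb⟩ := lebesgue_number_lemma_of_metric_sUnion (s := (univ : Set K))
    isCompact_univ hopen (hcov ▸ subset_rfl)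
  obtain ⟨n, hn⟩ := exists_NN (δ / 2) (by linarith)
  have hn := hn n le_rfl
  choose J a hx hJ using fun x : K => exists_VV n x.1
  let W : K → Set K := fun x => Subtype.val ⁻¹' VV n (J x) (a x)
  have hW : ∀ x, IsOpen (W x) := fun x => (isOpen_VV _ _ _).preimage continuous_subtype_val
  obtain ⟨t, ht⟩ := isCompact_univ.elim_finite_subcover W hW fun x _ => mem_iUnion.2 ⟨x, hx x⟩
  refine ⟨W '' t, t.finite_toSet.image _, ?_, ?_, ?_, fun p => ?_⟩
  · rintro _ ⟨x, -, rfl⟩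
    exact hW x
  · rw [sUnion_image]
    exact univ_subset_iff.1 ht
  · rintro _ ⟨x, -, rfl⟩
    obtain ⟨U, hU, hball⟩ := hleb x (mem_univ _)
    refine ⟨U, hU, fun q hq => hball ?_⟩
    rw [mem_ball, Subtype.dist_eq]
    refine lt_of_le_of_lt ((dist_pi_le_iff (by linarith)).2 fun i => ?_) (half_lt_self hδ)
    rw [Real.dist_eq, abs_le]
    constructor <;> linarith [II_diam (hq.2 i) ((hx x).2 i), II_diam ((hx x).2 i) (hq.2 i)]
  · have h1 : ∀ V : Set K, ∃ c ∈ Finset.Icc 1 (d + 1), V ∈ W '' t → ∃ x, W x = V ∧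
        (J x).card = c := fun V => by
      by_cases hV : V ∈ W '' t
      · obtain ⟨x, -, rfl⟩ := hV
        obtain ⟨i, hi⟩ := h n x x.2
        refine ⟨(J x).card, Finset.mem_Icc.2 ⟨Finset.card_pos.2 ⟨i, hJ x i hi⟩, ?_⟩,
          fun _ => ⟨x, rfl, rfl⟩⟩
        simpa using (J x).card_le_univ
      · exact ⟨1, by simp, fun h => (hV h).elim⟩
    choose c hc hc' using h1
    have h2 := ncard_le_ncard_of_injOn (s := {V | V ∈ W '' t ∧ p ∈ V})
      (t := (Finset.Icc 1 (d + 1) : Set ℕ)) c (fun V _ => hc V) (fun V hV V' hV' e => by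
        obtain ⟨x, rfl, h3⟩ := hc' V hV.1
        obtain ⟨y, rfl, h4⟩ := hc' V' hV'.1
        obtain ⟨h5, h6⟩ := VV_unique hV.2 hV'.2 (by rw [h3, h4, e])
        simp only [W, h5, h6]) (Finset.finite_toSet _)
    simpa using h2

theorem le_of_coveringDimLE {X : Type*} [TopologicalSpace X] {d n : ℕ} (h : CoveringDimLE X n)
    (b : X → Fin (d + 1) → ℝ) (hb : Continuous b) (hs : ∀ x, ∑ i, b x i = 1)
    (j : stdSimplex ℝ (Fin (d + 1)) → X) (hj : Continuous j) (hbj : ∀ y, b (j y) = y.1) :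
    d ≤ n := by
  classical
  obtain ⟨𝒱, h1, h2, h3, h4, h5⟩ := h (range fun i => {x | 0 < b x i}) (finite_range _)
    (by
      rintro _ ⟨i, rfl⟩
      exact isOpen_lt continuous_const ((continuous_apply i).comp hb))
    (by
      rw [sUnion_range, eq_univ_iff_forall]
      intro x
      by_contra hx
      simp only [mem_iUnion, mem_setOf_eq, not_exists, not_lt] at hx
      linarith [hs x, Finset.sum_nonpos fun i (_ : i ∈ Finset.univ) => hx i])
  have h6 : ∀ V : Set X, ∃ i, V ∈ 𝒱 → ∀ x ∈ V, 0 < b x i := fun V => by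
    by_cases hV : V ∈ 𝒱
    · obtain ⟨_, ⟨i, rfl⟩, hi⟩ := h4 V hV
      exact ⟨i, fun _ => hi⟩
    · exact ⟨0, fun h => (hV h).elim⟩
  choose σ hσ using h6
  let W : Fin (d + 1) → Set (stdSimplex ℝ (Fin (d + 1))) := fun i =>
    ⋃ V ∈ {V | V ∈ 𝒱 ∧ σ V = i}, j ⁻¹' V
  obtain ⟨f, hf⟩ := PartitionOfUnity.exists_isSubordinate isClosed_univ W
    (fun i => isOpen_biUnion fun V hV => (h2 V hV.1).preimage hj) fun y _ => by
      obtain ⟨V, hV, hy⟩ : j y ∈ ⋃₀ 𝒱 := h3 ▸ mem_univ _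
      exact mem_iUnion.2 ⟨σ V, mem_biUnion (⟨hV, rfl⟩ : V ∈ {V' | V' ∈ 𝒱 ∧ σ V' = σ V}) hy⟩
  have hsum : ∀ y, ∑ i, f i y = 1 := fun y => by
    rw [← finsum_eq_sum_of_fintype]; exact f.sum_eq_one (mem_univ y)
  let g : (Fin (d + 1) → ℝ) → Fin (d + 1) → ℝ := fun y i => max (y i) 0 + |1 - ∑ k, max (y k) 0|
  have hg0 : ∀ y i, 0 ≤ g y i := fun y i => add_nonneg (le_max_right _ _) (abs_nonneg _)
  have hg1 : ∀ y, 0 < ∑ i, g y i := fun y => by
    have e1 : ∑ k, max (y k) 0 ≤ ∑ i, g y i :=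
      Finset.sum_le_sum fun i _ => le_add_of_nonneg_right (abs_nonneg _)
    have e2 := Finset.single_le_sum (fun i _ => hg0 y i) (Finset.mem_univ 0)
    have e3 : 1 - ∑ k, max (y k) 0 ≤ g y 0 :=
      (le_abs_self _).trans (le_add_of_nonneg_left (le_max_right _ _))
    linarith
  let ρ : (Fin (d + 1) → ℝ) → stdSimplex ℝ (Fin (d + 1)) := fun y =>
    ⟨fun i => g y i / ∑ k, g y k, fun i => div_nonneg (hg0 y i) (hg1 y).le, by
      rw [← Finset.sum_div, div_self (hg1 y).ne']⟩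
  have hρ : Continuous ρ := Continuous.subtype_mk (continuous_pi fun i =>
    Continuous.div (by fun_prop) (by fun_prop) fun y => (hg1 y).ne') _
  obtain ⟨a, -, ha⟩ := Pool.Agent.MP_d539bc_co.brouwer_cube zero_le_one
    (fun y i => f (i + 1) (ρ y)) (continuous_pi fun i => (f (i + 1)).continuous.comp hρ).continuousOn
    fun y _ i => abs_le.2 ⟨by linarith [f.nonneg (i + 1) (ρ y)], f.le_one _ _⟩
  have ha' : ∀ i, a i = f (i + 1) (ρ a) := fun i => (congrFun ha i).symm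
  have h7 : ∀ i, max (a i) 0 = a i := fun i => max_eq_left (ha' i ▸ f.nonneg _ _)
  have h8 : ∑ i, a i = 1 := by
    rw [← hsum (ρ a), ← Equiv.sum_comp (Equiv.addRight 1) fun i => f i (ρ a)]
    exact Finset.sum_congr rfl fun i _ => ha' i
  have h9 : ∀ i, (ρ a).1 i = a i := fun i => by simp [ρ, g, h7, h8]
  have hW : ∀ i, f i (ρ a) ≠ 0 → ∃ V, (V ∈ 𝒱 ∧ σ V = i) ∧ j (ρ a) ∈ V := fun i hi => by
    simpa [W] using hf i (subset_tsupport _ hi)
  have step : ∀ i, f i (ρ a) ≠ 0 → f (i + 1) (ρ a) ≠ 0 := fun i hi => by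
    obtain ⟨V, ⟨hV, rfl⟩, hx⟩ := hW i hi
    have := hσ V hV _ hx
    rw [hbj, h9, ha'] at this
    exact this.ne'
  have h0 : f 0 (ρ a) ≠ 0 := fun h0 => by
    have : ∀ i, f i (ρ a) = 0 := fun i => by
      induction i using Fin.reverseInduction with
      | last => exact not_not.1 fun hi => step _ hi (by rwa [Fin.last_add_one])
      | cast i ih => exact not_not.1 fun hi => step _ hi (by rwa [Fin.coeSucc_eq_succ])
    simpa [this] using hsum (ρ a)
  have hall : ∀ i, f i (ρ a) ≠ 0 := fun i => by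
    induction i using Fin.induction with
    | zero => exact h0
    | succ i ih => rw [← Fin.coeSucc_eq_succ]; exact step _ ih
  choose V hV hV' using fun i => hW i (hall i)
  have h10 := ncard_le_ncard_of_injOn (s := univ) (t := {V | V ∈ 𝒱 ∧ j (ρ a) ∈ V}) V
    (fun i _ => ⟨(hV i).1, hV' i⟩) (fun i _ k _ e => by rw [← (hV i).2, e, (hV k).2])
    (h1.subset fun V hV => hV.1)
  have h11 := h10.trans (h5 _)
  simpa using h11

end Pool.Agent.MP_616ade_gt
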