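import Mathlib

/-! A set of positive measure in `ℝ^m` is not a limit of spaces of Hausdorff dimension `< m`. -/

open Set Filter MeasureTheory Topology
open scoped NNReal ENNReal

namespace Pool.Agent.MP_616ade_gt

set_option maxHeartbeats 400000

variable {m : ℕ}

lemma null_of_image_null {f : (Fin m → ℝ) → Fin m → ℝ} {s : Set (Fin m → ℝ)}
    {f' : (Fin m → ℝ) → (Fin m → ℝ) →L[ℝ] Fin m → ℝ}
    (hf : ∀ x ∈ s, HasFDerivWithinAt f (f' x) s x) (hdet : ∀ x ∈ s, (f' x).det ≠ 0)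
    (h0 : volume (f '' s) = 0) : volume s = 0 := by
  rcases s.eq_empty_or_nonempty with rfl | hs
  · simp
  have h1 : ∀ A : (Fin m → ℝ) →L[ℝ] Fin m → ℝ, ∃ δ : ℝ≥0, δ ≠ 0 ∧ (A.det ≠ 0 → ∃ c : ℝ≥0, c ≠ 0 ∧
      ∀ t g, ApproximatesLinearOn g A t δ → (c : ℝ≥0∞) * volume t ≤ volume (g '' t)) := by
    intro A
    by_cases hA : A.det = 0
    · exact ⟨1, one_ne_zero, fun h => (h hA).elim⟩
    have hpos : 0 < |A.det| := abs_pos.2 hA
    have hm : (((|A.det| / 2).toNNReal : ℝ≥0) : ℝ≥0∞) < ENNReal.ofReal |A.det| :=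
      (ENNReal.ofReal_lt_ofReal_iff hpos).2 (half_lt_self hpos)
    obtain ⟨δ, h2, h3⟩ :=
      ((mul_le_addHaar_image_of_lt_det volume A hm).and self_mem_nhdsWithin).exists
    exact ⟨δ, ne_of_gt h3, fun _ => ⟨_, by simpa using hA, h2⟩⟩
  choose r hr0 hr using h1
  obtain ⟨t, A, -, h2, h3, h4⟩ :=
    exists_closed_cover_approximatesLinearOn_of_hasFDerivWithinAt f s f' hf r hr0
  have h6 : s ⊆ ⋃ n, s ∩ t n := by
    rw [← inter_iUnion]
    exact subset_inter Subset.rfl h2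
  refine measure_mono_null h6 (measure_iUnion_null fun n => ?_)
  obtain ⟨y, hy, hA⟩ := h4 hs n
  obtain ⟨c, hc0, hc⟩ := hr (A n) (hA ▸ hdet y hy)
  have h5 := (hc _ _ (h3 n)).trans (measure_mono (image_mono inter_subset_left))
  rw [h0, nonpos_iff_eq_zero, mul_eq_zero] at h5
  exact h5.resolve_left (by simpa using hc0)

lemma exists_tuple {I : Type} [Nonempty I] (ℓ : I → (Fin m → ℝ) →L[ℝ] ℝ)
    (h : ∀ v, v ≠ 0 → ∃ i, ℓ i v ≠ 0) :
    ∃ τ : Fin m → I, (ContinuousLinearMap.pi fun k => ℓ (τ k)).det ≠ 0 := by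
  have key : ∀ k : ℕ, ∃ τ : Fin k → I,
      Module.finrank ℝ (⨅ j, (ℓ (τ j)).ker : Submodule ℝ (Fin m → ℝ)) ≤ m - k := by
    intro k
    induction k with
    | zero => exact ⟨Fin.elim0, (Submodule.finrank_le _).trans (by simp)⟩
    | succ k ih =>
      obtain ⟨τ, hτ⟩ := ih
      have hle : ∀ i, (⨅ j, (ℓ ((Fin.cons i τ : Fin (k + 1) → I) j)).ker) ≤ ⨅ j, (ℓ (τ j)).ker :=
        fun i => le_iInf fun j => iInf_le_of_le j.succ (by simp)
      by_cases h0 : (⨅ j, (ℓ (τ j)).ker : Submodule ℝ (Fin m → ℝ)) = ⊥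
      · refine ⟨Fin.cons (Classical.arbitrary I) τ, (Submodule.finrank_mono (hle _)).trans ?_⟩
        rw [h0, finrank_bot]; exact Nat.zero_le _
      · obtain ⟨v, hv, hv0⟩ := Submodule.exists_mem_ne_zero_of_ne_bot h0
        obtain ⟨i, hi⟩ := h v hv0
        refine ⟨Fin.cons i τ, ?_⟩
        have h1 := Submodule.finrank_lt_finrank_of_lt (lt_of_le_of_ne (hle i) fun he => hi (by
          rw [← he] at hv
          simpa using (Submodule.mem_iInf _).1 hv 0))
        omega
  obtain ⟨τ, hτ⟩ := key m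
  rw [Nat.sub_self, Nat.le_zero, Submodule.finrank_eq_zero] at hτ
  refine ⟨τ, fun h0 => LinearMap.det_eq_zero_iff_ker_ne_bot.1 h0 (eq_bot_iff.2 fun v hv => ?_)⟩
  rw [← hτ]
  exact (Submodule.mem_iInf _).2 fun j => congrFun hv j

lemma slope_le {g : ℝ → ℝ} {K : ℝ≥0} (hg : LipschitzWith K g) {T : Set ℝ} (hT : MeasurableSet T)
    {c : ℝ} (hc0 : 0 ≤ c) (hc : ∀ t ∈ T, |deriv g t| ≤ c) {a b : ℝ} (hab : a ≤ b) :
    |g b - g a| ≤ c * (b - a) + K * volume.real (Ioc a b \ T) := by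
  rw [← (hg.lipschitzOnWith.absolutelyContinuousOnInterval (a := a) (b := b)).integral_deriv_eq_sub]
  have hi : IntervalIntegrable (Tᶜ.indicator fun _ : ℝ => (K : ℝ)) volume a b :=
    ⟨(integrableOn_const (by simp)).indicator hT.compl,
      (integrableOn_const (by simp)).indicator hT.compl⟩
  rw [← Real.norm_eq_abs]
  refine (intervalIntegral.norm_integral_le_of_norm_le (g := fun t => c +
    Tᶜ.indicator (fun _ => (K : ℝ)) t) hab (Eventually.of_forall fun t _ => ?_)
    (intervalIntegrable_const.add hi)).trans (le_of_eq ?_)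
  · by_cases ht : t ∈ T
    · simpa [ht] using hc t ht
    · have := norm_deriv_le_of_lipschitz (x₀ := t) hg
      rw [indicator_of_mem (show t ∈ Tᶜ from ht)]
      linarith
  · rw [intervalIntegral.integral_add intervalIntegrable_const hi, intervalIntegral.integral_const,
      intervalIntegral.integral_of_le hab, setIntegral_indicator hT.compl, setIntegral_const,
      diff_eq]
    simp [mul_comm]

lemma exists_line {P : Set (Fin m → ℝ)} (hP : MeasurableSet P) (h0 : volume P ≠ 0)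
    (v : Fin m → ℝ) : ∃ x, volume {t : ℝ | x + t • v ∈ P} ≠ 0 := by
  by_contra h
  push Not at h
  have hs : MeasurableSet {z : ℝ × (Fin m → ℝ) | z.2 + z.1 • v ∈ P} :=
    hP.preimage (by fun_prop)
  have h1 : (volume : Measure ℝ).prod volume {z : ℝ × (Fin m → ℝ) | z.2 + z.1 • v ∈ P} = 0 := by
    rw [Measure.prod_apply_symm hs]
    exact (lintegral_congr fun x => h x).trans lintegral_zero
  obtain ⟨t, ht⟩ := ((Measure.measure_prod_null hs).1 h1).exists
  exact h0 ((measure_preimage_add_right volume (t • v) P).symm.trans ht)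

lemma exists_dense_pair {T : Set ℝ} (hT : MeasurableSet T) (h0 : volume T ≠ 0) {η : ℝ}
    (hη : 0 < η) (hη1 : η ≤ 1 / 8) :
    ∃ a ∈ T, ∃ b ∈ T, a < b ∧ volume.real (Ioc a b \ T) ≤ 4 * η * (b - a) := by
  have hne : (ae (volume.restrict T)).NeBot := ae_neBot.2 (by simpa using h0)
  obtain ⟨a, ha, hlim⟩ := ((ae_restrict_mem hT).and
    (Besicovitch.ae_tendsto_measure_inter_div volume T)).exists
  have h1 : ENNReal.ofReal (1 - η) < 1 := ENNReal.ofReal_lt_one.2 (by linarith)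
  obtain ⟨r, hr1, hr⟩ := ((hlim.eventually (lt_mem_nhds h1)).and self_mem_nhdsWithin).exists
  have hr : 0 < r := hr
  have hB : volume (Metric.closedBall a r) = ENNReal.ofReal (2 * r) := Real.volume_closedBall a r
  have hfin : volume (Metric.closedBall a r) ≠ ⊤ := by rw [hB]; exact ENNReal.ofReal_ne_top
  have h2 : (1 - η) * (2 * r) ≤ volume.real (Metric.closedBall a r ∩ T) := by
    rw [ENNReal.lt_div_iff_mul_lt (Or.inl (by rw [hB]; simpa using hr)) (Or.inl hfin), hB,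
      ← ENNReal.ofReal_mul (by linarith), inter_comm] at hr1
    exact (ENNReal.ofReal_le_iff_le_toReal
      (ne_top_of_le_ne_top hfin (measure_mono inter_subset_left))).1 hr1.le
  have h3 := measureReal_inter_add_diff (μ := volume) (s := Metric.closedBall a r) hT hfin
  rw [Real.volume_real_closedBall hr.le] at h3
  have h4 : ∀ S ⊆ Metric.closedBall a r \ T, volume.real S ≤ 2 * η * r := fun S hS =>
    (measureReal_mono hS (ne_top_of_le_ne_top hfin (measure_mono diff_subset))).trans (by linarith)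
  obtain ⟨b, hb, hbT⟩ : ∃ b ∈ Icc (a + r / 2) (a + r), b ∈ T := by
    by_contra h
    push Not at h
    have h5 := h4 (Icc (a + r / 2) (a + r)) fun t ht => ⟨by
      rw [Real.closedBall_eq_Icc]; exact ⟨by linarith [ht.1], ht.2⟩, h t ht⟩
    rw [Real.volume_real_Icc_of_le (by linarith)] at h5
    nlinarith
  refine ⟨a, ha, b, hbT, by linarith [hb.1], (h4 _ fun t ht => ⟨?_, ht.2⟩).trans ?_⟩
  · rw [Real.closedBall_eq_Icc]; exact ⟨by linarith [ht.1.1], ht.1.2.trans hb.2⟩
  · nlinarith [hb.1]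

theorem obstruct {A : Set (Fin m → ℝ)} (hA : MeasurableSet A) (hpos : volume A ≠ 0)
    {M : ℕ → Type*} [∀ n, MetricSpace (M n)] (p : ∀ n, (Fin m → ℝ) → M n)
    (hp : ∀ n, LipschitzOnWith 2 (p n) A)
    (bond : ∀ n N, n ≤ N → ∃ g : M N → M n, LipschitzWith 1 g ∧ ∀ x, g (p N x) = p n x)
    (hdim : ∀ n, dimH (univ : Set (M n)) < m) :
    ∃ a ∈ A, ∃ b ∈ A, a ≠ b ∧ ∀ n, dist (p n a) (p n b) ≤ dist a b * (3 / 4) := by
  classical
  have hne : A.Nonempty := nonempty_of_measure_ne_zero hpos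
  haveI := hne.to_subtype
  set D : ℕ → Fin m → ℝ := fun k => (TopologicalSpace.denseSeq A k : A) with hD
  have h1 : ∀ i : ℕ × ℕ, ∃ φ : (Fin m → ℝ) → ℝ, LipschitzWith 2 φ ∧
      EqOn (fun x => dist (p i.1 x) (p i.1 (D i.2))) φ A := fun i => by
    refine LipschitzOnWith.extend_real ?_
    have := (LipschitzWith.dist_left (p i.1 (D i.2))).comp_lipschitzOnWith (hp i.1)
    rw [one_mul] at this
    exact this
  choose φ hφ hφA using h1
  have h2 : ∀ τ : Fin m → ℕ × ℕ, volume {x | x ∈ A ∧ (∀ i, DifferentiableAt ℝ (φ i) x) ∧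
      (ContinuousLinearMap.pi fun k => fderiv ℝ (φ (τ k)) x).det ≠ 0} = 0 := fun τ => by
    refine null_of_image_null (f := fun x k => φ (τ k) x) (fun x hx => (hasFDerivAt_pi.2
      fun k => (hx.2.1 (τ k)).hasFDerivAt).hasFDerivWithinAt) (fun x hx => hx.2.2) ?_
    set N := Finset.univ.sup fun k => (τ k).1
    choose g hg hg' using fun k => bond (τ k).1 N
      (Finset.le_sup (f := fun k => (τ k).1) (Finset.mem_univ k))
    have hΨ : LipschitzWith 1 fun (y : M N) k => dist (g k y) (p (τ k).1 (D (τ k).2)) :=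
      LipschitzWith.of_dist_le_mul fun y y' => (dist_pi_le_iff (by positivity)).2 fun k =>
        (by simpa using ((LipschitzWith.dist_left _).comp (hg k)).dist_le_mul y y')
    refine measure_mono_null (t := range fun (y : M N) k => dist (g k y) (p (τ k).1 (D (τ k).2)))
      ?_ ?_
    · rintro _ ⟨x, hx, rfl⟩
      refine ⟨p N x, funext fun k => ?_⟩
      show dist (g k (p N x)) _ = _
      rw [hg']
      exact hφA (τ k) hx.1
    · rw [← hausdorffMeasure_pi_real, Fintype.card_fin]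
      exact_mod_cast hausdorffMeasure_of_dimH_lt (d := m)
        (hΨ.dimH_range_le.trans_lt (by exact_mod_cast hdim N))
  set v : ℕ → Fin m → ℝ := TopologicalSpace.denseSeq _ with hv
  set P : ℕ → Set (Fin m → ℝ) := fun j => {x | x ∈ A ∧ 1 / 2 ≤ ‖v j‖ ∧
    ∀ i, DifferentiableAt ℝ (φ i) x ∧ |fderiv ℝ (φ i) x (v j)| ≤ 1 / 8} with hP
  have hPm : ∀ j, MeasurableSet (P j) := fun j => by
    refine hA.inter ((MeasurableSet.const _).inter ?_)
    show MeasurableSet {x | ∀ i, DifferentiableAt ℝ (φ i) x ∧ |fderiv ℝ (φ i) x (v j)| ≤ 1 / 8}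
    rw [setOf_forall]
    refine MeasurableSet.iInter fun i => ?_
    have h6 : MeasurableSet {x | |fderiv ℝ (φ i) x (v j)| ≤ 1 / 8} :=
      measurableSet_le (measurable_fderiv_apply_const ℝ (φ i) (v j)).abs measurable_const
    exact (measurableSet_of_differentiableAt ℝ (φ i)).inter h6
  obtain ⟨j, hj⟩ : ∃ j, volume (P j) ≠ 0 := by
    by_contra h
    push Not at h
    have h3 : ∀ᵐ x : Fin m → ℝ, ∀ i, DifferentiableAt ℝ (φ i) x :=
      ae_all_iff.2 fun i => (hφ i).ae_differentiableAt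
    have h4 := ae_all_iff.2 fun τ => measure_eq_zero_iff_ae_notMem.1 (h2 τ)
    have h5 := ae_all_iff.2 fun j => measure_eq_zero_iff_ae_notMem.1 (h j)
    refine hpos (measure_eq_zero_iff_ae_notMem.2 ?_)
    filter_upwards [h3, h4, h5] with x e3 e4 e5 hx
    obtain ⟨w, hw0, hw⟩ : ∃ w, w ≠ 0 ∧ ∀ i, fderiv ℝ (φ i) x w = 0 := by
      by_contra h6
      push Not at h6
      obtain ⟨τ, hτ⟩ := exists_tuple (fun i => fderiv ℝ (φ i) x) h6
      exact e4 τ ⟨hx, e3, hτ⟩
    have hw1 : 0 < ‖w‖ := norm_pos_iff.2 hw0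
    obtain ⟨j, hj⟩ := (TopologicalSpace.denseRange_denseSeq (Fin m → ℝ)).exists_dist_lt
      (‖w‖⁻¹ • w) (show (0 : ℝ) < 1 / 16 by norm_num)
    rw [dist_comm, dist_eq_norm] at hj
    have hu : ‖‖w‖⁻¹ • w‖ = 1 := by rw [norm_smul]; simp [hw1.ne']
    refine e5 j ⟨hx, ?_, fun i => ⟨e3 i, ?_⟩⟩
    · have := abs_le.1 ((abs_norm_sub_norm_le _ _).trans hj.le)
      linarith
    · have h6 : fderiv ℝ (φ i) x (v j) = fderiv ℝ (φ i) x (v j - ‖w‖⁻¹ • w) := by
        rw [map_sub, map_smul, hw, smul_zero, sub_zero]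
      have h7 := (fderiv ℝ (φ i) x).le_of_opNorm_le_of_le
        (norm_fderiv_le_of_lipschitz ℝ (hφ i)) hj.le
      rw [h6]
      exact h7.trans (by norm_num)
  obtain ⟨x, hx⟩ := exists_line (hPm j) hj (v j)
  have hT : MeasurableSet {t : ℝ | x + t • v j ∈ P j} := (hPm j).preimage (by fun_prop)
  obtain ⟨a, ha, b, hb, hab, hvol⟩ := exists_dense_pair hT hx (η := 1 / 32) (by norm_num)
    (by norm_num)
  have hv1 : 1 / 2 ≤ ‖v j‖ := ha.2.1
  have hd : dist (x + a • v j) (x + b • v j) = (b - a) * ‖v j‖ := by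
    rw [dist_add_left, dist_comm, dist_eq_norm, ← sub_smul, norm_smul, Real.norm_eq_abs,
      abs_of_pos (by linarith)]
  refine ⟨_, ha.1, _, hb.1, fun h => ?_, fun n => ?_⟩
  · rw [h, dist_self] at hd
    nlinarith
  have h3 : ∀ i, |φ i (x + b • v j) - φ i (x + a • v j)| ≤ (b - a) * ‖v j‖ * (3 / 4) := by
    intro i
    have hl : LipschitzWith ‖v j‖₊ fun t : ℝ => x + t • v j :=
      LipschitzWith.of_dist_le_mul fun s t => by
        rw [dist_add_left, dist_eq_norm, ← sub_smul, norm_smul, mul_comm, dist_eq_norm]; rfl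
    have h4 := slope_le ((hφ i).comp hl) hT (c := 1 / 8) (by norm_num) (fun t ht => by
      have h5 : HasDerivAt (fun t : ℝ => x + t • v j) (v j) t := by
        simpa using ((hasDerivAt_id t).smul_const (v j)).const_add x
      rw [((ht.2.2 i).1.hasFDerivAt.comp_hasDerivAt t h5).deriv]
      exact (ht.2.2 i).2) hab.le
    refine h4.trans ?_
    push_cast
    nlinarith [mul_le_mul_of_nonneg_left hvol (norm_nonneg (v j))]
  rw [hd]
  refine le_of_forall_pos_le_add fun ε hε => ?_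
  obtain ⟨k, hk⟩ := (TopologicalSpace.denseRange_denseSeq A).exists_dist_lt ⟨_, ha.1⟩
    (show 0 < ε / 4 by positivity)
  have h4 := (hp n).dist_le_mul _ ha.1 (D k) (TopologicalSpace.denseSeq A k).2
  have h5 : dist (x + a • v j) (D k) < ε / 4 := hk
  have h6 := h3 (n, k)
  rw [← hφA (n, k) ha.1, ← hφA (n, k) hb.1, abs_le] at h6
  have h7 := dist_triangle_right (p n (x + a • v j)) (p n (x + b • v j)) (p n (D k))
  simp only [NNReal.coe_ofNat] at h4 h6
  linarith [h6.2]

end Pool.Agent.MP_616ade_gt
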