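import Pool.Agent.MP_616ade_gt.Main
import Pool.Agent.MP_616ade_gt.HDObs
import Pool.Agent.MP_616ade_gt.HDDim

/-! The fat carpet times a cube: a counterexample in every dimension. -/

open scoped ENNReal NNReal Topology
open Set Filter MeasureTheory

namespace Pool.Agent.MP_616ade_gt

universe u

set_option maxHeartbeats 400000

lemma IsMinkowskiSimplex.dimH_le {d : ℕ} {M : Type*} [MetricSpace M] {S : Set M}
    (h : IsMinkowskiSimplex d S) : dimH S ≤ d := by
  obtain ⟨E, _, _, _, k, hk, Δ, ψ, hbij, hiso⟩ := h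
  have hl : LipschitzOnWith 1 ψ (convexHull ℝ (range Δ.points)) := fun a ha b hb => by
    rw [ENNReal.coe_one, one_mul]
    rcases hiso with hiso | hiso
    · exact (hiso a ha b hb).le
    · exact (edist_le_inducedLengthDist S _ _).trans (hiso a ha b hb).le
  rw [← hbij.image_eq]
  refine hl.dimH_image_le.trans ?_
  rw [Real.Convex.dimH_eq_finrank_vectorSpan (convex_convexHull ℝ _)
    (range_nonempty _).convexHull, ← direction_affineSpan, affineSpan_convexHull,
    direction_affineSpan]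
  exact_mod_cast (finrank_vectorSpan_range_le ℝ Δ.points (Fintype.card_fin _)).trans hk

lemma IsMinkowskiPolyhedron.dimH_le {d : ℕ} {M : Type*} [MetricSpace M]
    (h : IsMinkowskiPolyhedron d M) : dimH (univ : Set M) ≤ d := by
  obtain ⟨-, N, K, h, hfin, hK⟩ := h
  have : (univ : Set M) ⊆ ⋃ s ∈ K.faces,
      {x : M | (h x : Fin N → ℝ) ∈ convexHull ℝ (s : Set (Fin N → ℝ))} := fun x _ => by
    obtain ⟨s, hs, hx⟩ := Geometry.SimplicialComplex.mem_space_iff.1 (h x).2
    exact mem_biUnion hs hx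
  refine (dimH_mono this).trans ?_
  rw [dimH_bUnion hfin.countable]
  exact iSup₂_le fun s hs => (hK s hs).2.dimH_le

theorem not_inverseLimit {d : ℕ} {X : Type*} [MetricSpace X] {A : Set (Fin (d + 1) → ℝ)}
    (hA : MeasurableSet A) (hpos : volume A ≠ 0) (q : (Fin (d + 1) → ℝ) → X)
    (hq : ∀ a ∈ A, ∀ b ∈ A, dist a b ≤ dist (q a) (q b) ∧ dist (q a) (q b) ≤ 2 * dist a b) :
    ¬ IsInverseLimitOfMinkowskiPolyhedra.{u} d X := by
  rintro ⟨M, _, f, hM, hf, π, hπ⟩
  have hle : ∀ n x y, dist ((π x).1 n) ((π y).1 n) ≤ dist x y := fun n x y =>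
    Monotone.ge_of_tendsto (monotone_nat_of_le_succ fun n => by
      have := (hf n).dist_le_mul ((π x).1 (n + 1)) ((π y).1 (n + 1))
      rw [(π x).2 n, (π y).2 n] at this
      simpa using this) (hπ x y) n
  obtain ⟨a, ha, b, hb, hab, h⟩ := obstruct hA hpos (fun n x => (π (q x)).1 n)
    (fun n => LipschitzOnWith.of_dist_le_mul fun a ha b hb =>
      (hle n _ _).trans (hq a ha b hb).2)
    (fun n N hN => by
      induction N, hN using Nat.le_induction with
      | base => exact ⟨id, LipschitzWith.id, fun _ => rfl⟩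
      | succ N _ ih =>
        obtain ⟨g, hg, hg'⟩ := ih
        refine ⟨g ∘ f N, by simpa using hg.comp (hf N), fun x => ?_⟩
        rw [Function.comp_apply, (π (q x)).2 N, hg'])
    fun n => (hM n).dimH_le.trans_lt (by exact_mod_cast d.lt_succ_self)
  have h1 := le_of_tendsto' (hπ (q a) (q b)) h
  linarith [(hq a ha b hb).1, dist_pos.2 hab]

lemma vol_hole (n : ℕ) : volume (Hole n ∩ Icc (0 : ℝ) 1) ≤ (2⁻¹ : ℝ≥0∞) ^ (n + 3) := by
  have hN := NN_posR n
  have hN1 := NN_posR (n + 1)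
  have ha := ra_geR n
  have h1 : Hole n ∩ Icc (0 : ℝ) 1 ⊆ ⋃ i ∈ Finset.Ico (0 : ℤ) (NN n),
      Ioo ((ra n * i + 1 : ℝ) / NN (n + 1)) ((ra n * i + 2) / NN (n + 1)) := by
    rintro x ⟨⟨i, h1, h2⟩, h3, h4⟩
    simp only [mem_iUnion, Finset.mem_Ico, mem_Ioo]
    have h5 := mul_nonneg hN1.le h3
    have h6 := mul_le_mul_of_nonneg_left h4 hN1.le
    refine ⟨i, ⟨?_, ?_⟩, ?_, ?_⟩
    · have : (-1 : ℝ) < i := by nlinarith
      have : (-1 : ℤ) < i := by exact_mod_cast this
      omega
    · have : (i : ℝ) < NN n := lt_of_mul_lt_mul_left (a := (ra n : ℝ))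
        (by rw [← NN_succR]; linarith) (by linarith)
      exact_mod_cast this
    · rw [div_lt_iff₀ hN1]; linarith
    · rw [lt_div_iff₀ hN1]; linarith
  refine (measure_mono h1).trans ((measure_biUnion_finset_le _ _).trans (le_of_eq ?_))
  have h2 : ∀ i : ℤ, ((ra n * i + 2 : ℝ) / NN (n + 1)) - (ra n * i + 1) / NN (n + 1) =
      1 / NN (n + 1) := fun i => by ring
  simp only [Real.volume_Ioo, h2, Finset.sum_const, Int.card_Ico, sub_zero, Int.toNat_natCast,
    nsmul_eq_mul]
  rw [← ENNReal.ofReal_natCast, ← ENNReal.ofReal_mul hN.le, NN_succR,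
    show (NN n : ℝ) * (1 / (ra n * NN n)) = 2⁻¹ ^ (n + 3) by simp [ra]; field_simp,
    ENNReal.ofReal_pow (by norm_num), ENNReal.ofReal_inv_of_pos two_pos, ENNReal.ofReal_ofNat]

lemma measurableSet_isC : MeasurableSet {x | IsC x} := by
  refine measurableSet_Icc.inter (s₂ := {x | ∀ n, x ∉ Hole n}) ?_
  rw [setOf_forall]
  exact MeasurableSet.iInter fun n => (isOpen_Hole n).measurableSet.compl

lemma vol_isC : volume {x | IsC x} ≠ 0 := fun h => by
  have h1 : Icc (0 : ℝ) 1 ⊆ {x | IsC x} ∪ ⋃ n, Hole n ∩ Icc (0 : ℝ) 1 := fun x hx => by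
    by_cases h2 : ∀ n, x ∉ Hole n
    · exact Or.inl ⟨hx, h2⟩
    · push Not at h2
      exact Or.inr (mem_iUnion.2 (h2.imp fun n hn => ⟨hn, hx⟩))
  have h2 := (measure_mono (μ := volume) h1).trans ((measure_union_le _ _).trans
    (add_le_add le_rfl ((measure_iUnion_le _).trans (ENNReal.tsum_le_tsum vol_hole))))
  simp only [h, pow_add, ENNReal.tsum_mul_right, ENNReal.tsum_geometric, Real.volume_Icc,
    ENNReal.one_sub_inv_two, inv_inv, zero_add, sub_zero, ENNReal.ofReal_one] at h2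
  have h3 := ENNReal.toReal_mono (by finiteness) h2
  norm_num at h3

lemma isLengthSpace_of_geodesic {X : Type*} [MetricSpace X] (h : ∀ x y : X,
    ∃ γ : unitInterval → X, γ 0 = x ∧ γ 1 = y ∧ LipschitzWith (nndist x y) γ) :
    IsLengthSpace X := by
  intro x y
  refine le_antisymm (le_iInf fun γ => edist_le_curveLength γ) ?_
  obtain ⟨γ, h0, h1, hlip⟩ := h x y
  refine iInf_le_of_le ⟨⟨γ, hlip.continuous⟩, h0, h1⟩ ?_
  refine iSup_le fun ⟨n, v, hv, _⟩ => ?_
  have hv' : ∀ i, (0 : ℝ) ≤ v (i + 1) - v i := fun i =>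
    sub_nonneg.2 (Subtype.coe_le_coe.2 (hv i.le_succ))
  calc _ ≤ ∑ i ∈ Finset.range n, ENNReal.ofReal (dist x y * ((v (i + 1) : ℝ) - v i)) :=
        Finset.sum_le_sum fun i _ => by
          rw [edist_dist]
          refine ENNReal.ofReal_le_ofReal ((hlip.dist_le_mul _ _).trans (le_of_eq ?_))
          rw [Subtype.dist_eq, Real.dist_eq, abs_of_nonneg (hv' i)]
          rfl
    _ ≤ edist x y := by
      rw [← ENNReal.ofReal_sum_of_nonneg fun i _ =>
        mul_nonneg dist_nonneg (hv' i), ← Finset.mul_sum,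
        Finset.sum_range_sub fun i => (v i : ℝ), edist_dist]
      exact ENNReal.ofReal_le_ofReal (mul_le_of_le_one_right dist_nonneg
        (by linarith [(v n).2.2, (v 0).2.1]))

/-- The fat carpet times a cube, with the maximum metric. -/
abbrev FatSlab (e : ℕ) : Type := FatCarpet × Icc (0 : Fin e → ℝ) 1

theorem isLengthSpace_fatSlab (e : ℕ) : IsLengthSpace (FatSlab e) := by
  refine isLengthSpace_of_geodesic fun x y => ?_
  obtain ⟨γ, h0, h1, h2⟩ := Intr.exists_geodesic x.1 y.1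
  refine ⟨fun t => (γ t, ⟨AffineMap.lineMap x.2.1 y.2.1 (t : ℝ),
    (convex_Icc _ _).lineMap_mem x.2.2 y.2.2 t.2⟩), by simp [h0], by simp [h1],
    LipschitzWith.of_dist_le_mul fun s t => ?_⟩
  rw [Prod.dist_eq, coe_nndist, Prod.dist_eq]
  refine max_le (le_trans ?_ (mul_le_mul_of_nonneg_right (le_max_left _ _) dist_nonneg))
    (le_trans ?_ (mul_le_mul_of_nonneg_right (le_max_right _ _) dist_nonneg))
  · rw [Subtype.dist_eq s, Real.dist_eq]
    rcases le_total (s : ℝ) t with h | h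
    · rw [abs_of_nonpos (by linarith), neg_sub]
      exact h2 s t h
    · rw [abs_of_nonneg (by linarith), dist_comm]
      exact h2 t s h
  · rw [Subtype.dist_eq s, Subtype.dist_eq x.2, Subtype.dist_eq]
    exact (lipschitzWith_lineMap x.2.1 y.2.1).dist_le_mul (s : ℝ) (t : ℝ)

/-- coordinates of the slab -/
noncomputable def slabCoord {e : ℕ} (x : FatSlab e) : Fin (e + 2) → ℝ :=
  Fin.cons x.1.pt.1.fst (Fin.cons x.1.pt.1.snd x.2.1)

lemma continuous_fst' {e : ℕ} : Continuous fun x : FatSlab e => x.1.pt.1.fst :=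
  (WithLp.continuous_fst 1 ℝ ℝ).comp (continuous_subtype_val.comp
    (Intr.lipschitz_pt.continuous.comp continuous_fst))

lemma continuous_snd' {e : ℕ} : Continuous fun x : FatSlab e => x.1.pt.1.snd :=
  (WithLp.continuous_snd 1 ℝ ℝ).comp (continuous_subtype_val.comp
    (Intr.lipschitz_pt.continuous.comp continuous_fst))

lemma continuous_tail {e : ℕ} : Continuous fun x : FatSlab e => (Fin.cons x.1.pt.1.snd x.2.1 :
    Fin (e + 1) → ℝ) :=
  continuous_snd'.finCons (continuous_subtype_val.comp continuous_snd)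

theorem coveringDimLE_fatSlab (e : ℕ) : CoveringDimLE (FatSlab e) (e + 1) := by
  have hc : Continuous (slabCoord (e := e)) := continuous_fst'.finCons continuous_tail
  have hi : Function.Injective (slabCoord (e := e)) := fun x y h => by
    obtain ⟨h1, h2⟩ := Fin.cons_inj.1 h
    obtain ⟨h2, h3⟩ := Fin.cons_inj.1 h2
    refine Prod.ext (Subtype.ext ?_) (Subtype.ext h3)
    exact (WithLp.ofLp_injective 1) (Prod.ext h1 h2)
  refine (coveringDimLE_of_holes (isCompact_range hc) ?_).of_homeomorph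
    (hc.isClosedEmbedding hi).isEmbedding.toHomeomorph
  rintro n _ ⟨x, rfl⟩
  rcases x.1.pt.2.2.2 n with h | h
  · exact ⟨0, h⟩
  · exact ⟨1, h⟩

theorem hasCoveringDim_fatSlab (e : ℕ) : HasCoveringDim (FatSlab e) (e + 1) := by
  refine ⟨coveringDimLE_fatSlab e, fun n hn => ?_⟩
  have hy : ∀ (y : stdSimplex ℝ (Fin (e + 2))) i, y.1 i ∈ Icc (0 : ℝ) 1 := fun y i =>
    mem_Icc_of_mem_stdSimplex y.2 i
  refine le_of_coveringDimLE hn (fun x => Fin.cons (1 - (x.1.pt.1.snd + ∑ i, x.2.1 i))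
      (Fin.cons x.1.pt.1.snd x.2.1)) (Continuous.finCons ?_ continuous_tail)
    (fun x => by simp [Fin.sum_univ_succ])
    (fun y => (Intr.mk carpet_hB (cpt 0 (y.1 1) (isC_zero.inC_left (hy y 1))),
      ⟨fun i => y.1 i.succ.succ, fun i => (hy y _).1, fun i => (hy y _).2⟩)) ?_ fun y => ?_
  · exact continuous_const.sub (continuous_snd'.add (by fun_prop))
  · have hc : ∀ i, Continuous fun y : stdSimplex ℝ (Fin (e + 2)) => y.1 i := fun i =>
      (continuous_apply i).comp continuous_subtype_val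
    exact Continuous.prodMk (fatHomeo.symm.continuous.comp (Continuous.subtype_mk
      ((WithLp.prod_continuous_toLp 1 ℝ ℝ).comp (continuous_const.prodMk (hc 1))) _))
      (Continuous.subtype_mk (continuous_pi fun i => hc _) _)
  · have h1 := y.2.2
    rw [Fin.sum_univ_succ, Fin.sum_univ_succ] at h1
    funext i
    refine Fin.cases ?_ (fun i => Fin.cases rfl (fun i => rfl) i) i
    show 1 - (y.1 1 + ∑ i : Fin e, y.1 i.succ.succ) = y.1 0
    rw [← h1]
    simp

theorem not_inverseLimit_fatSlab (e : ℕ) :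
    ¬ IsInverseLimitOfMinkowskiPolyhedra.{u} (e + 1) (FatSlab e) := by
  classical
  refine not_inverseLimit (A := pi univ fun _ => {x | IsC x})
    (MeasurableSet.univ_pi fun _ => measurableSet_isC)
    (by rw [volume_pi_pi]; exact Finset.prod_ne_zero_iff.2 fun _ _ => vol_isC)
    (fun a => if h : ∀ i, IsC (a i) then (ccpt (a 0) (a 1) (h 0) (h 1),
      ⟨fun i => a i.succ.succ, fun i => (h _).1.1, fun i => (h _).1.2⟩)
      else (ccpt 0 0 isC_zero isC_zero, ⟨0, le_rfl, zero_le_one⟩)) fun a ha b hb => ?_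
  have ha' : ∀ i, IsC (a i) := fun i => ha i (mem_univ i)
  have hb' : ∀ i, IsC (b i) := fun i => hb i (mem_univ i)
  simp only [dif_pos ha', dif_pos hb', Prod.dist_eq, dist_ccpt, Subtype.dist_eq]
  have h0 : |a 0 - b 0| ≤ dist a b := dist_le_pi_dist a b 0
  have h1 : |a 1 - b 1| ≤ dist a b := dist_le_pi_dist a b 1
  refine ⟨(dist_pi_le_iff (by positivity)).2 fun i => ?_, max_le (by linarith)
    ((dist_pi_le_iff (by positivity)).2 fun i =>
      (dist_le_pi_dist a b _).trans (by linarith [dist_nonneg (x := a) (y := b)]))⟩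
  refine Fin.cases ?_ (fun i => Fin.cases ?_ (fun i => ?_) i) i
  · exact le_max_of_le_left (le_add_of_nonneg_right (abs_nonneg _))
  · exact le_max_of_le_left (le_add_of_nonneg_left (abs_nonneg _))
  · exact le_max_of_le_right (dist_le_pi_dist (fun i : Fin e => a i.succ.succ)
      (fun i => b i.succ.succ) i)

theorem main_all (d : ℕ) (hd : 1 ≤ d) :
    ∃ (X : Type) (_ : MetricSpace X), CompactSpace X ∧ IsLengthSpace X ∧ HasCoveringDim X d ∧
      ¬ IsInverseLimitOfMinkowskiPolyhedra.{u} d X := by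
  obtain ⟨e, rfl⟩ := Nat.exists_eq_add_of_le' hd
  exact ⟨FatSlab e, inferInstance, inferInstance, isLengthSpace_fatSlab e,
    hasCoveringDim_fatSlab e, not_inverseLimit_fatSlab e⟩

end Pool.Agent.MP_616ade_gt
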