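import Pool.Agent.MP_616ade_gt.Graph

open scoped ENNReal Topology
open Set

namespace Pool.Agent.MP_616ade_gt

variable {M : Type*} [MetricSpace M]

lemma induced_of_restricted {E : Type*} [NormedAddCommGroup E] [NormedSpace ℝ E] {H : Set E}
    (hH : Convex ℝ H) {S : Set M} {ψ : E → M} (hm : MapsTo ψ H S)
    (hiso : ∀ a ∈ H, ∀ b ∈ H, edist (ψ a) (ψ b) = edist a b) :
    ∀ a ∈ H, ∀ b ∈ H, inducedLengthDist S (ψ a) (ψ b) = edist a b := by
  intro a ha b hb
  refine le_antisymm ?_ (hiso a ha b hb ▸ edist_le_inducedLengthDist S _ _)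
  have hmem : ∀ t ∈ Icc (0 : ℝ) 1, AffineMap.lineMap a b t ∈ H := fun t ht =>
    hH.segment_subset ha hb (by rw [segment_eq_image_lineMap]; exact mem_image_of_mem _ ht)
  have hlip : LipschitzOnWith (nndist a b) (fun t : ℝ => ψ (AffineMap.lineMap a b t))
      (Icc (0 : ℝ) 1) := by
    intro s hs t ht
    simp only
    rw [hiso _ (hmem s hs) _ (hmem t ht)]
    exact lipschitzWith_lineMap a b s t
  let P : Path (ψ a) (ψ b) :=
    { toFun := fun s => ψ (AffineMap.lineMap a b (s : ℝ))
      continuous_toFun := hlip.continuousOn.comp_continuous continuous_subtype_val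
        (fun s => s.2)
      source' := by simp
      target' := by simp }
  refine iInf_le_of_le P (iInf_le_of_le ?_ ?_)
  · rintro _ ⟨s, rfl⟩
    exact hm (hmem _ s.2)
  have e1 : curveLength P ≤ (nndist a b : ℝ≥0∞) *
      eVariationOn (Subtype.val : unitInterval → ℝ) univ :=
    LipschitzOnWith.comp_eVariationOn_le hlip (fun s _ => s.2)
  have e2 : eVariationOn (Subtype.val : unitInterval → ℝ) univ ≤ 1 := by
    have := MonotoneOn.eVariationOn_eq (f := (Subtype.val : unitInterval → ℝ)) (s := univ)
      (fun a _ b _ h => h) (a := 0) (b := 1) (mem_univ _) (mem_univ _)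
    have h3 : (univ ∩ Icc (0 : unitInterval) 1) = univ := by
      ext a; simp [unitInterval.le_one']
    rw [h3] at this
    simpa using this.le
  calc curveLength P ≤ (nndist a b : ℝ≥0∞) * 1 := e1.trans (by gcongr)
    _ = edist a b := by rw [mul_one, edist_nndist]

lemma exists_coord {S : Set M} (h : IsMinkowskiSimplex 1 S) :
    ∃ τ : M → ℝ, ∀ x ∈ S, ∀ y ∈ S, inducedLengthDist S x y = ENNReal.ofReal |τ x - τ y| := by
  obtain ⟨E, _, _, _, k, hk, Δ, ψ, hbij, hiso⟩ := h
  replace hiso : ∀ a ∈ convexHull ℝ (range Δ.points), ∀ b ∈ convexHull ℝ (range Δ.points),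
      inducedLengthDist S (ψ a) (ψ b) = edist a b := by
    rcases hiso with hiso | hiso
    · exact induced_of_restricted (convex_convexHull ℝ _) hbij.mapsTo hiso
    · exact hiso
  set H := convexHull ℝ (range Δ.points) with hH
  have hsub : H ⊆ segment ℝ (Δ.points 0) (Δ.points (Fin.last k)) := by
    rw [← convexHull_pair]
    apply convexHull_mono
    rintro _ ⟨i, rfl⟩
    have : i = 0 ∨ i = Fin.last k := by
      rcases i with ⟨i, hi⟩
      simp only [Fin.ext_iff, Fin.val_zero, Fin.val_last]
      omega
    rcases this with rfl | rfl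
    · left; rfl
    · right; rfl
  have hdist : ∀ a ∈ H, ∀ b ∈ H, dist a b = |‖a - Δ.points 0‖ - ‖b - Δ.points 0‖| := by
    intro a ha b hb
    have ha' := hsub ha
    have hb' := hsub hb
    rw [segment_eq_image'] at ha' hb'
    obtain ⟨s, hs, rfl⟩ := ha'
    obtain ⟨t, ht, rfl⟩ := hb'
    simp only [dist_add_left, add_sub_cancel_left]
    rw [dist_eq_norm, ← sub_smul, norm_smul, norm_smul, norm_smul, Real.norm_eq_abs,
      Real.norm_eq_abs, Real.norm_eq_abs, abs_of_nonneg hs.1, abs_of_nonneg ht.1, ← sub_mul,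
      abs_mul, abs_norm]
  refine ⟨fun x => ‖Function.invFunOn ψ H x - Δ.points 0‖, fun x hx y hy => ?_⟩
  have hx' := hbij.surjOn hx
  have hy' := hbij.surjOn hy
  have h1 := Function.invFunOn_pos (f := ψ) (s := H) (b := x) hx'
  have h2 := Function.invFunOn_pos (f := ψ) (s := H) (b := y) hy'
  have := hiso _ h1.1 _ h2.1
  rw [h1.2, h2.2, edist_dist, hdist _ h1.1 _ h2.1] at this
  exact this

theorem IsMinkowskiPolyhedron.smallQuad (h : IsMinkowskiPolyhedron 1 M) :
    ∃ r > 0, SmallQuad M r := by
  classical
  obtain ⟨hL, N, K, h, hfin, hK⟩ := h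
  have : Finite K.faces := hfin
  choose τ hτ using fun s : K.faces => exists_coord (hK s s.2).2
  let D : GraphData M K.faces :=
    { S := fun s => {x : M | (h x : Fin N → ℝ) ∈
        convexHull ℝ ((s : Finset (Fin N → ℝ)) : Set (Fin N → ℝ))}
      V := (fun x => (h x : Fin N → ℝ)) ⁻¹' (⋃ s ∈ K.faces, (s : Set (Fin N → ℝ)))
      τ := τ
      closed := fun s => by
        have hc : IsClosed (convexHull ℝ ((s : Finset (Fin N → ℝ)) : Set (Fin N → ℝ))) :=
          (Finset.finite_toSet _).isCompact_convexHull ℝ |>.isClosed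
        exact hc.preimage (continuous_subtype_val.comp h.continuous)
      cover := fun x => by
        obtain ⟨s, hs, hx⟩ := Geometry.SimplicialComplex.mem_space_iff.1 (h x).2
        exact ⟨⟨s, hs⟩, hx⟩
      finV := by
        refine Set.Finite.preimage ?_ (hfin.biUnion fun s _ => s.finite_toSet)
        exact (Subtype.val_injective.comp h.injective).injOn
      inter := fun s t hst x hs ht => by
        have hx := K.inter_subset_convexHull s.2 t.2 ⟨hs, ht⟩
        have hcard : ((s : Finset (Fin N → ℝ)) ∩ t).card ≤ 1 := by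
          by_contra hc
          push Not at hc
          have h1 := Finset.eq_of_subset_of_card_le
            (Finset.inter_subset_left (s₁ := (s : Finset (Fin N → ℝ))) (s₂ := t))
            (by have := (hK s s.2).1; omega)
          have h2 := Finset.eq_of_subset_of_card_le
            (Finset.inter_subset_right (s₁ := (s : Finset (Fin N → ℝ))) (s₂ := t))
            (by have := (hK t t.2).1; omega)
          exact hst (Subtype.ext (h1.symm.trans h2))
        have hsing : (((s : Finset (Fin N → ℝ)) : Set (Fin N → ℝ)) ∩ t).Subsingleton := by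
          rw [← Finset.coe_inter]
          exact Finset.card_le_one_iff_subsingleton.1 hcard
        rw [hsing.convex.convexHull_eq] at hx
        exact mem_biUnion s.2 hx.1
      coord := hτ }
  exact D.smallQuad hL

end Pool.Agent.MP_616ade_gt
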