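import Pool.Agent.MP_616ade_gt.Dim
import Pool.Agent.MP_616ade_gt.Poly

open scoped ENNReal Topology
open Set Filter

namespace Pool.Agent.MP_616ade_gt

universe u

/-- The fat carpet with its intrinsic metric. -/
abbrev FatCarpet : Type := Intr Carpet carpet_hB

instance : CompactSpace FatCarpet := Intr.compactSpace carpet_hT

theorem isLengthSpace_fatCarpet : IsLengthSpace FatCarpet := Intr.isLengthSpace

/-- identity homeomorphism -/
noncomputable def fatHomeo : FatCarpet ≃ₜ Carpet :=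
  Continuous.homeoOfEquivCompactToT2
    (f := (⟨Intr.pt, Intr.mk carpet_hB, fun _ => rfl, fun _ => rfl⟩ : FatCarpet ≃ Carpet))
    Intr.lipschitz_pt.continuous

lemma isC_zero : IsC 0 := ⟨⟨le_rfl, zero_le_one⟩, fun n =>
  IsGrid.not_hole (m := 0) ⟨0, by simp⟩ (by omega)⟩

lemma isC_one : IsC 1 := ⟨⟨zero_le_one, le_rfl⟩, fun n =>
  IsGrid.not_hole (m := 0) ⟨1, by simp [NN]⟩ (by omega)⟩

/-- points of the product of Cantor sets -/
noncomputable def ccpt (x y : ℝ) (hx : IsC x) (hy : IsC y) : FatCarpet :=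
  Intr.mk carpet_hB (cpt x y (hx.inC_left hy.1))

lemma dist_ccpt {x y x' y' : ℝ} (hx : IsC x) (hy : IsC y) (hx' : IsC x') (hy' : IsC y') :
    dist (ccpt x y hx hy) (ccpt x' y' hx' hy') = |x - x'| + |y - y'| := by
  apply le_antisymm
  · exact Intr.dist_le_iff.2 (cle_CC _ _ hy hx')
  · rw [← dist_cpt (hx.inC_left hy.1) (hx'.inC_left hy'.1)]
    exact Intr.dist_pt_le (ccpt x y hx hy) (ccpt x' y' hx' hy')

theorem hasCoveringDim_fatCarpet : HasCoveringDim FatCarpet 1 := by
  refine ⟨coveringDimLE_carpet.of_homeomorph fatHomeo, fun n hn => ?_⟩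
  by_contra h
  have h0 : n = 0 := by omega
  subst h0
  have : PathConnectedSpace FatCarpet := by
    refine ⟨⟨ccpt 0 0 isC_zero isC_zero⟩, fun x y => ?_⟩
    have h1 := isLengthSpace_fatCarpet x y
    by_contra hc
    have : IsEmpty (Path x y) := ⟨fun γ => hc ⟨γ⟩⟩
    rw [iInf_of_isEmpty] at h1
    simp at h1
  refine not_coveringDimLE_zero (p := ccpt 0 0 isC_zero isC_zero)
    (q := ccpt 1 0 isC_one isC_zero) ?_ hn
  intro he
  have := dist_ccpt isC_zero isC_zero isC_one isC_zero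
  rw [he] at this
  simp at this

theorem not_inverseLimit_fatCarpet : ¬ IsInverseLimitOfMinkowskiPolyhedra.{u} 1 FatCarpet := by
  classical
  rintro ⟨M, _, f, hM, hf, π, hπ⟩
  let g : ℕ → FatCarpet × FatCarpet → ℝ := fun n z => dist ((π z.1).1 n) ((π z.2).1 n)
  have hmono : Monotone g := by
    apply monotone_nat_of_le_succ
    intro n z
    have := (hf n).dist_le_mul ((π z.1).1 (n + 1)) ((π z.2).1 (n + 1))
    rw [(π z.1).2 n, (π z.2).2 n] at this
    simpa using this
  have hle : ∀ n x y, dist ((π x).1 n) ((π y).1 n) ≤ dist x y := fun n x y =>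
    Monotone.ge_of_tendsto (f := fun n => g n (x, y)) (fun a b hab => hmono hab (x, y))
      (hπ x y) n
  have hlip : ∀ n, Continuous fun x => (π x).1 n := fun n =>
    (LipschitzWith.of_dist_le_mul (K := 1) fun x y => by simpa using hle n x y).continuous
  have hunif : TendstoUniformly g (fun z => dist z.1 z.2) atTop :=
    Monotone.tendstoUniformly_of_forall_tendsto
      (fun n => ((hlip n).comp continuous_fst).dist ((hlip n).comp continuous_snd)) hmono
      continuous_dist (fun z => hπ z.1 z.2)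
  obtain ⟨n, hn⟩ := (Metric.tendstoUniformly_iff.1 hunif (1 / 10) (by norm_num)).exists
  have hlow : ∀ x y, dist x y - 1 / 10 ≤ dist ((π x).1 n) ((π y).1 n) := by
    intro x y
    have := hn (x, y)
    rw [Real.dist_eq, abs_lt] at this
    simp only [g] at this
    linarith [this.2]
  obtain ⟨r, hr, hq⟩ := (hM n).smallQuad
  obtain ⟨m, hm⟩ := exists_NN r hr
  have hm := hm m le_rfl
  have hN := NN_posR m
  let T : Set ℤ := {k | IsC ((k : ℝ) / NN m)}
  let F : ℤ → ℤ → M n := fun i j =>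
    if h : i ∈ T ∧ j ∈ T then (π (ccpt _ _ h.1 h.2)).1 n
    else (π (ccpt 0 0 isC_zero isC_zero)).1 n
  have hd : ∀ i j i' j' : ℤ, |(i : ℝ) / NN m - i' / NN m| + |(j : ℝ) / NN m - j' / NN m|
      = 1 / NN m * (|(i : ℝ) - i'| + |(j : ℝ) - j'|) := by
    intro i j i' j'
    rw [← sub_div, ← sub_div, abs_div, abs_div, abs_of_pos hN]
    ring
  have key := grid_obstruction hq (NN m) (1 / NN m) (1 / 10) hm (by norm_num) T (Good m)
    (fun i hi => ⟨(good_isC hi).1, (good_isC hi).2.1⟩) (fun i hi => (good_isC hi).2.2) F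
    (by
      intro i hi j hj i' hi' j' hj'
      simp only [F, hi, hj, hi', hj', and_self, dite_true]
      refine (hle n _ _).trans (le_of_eq ?_)
      rw [dist_ccpt, hd])
    (by
      intro i hi j hj i' hi' j' hj'
      simp only [F, hi, hj, hi', hj', and_self, dite_true]
      refine le_trans (le_of_eq ?_) (hlow _ _)
      rw [dist_ccpt, hd])
  have hc := card_good m
  have hc' : (NN m : ℝ) / 2 ≤ (Good m).card := by
    have : (0 : ℝ) ≤ NN m * (1 / 2 ^ (m + 1)) := by positivity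
    linarith
  have h2 : ((NN m : ℝ) / 2) ^ 2 ≤ ((Good m).card : ℝ) ^ 2 := by gcongr
  have h3 : 2 * (1 / (NN m : ℝ)) * ((NN m : ℝ) / 2) ^ 2 = NN m / 2 := by field_simp
  have h4 : 2 * (1 / (NN m : ℝ)) * ((NN m : ℝ) / 2) ^ 2 ≤
      2 * (1 / (NN m : ℝ)) * ((Good m).card : ℝ) ^ 2 := by gcongr
  linarith

theorem main :
    ¬ ∀ d : ℕ, 1 ≤ d → ∀ (X : Type) [MetricSpace X] [CompactSpace X],
      IsLengthSpace X → HasCoveringDim X d → IsInverseLimitOfMinkowskiPolyhedra.{u} d X :=
  fun h => not_inverseLimit_fatCarpet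
    (h 1 le_rfl FatCarpet isLengthSpace_fatCarpet hasCoveringDim_fatCarpet)

theorem main_exists :
    ∃ (X : Type) (_ : MetricSpace X), CompactSpace X ∧ IsLengthSpace X ∧ HasCoveringDim X 1 ∧
      ¬ IsInverseLimitOfMinkowskiPolyhedra.{u} 1 X :=
  ⟨FatCarpet, inferInstance, inferInstance, isLengthSpace_fatCarpet, hasCoveringDim_fatCarpet,
    not_inverseLimit_fatCarpet⟩

end Pool.Agent.MP_616ade_gt
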